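import Pool.Agent.H46.ARB1.Stm
import Pool.Agent.H22.ARB.KOne

/-!
# ARB1, row R1: counting; utilities on reachability
-/

set_option autoImplicit false
set_option linter.unusedSectionVars false

namespace ARB.KS

open Finset Relation

/-! ### utilities -/

theorem rtg_last {α : Type} {s : α → α → Prop} {P : α → Prop} {x y : α}
    (h : ReflTransGen s x y) (hx : ¬ P x) (hy : P y) :
    ∃ a b, ReflTransGen s x a ∧ s a b ∧ ¬ P a ∧ P b ∧
      ReflTransGen (fun c d => s c d ∧ P c ∧ P d) b y := by
  induction h with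
  | refl => exact absurd hy hx
  | @tail b c h1 h2 ih =>
    by_cases hb : P b
    · obtain ⟨a, d, h3, h4, h5, h6, h7⟩ := ih hb
      exact ⟨a, d, h3, h4, h5, h6, h7.tail ⟨h2, hb, hy⟩⟩
    · exact ⟨b, c, h1, h2, hb, hy, ReflTransGen.refl⟩

theorem rtg_first {α : Type} {s : α → α → Prop} {P : α → Prop} {x y : α}
    (h : ReflTransGen s x y) (hx : ¬ P x) (hy : P y) :
    ∃ a b, ReflTransGen (fun c d => s c d ∧ ¬ P c ∧ ¬ P d) x a ∧ s a b ∧ ¬ P a ∧ P b ∧
      ReflTransGen s b y := by
  induction h using ReflTransGen.head_induction_on with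
  | refl => exact absurd hy hx
  | @head a c h1 h2 ih =>
    by_cases hc : P c
    · exact ⟨a, c, ReflTransGen.refl, h1, hx, hc, h2⟩
    · obtain ⟨d, b, h3, h4, h5, h6, h7⟩ := ih hc
      exact ⟨d, b, ReflTransGen.head ⟨h1, hx, hc⟩ h3, h4, h5, h6, h7⟩

/-- comparability of two predecessors. -/
theorem rtg_comp {α : Type} {s : α → α → Prop} (hu : ∀ a b c, s a c → s b c → a = b)
    {x y z : α} (hx : ReflTransGen s x z) (hy : ReflTransGen s y z) :
    ReflTransGen s x y ∨ ReflTransGen s y x := by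
  induction hx with
  | refl => exact Or.inr hy
  | @tail b c h1 h2 ih =>
    rcases ReflTransGen.cases_tail hy with h | ⟨d, h3, h4⟩
    · subst h
      exact Or.inl (h1.tail h2)
    · have := hu _ _ _ h2 h4
      subst this
      exact ih h3

theorem rtg_anti {α : Type} {s : α → α → Prop} (hu : ∀ a b c, s a c → s b c → a = b)
    {r : α} (hr : ∀ a, ¬ s a r) {x : α} (h0 : ReflTransGen s r x) :
    ∀ y, ReflTransGen s x y → ReflTransGen s y x → x = y := by
  induction h0 with
  | refl =>
    intro y _ h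
    rcases ReflTransGen.cases_tail h with h | ⟨d, _, h4⟩
    · exact h
    · exact absurd h4 (hr d)
  | @tail b c h1 h2 ih =>
    intro y h3 h4
    rcases ReflTransGen.cases_tail h4 with h | ⟨d, h5, h6⟩
    · exact h
    · have := hu _ _ _ h2 h6
      subst this
      have e1 : b = y := ih y (ReflTransGen.head h2 h3) h5
      subst e1
      exact (ih c (ReflTransGen.single h2) h3).symm

section

variable {V I : Type} [Fintype V] [DecidableEq V] [Fintype I] [DecidableEq I]
  {H : MixedGraph V I}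

theorem rch_mono {o : Orientation H} {J K : Finset I} (h : J ⊆ K) {x y : V}
    (hx : Rch o J x y) : Rch o K x y :=
  k1_mono (fun _ _ ⟨e, he, h1, h2⟩ => ⟨e, h he, h1, h2⟩) hx

/-- reach with different orientations: it is enough that each step can be copied. -/
theorem rch_of {o o' : Orientation H} {J K : Finset I} {x y : V}
    (hx : Rch o J x y)
    (h : ∀ e ∈ J, Rch o J x (o.tail e) → Rch o J (o.head e) y →
      e ∈ K ∧ o'.tail e = o.tail e ∧ o'.head e = o.head e) : Rch o' K x y := by
  induction hx using ReflTransGen.head_induction_on with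
  | refl => exact ReflTransGen.refl
  | @head a c h1 h2 ih =>
    obtain ⟨e, he, h3, h4⟩ := h1
    obtain ⟨h5, h6, h7⟩ := h e he (by rw [h3]) (by rw [h4]; exact h2)
    refine ReflTransGen.head ⟨e, h5, by rw [h6, h3], by rw [h7, h4]⟩ (ih ?_)
    intro e' he' h8 h9
    exact h e' he' (ReflTransGen.head ⟨e, he, h3, h4⟩ h8) h9

/-- last entry of a walk into a set. -/
theorem rch_last {o : Orientation H} {J : Finset I} {X : Finset V} {x y : V}
    (h : Rch o J x y) (hx : x ∉ X) (hy : y ∈ X) :
    ∃ e ∈ J, o.tail e ∉ X ∧ o.head e ∈ X ∧ Rch o J x (o.tail e) ∧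
      Rch o (J.filter (fun e => o.tail e ∈ X ∧ o.head e ∈ X)) (o.head e) y := by
  obtain ⟨a, b, h1, ⟨e, he, h2, h3⟩, h4, h5, h6⟩ := rtg_last (P := (· ∈ X)) h hx hy
  subst h2
  subst h3
  refine ⟨e, he, h4, h5, h1, ?_⟩
  refine k1_mono ?_ h6
  rintro c d ⟨⟨e', he', h7, h8⟩, h9, h10⟩
  exact ⟨e', mem_filter.2 ⟨he', by rw [h7]; exact h9, by rw [h8]; exact h10⟩, h7, h8⟩

/-- first entry of a walk into a set. -/
theorem rch_first {o : Orientation H} {J : Finset I} {X : Finset V} {x y : V}
    (h : Rch o J x y) (hx : x ∉ X) (hy : y ∈ X) :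
    ∃ e ∈ J, o.tail e ∉ X ∧ o.head e ∈ X ∧
      Rch o (J.filter (fun e => o.tail e ∉ X ∧ o.head e ∉ X)) x (o.tail e) ∧
      Rch o J (o.head e) y := by
  obtain ⟨a, b, h1, ⟨e, he, h2, h3⟩, h4, h5, h6⟩ := rtg_first (P := (· ∈ X)) h hx hy
  subst h2
  subst h3
  refine ⟨e, he, h4, h5, ?_, h6⟩
  refine k1_mono ?_ h1
  rintro c d ⟨⟨e', he', h7, h8⟩, h9, h10⟩
  exact ⟨e', mem_filter.2 ⟨he', by rw [h7]; exact h9, by rw [h8]; exact h10⟩, h7, h8⟩

theorem din_pos {o : Orientation H} {J : Finset I} {X : Finset V} {e : I} (he : e ∈ J)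
    (h1 : o.tail e ∉ X) (h2 : o.head e ∈ X) : 1 ≤ din o.tail o.head J X :=
  card_pos.2 ⟨e, mem_filter.2 ⟨he, h1, h2⟩⟩

theorem din_zero {o : Orientation H} {J : Finset I} {X : Finset V}
    (h : din o.tail o.head J X = 0) {e : I} (he : e ∈ J) (h2 : o.head e ∈ X) :
    o.tail e ∈ X := by
  by_contra h1
  have := din_pos he h1 h2
  omega

theorem din_eq_zero {o : Orientation H} {J : Finset I} {X : Finset V}
    (h : ∀ e ∈ J, o.head e ∈ X → o.tail e ∈ X) : din o.tail o.head J X = 0 := by
  unfold din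
  rw [card_eq_zero, filter_eq_empty_iff]
  intro e he h1
  exact h1.1 (h e he h1.2)

/-- unreached sets are not entered. -/
theorem din_unreached {o : Orientation H} {J : Finset I} (Q : Finset V) (X : Finset V)
    (hX : ∀ x, x ∈ X ↔ ¬ ∃ r ∈ Q, Rch o J r x) : din o.tail o.head J X = 0 := by
  apply din_eq_zero
  intro e he h1
  rw [hX] at h1 ⊢
  rintro ⟨r, hr, h2⟩
  exact h1 ⟨r, hr, h2.tail ⟨e, he, rfl, rfl⟩⟩

/-- number of elements of `J` with head `x`. -/
def ind (o : Orientation H) (J : Finset I) (x : V) : ℕ := (J.filter (fun e => o.head e = x)).card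

theorem ind_sum (o : Orientation H) (J : Finset I) (X : Finset V) :
    din o.tail o.head J X + (J.filter (fun e => o.tail e ∈ X ∧ o.head e ∈ X)).card =
      ∑ x ∈ X, ind o J x := by
  have h1 : (J.filter (fun e => o.head e ∈ X)).card = ∑ y ∈ X, ind o J y := by
    rw [card_eq_sum_card_fiberwise (s := J.filter (fun e => o.head e ∈ X)) (f := o.head)
      (t := X) (fun e he => (mem_filter.1 he).2)]
    refine sum_congr rfl fun y hy => ?_
    unfold ind
    congr 1
    ext e
    simp only [mem_filter]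
    constructor
    · rintro ⟨⟨h1, _⟩, h2⟩
      exact ⟨h1, h2⟩
    · rintro ⟨h1, h2⟩
      exact ⟨⟨h1, by rw [h2]; exact hy⟩, h2⟩
  rw [← h1]
  have h2 : J.filter (fun e => o.head e ∈ X) =
      J.filter (fun e => o.tail e ∉ X ∧ o.head e ∈ X) ∪
        J.filter (fun e => o.tail e ∈ X ∧ o.head e ∈ X) := by
    ext e
    simp only [mem_filter, mem_union]
    tauto
  rw [h2, card_union_of_disjoint]
  · rfl
  · rw [disjoint_left]
    intro e he he'
    rw [mem_filter] at he he'
    exact he.2.1 he'.2.1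

theorem sum_if_eq (u : V) (X : Finset V) :
    ∑ x ∈ X, (if x = u then 1 else 0) = if u ∈ X then 1 else 0 := by
  simp

theorem sum_if_mem (R X : Finset V) :
    ∑ x ∈ X, (if x ∈ R then 1 else 0) = (R ∩ X).card := by
  rw [← card_filter, inter_comm, ← filter_mem_eq_inter]

theorem sCnt' {o : Orientation H} {u : V} {R : Finset V} (h : Tok o u R) (X : Finset V) :
    din o.tail o.head univ X + (if u ∈ X then 1 else 0) + (R ∩ X).card + inner H X =
      2 * X.card := by
  have h1 := k1_sum o X
  have h2 : ∑ x ∈ X, (indeg o x + (if x = u then 1 else 0) + (if x ∈ R then 1 else 0)) =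
      2 * X.card := by
    rw [sum_congr rfl (fun x _ => h x), sum_const, smul_eq_mul, mul_comm]
  rw [sum_add_distrib, sum_add_distrib, sum_if_eq, sum_if_mem, ← h1] at h2
  unfold k1dn at h2
  omega

theorem sol_ind {o : Orientation H} {u : V} {R : Finset V} {F : Finset I} (h : Sol o u R F)
    (x : V) : ind o F x + (if x ∈ R then 1 else 0) = 1 ∧
      ind o (univ \ F) x + (if x = u then 1 else 0) = 1 := by
  have h1 : 1 ≤ ind o F x + (if x ∈ R then 1 else 0) := by
    by_cases hx : x ∈ R
    · simp [hx]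
    · obtain ⟨r, hr, h2⟩ := h.2.1 x
      rcases ReflTransGen.cases_tail h2 with h3 | ⟨y, _, e, he, _, h5⟩
      · subst h3
        exact absurd hr hx
      · have : 1 ≤ ind o F x := card_pos.2 ⟨e, mem_filter.2 ⟨he, h5⟩⟩
        omega
  have h2 : 1 ≤ ind o (univ \ F) x + (if x = u then 1 else 0) := by
    by_cases hx : x = u
    · simp [hx]
    · have h2 := h.2.2 x
      rcases ReflTransGen.cases_tail h2 with h3 | ⟨y, _, e, he, _, h5⟩
      · exact absurd h3 hx
      · have : 1 ≤ ind o (univ \ F) x := card_pos.2 ⟨e, mem_filter.2 ⟨he, h5⟩⟩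
        omega
  have h3 : ind o F x + ind o (univ \ F) x = indeg o x := by
    unfold ind indeg
    rw [← card_union_of_disjoint]
    · congr 1
      ext e
      simp only [mem_union, mem_filter, mem_univ, mem_sdiff, true_and]
      tauto
    · rw [disjoint_left]
      intro e he he'
      rw [mem_filter] at he he'
      exact (mem_sdiff.1 he'.1).2 he.1
  have h4 := h.1 x
  omega

theorem sSolP' {o : Orientation H} {u : V} {R : Finset V} {F : Finset I} (h : Sol o u R F) :
    SolP o u R F := by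
  have fU : ∀ e ∈ F, ∀ e' ∈ F, o.head e = o.head e' → e = e' := by
    intro e he e' he' hh
    have h1 := (sol_ind h (o.head e)).1
    have h2 : ind o F (o.head e) ≤ 1 := by omega
    exact card_le_one.1 h2 e (mem_filter.2 ⟨he, rfl⟩) e' (mem_filter.2 ⟨he', hh.symm⟩)
  have tU : ∀ e ∉ F, ∀ e' ∉ F, o.head e = o.head e' → e = e' := by
    intro e he e' he' hh
    have h1 := (sol_ind h (o.head e)).2
    have h2 : ind o (univ \ F) (o.head e) ≤ 1 := by omega
    exact card_le_one.1 h2 e (mem_filter.2 ⟨by simp [he], rfl⟩) e'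
      (mem_filter.2 ⟨by simp [he'], hh.symm⟩)
  have fR : ∀ e ∈ F, o.head e ∉ R := by
    intro e he hR
    have h1 := (sol_ind h (o.head e)).1
    rw [if_pos hR] at h1
    have h2 : 1 ≤ ind o F (o.head e) := card_pos.2 ⟨e, mem_filter.2 ⟨he, rfl⟩⟩
    omega
  have tR : ∀ e ∉ F, o.head e ≠ u := by
    intro e he hR
    have h1 := (sol_ind h (o.head e)).2
    rw [if_pos hR] at h1
    have h2 : 1 ≤ ind o (univ \ F) (o.head e) := card_pos.2 ⟨e, mem_filter.2 ⟨by simp [he], rfl⟩⟩
    omega
  have fu : ∀ a b c, stepRel o.tail o.head F a c → stepRel o.tail o.head F b c → a = b := by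
    rintro a b c ⟨e, he, h1, h2⟩ ⟨e', he', h3, h4⟩
    have := fU e he e' he' (h2.trans h4.symm)
    subst this
    exact h1.symm.trans h3
  have tu : ∀ a b c, stepRel o.tail o.head (univ \ F) a c →
      stepRel o.tail o.head (univ \ F) b c → a = b := by
    rintro a b c ⟨e, he, h1, h2⟩ ⟨e', he', h3, h4⟩
    have := tU e (mem_sdiff.1 he).2 e' (mem_sdiff.1 he').2 (h2.trans h4.symm)
    subst this
    exact h1.symm.trans h3
  refine ⟨fU, fR, tU, tR, ?_, ?_, ?_, ?_, ?_, ?_, ?_⟩
  · intro x y h1 h2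
    obtain ⟨r, hr, h3⟩ := h.2.1 x
    refine rtg_anti fu (r := r) ?_ h3 y h1 h2
    rintro a ⟨e, he, _, h5⟩
    exact fR e he (by rw [h5]; exact hr)
  · intro x y h1 h2
    refine rtg_anti tu (r := u) ?_ (h.2.2 x) y h1 h2
    rintro a ⟨e, he, _, h5⟩
    exact tR e (mem_sdiff.1 he).2 h5
  · intro x y z h1 h2
    exact rtg_comp fu h1 h2
  · intro x y z h1 h2
    exact rtg_comp tu h1 h2
  · intro r hr r' hr' x h1 h2
    have key : ∀ a b : V, b ∈ R → Rch o F a b → a = b := by
      intro a b hb hab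
      rcases ReflTransGen.cases_tail hab with h3 | ⟨y, _, e, he, _, h5⟩
      · exact h3.symm
      · exact absurd (by rw [h5]; exact hb) (fR e he)
    rcases rtg_comp fu h1 h2 with h3 | h3
    · exact key r r' hr' h3
    · exact (key r' r hr h3).symm
  · intro X
    have h1 := ind_sum o F X
    have h2 : ∑ x ∈ X, (ind o F x + (if x ∈ R then 1 else 0)) = X.card := by
      rw [sum_congr rfl (fun x _ => (sol_ind h x).1), sum_const, smul_eq_mul, mul_one]
    rw [sum_add_distrib, sum_if_mem, ← h1] at h2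
    omega
  · intro X
    have h1 := ind_sum o (univ \ F) X
    have h2 : ∑ x ∈ X, (ind o (univ \ F) x + (if x = u then 1 else 0)) = X.card := by
      rw [sum_congr rfl (fun x _ => (sol_ind h x).2), sum_const, smul_eq_mul, mul_one]
    rw [sum_add_distrib, sum_if_eq, ← h1] at h2
    omega

theorem sFea' {o : Orientation H} {u : V} {R : Finset V} (h : Tok o u R) :
    Fea H R ↔ ∀ x, Rch o univ u x := by
  classical
  constructor
  · intro hF x
    by_contra hx
    set X : Finset V := univ.filter (fun x => ¬ Rch o univ u x) with hX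
    have hmem : ∀ x, x ∈ X ↔ ¬ Rch o univ u x := by intro x; simp [hX]
    have h1 : din o.tail o.head univ X = 0 := by
      apply din_unreached {u}
      intro x
      simp [hmem]
    have h2 := sCnt' h X
    have h3 : u ∉ X := by
      rw [hmem]
      exact fun hh => hh ReflTransGen.refl
    rw [if_neg h3, h1] at h2
    have h4 := hF X ⟨x, (hmem x).2 hx⟩
    omega
  · intro hF X hX
    have h2 := sCnt' h X
    by_cases hu : u ∈ X
    · rw [if_pos hu] at h2
      omega
    · obtain ⟨x, hx⟩ := hX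
      obtain ⟨e, he, h3, h4, -, -⟩ := rch_last (hF x) hu hx
      have := din_pos he h3 h4
      omega

end

theorem sCnt : SCnt := by
  intro V I _ _ _ _ H o u R h X
  exact sCnt' h X

theorem sSolP : SSolP := by
  intro V I _ _ _ _ H o u R F h
  exact sSolP' h

theorem sFea : SFea := by
  intro V I _ _ _ _ H o u R h
  exact sFea' h

end ARB.KS
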