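import Pool.Agent.H46.ARB1.Cnt

/-!
# ARB1, row R13: the core of a minimal tuple
-/

set_option autoImplicit false
set_option linter.unusedSectionVars false

namespace ARB.KS

open Finset Relation

section

variable {V I : Type} [Fintype V] [DecidableEq V] [Fintype I] [DecidableEq I]
  {H : MixedGraph V I}

/-- points of the tree path from `h` to `c` are heads of elements of the path. -/
theorem path_mem {o : Orientation H} {u : V} {R : Finset V} {F J : Finset I}
    (hP : SolP o u R F) (hJ : ∀ e ∈ J, e ∉ F) {h c : V} (hc : Rch o J h c) :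
    ∀ y, Rch o (univ \ F) y c → Rch o (univ \ F) h y → y = h ∨ ∃ e ∈ J, o.head e = y := by
  induction hc with
  | refl =>
    intro y h1 h2
    exact Or.inl (hP.tA _ _ h1 h2)
  | @tail b c h1 h2 ih =>
    intro y h3 h4
    rcases ReflTransGen.cases_tail h3 with h5 | ⟨d, h5, h6⟩
    · obtain ⟨e, he, h7, h8⟩ := h2
      exact Or.inr ⟨e, he, h8.trans h5⟩
    · obtain ⟨e, he, h7, h8⟩ := h2
      obtain ⟨e', he', h9, h10⟩ := h6
      have : e = e' := hP.tU e (hJ e he) e' (mem_sdiff.1 he').2 (h8.trans h10.symm)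
      subst this
      rw [← h9, h7] at h5
      exact ih y h5 h4

/-- tree ancestors of a point reached outside `X` are outside `X`. -/
theorem anc_out {o : Orientation H} {u : V} {R : Finset V} {F : Finset I} {X : Finset V}
    (hP : SolP o u R F) (hu : u ∉ X) {y : V}
    (hy : Rch o ((univ \ F).filter (fun e => o.tail e ∉ X ∧ o.head e ∉ X)) u y) :
    ∀ z, Rch o (univ \ F) z y → z ∉ X := by
  induction hy with
  | refl =>
    intro z hz
    rcases ReflTransGen.cases_tail hz with h5 | ⟨d, _, e', he', _, h10⟩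
    · rw [← h5]; exact hu
    · exact absurd h10 (hP.tR e' (mem_sdiff.1 he').2)
  | @tail b c h1 h2 ih =>
    intro z hz
    obtain ⟨e, he, h7, h8⟩ := h2
    rw [mem_filter] at he
    rcases ReflTransGen.cases_tail hz with h5 | ⟨d, h5, e', he', h9, h10⟩
    · rw [← h5, ← h8]; exact he.2.2
    · have : e = e' := hP.tU e (mem_sdiff.1 he.1).2 e' (mem_sdiff.1 he').2 (h8.trans h10.symm)
      subst this
      rw [← h9, h7] at h5
      exact ih z h5

/-- first vertex of `X` on the tree path from `u` to `v`. -/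
theorem first_in {o : Orientation H} {u : V} {R : Finset V} {F : Finset I} {X : Finset V} {v : V}
    (hs : Sol o u R F) (hu : u ∉ X) (hv : v ∈ X) :
    ∃ f, f ∉ F ∧ o.tail f ∉ X ∧ o.head f ∈ X ∧ Rch o (univ \ F) (o.head f) v ∧
      (∀ z, Rch o (univ \ F) z (o.tail f) → z ∉ X) ∧
      (∀ z ∈ X, Rch o (univ \ F) z (o.head f) → z = o.head f) := by
  have hP := sSolP' hs
  obtain ⟨f, hf, h1, h2, h3, h4⟩ := rch_first (hs.2.2 v) hu hv
  have h5 := anc_out hP hu h3
  refine ⟨f, (mem_sdiff.1 hf).2, h1, h2, h4, h5, ?_⟩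
  intro z hz h6
  rcases ReflTransGen.cases_tail h6 with h7 | ⟨d, h7, e', he', h9, h10⟩
  · exact h7.symm
  · have : e' = f := hP.tU e' (mem_sdiff.1 he').2 f (mem_sdiff.1 hf).2 h10
    subst this
    rw [← h9] at h7
    exact absurd hz (h5 z h7)

theorem root_eq {o : Orientation H} {u : V} {R : Finset V} {F : Finset I} {v r : V}
    (hP : SolP o u R F) (hv : v ∈ R) (hr : r ∈ R) (h : r ∈ Dsc o F v) : r = v :=
  (hP.fO v hv r hr r (mem_Dsc.1 h) ReflTransGen.refl).symm

theorem dsc_root (o : Orientation H) (F : Finset I) (v : V) : v ∈ Dsc o F v :=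
  mem_Dsc.2 ReflTransGen.refl

end

theorem sCore (hEnt : SEntry) (hL3 : SL3) (hL1 : SL1) : SCore := by
  classical
  intro V I _ _ _ _ H s o u R F v hC hT
  have hs := hT.1.sol
  have hP := sSolP' hs
  set M := Dsc o F v with hM
  have hu : u ∉ M := hL3 V I H s o u R F v hC hT
  have hv : v ∈ M := dsc_root o F v
  obtain ⟨g, hgT, hg1, hg2, hg3, hg4⟩ := rch_last (hs.2.2 v) hu hv
  have hgF : g ∉ F := (mem_sdiff.1 hgT).2
  have hg5 : Rch o (univ \ F) (o.head g) v := rch_mono (filter_subset _ _) hg4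
  -- claim A
  have hA : ∀ e, o.tail e ∉ M → o.head e ∈ M → e ≠ g → Rch o (univ \ F) (o.head e) (o.tail g) := by
    intro e he1 he2 hne
    obtain ⟨heF, he3⟩ := hEnt V I H s o u R F v hC hT e he1 he2
    have hneh : o.head e ≠ o.head g := fun h => hne (hP.tU e heF g hgF h)
    rcases hP.tC _ _ _ he3 hg5 with h1 | h1
    · rcases ReflTransGen.cases_tail h1 with h2 | ⟨y, h2, e', he', h3, h4⟩
      · exact absurd h2.symm hneh
      · have : e' = g := hP.tU e' (mem_sdiff.1 he').2 g hgF h4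
        subst this
        rw [← h3] at h2
        exact h2
    · exfalso
      rcases path_mem hP (J := (univ \ F).filter (fun e => o.tail e ∈ M ∧ o.head e ∈ M))
        (fun e he => (mem_sdiff.1 (mem_filter.1 he).1).2) hg4 (o.head e) he3 h1 with h2 | ⟨e', he', h2⟩
      · exact hneh h2
      · rw [mem_filter] at he'
        have : e' = e := hP.tU e' (mem_sdiff.1 he'.1).2 e heF h2
        subst this
        exact he1 he'.2.1
  have hgi : Rch o (ins o M) (o.head g) v := by
    refine rch_mono ?_ hg4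
    intro e he
    rw [mem_filter] at he
    exact mem_ins.2 he.2
  -- claim B
  have hB : ∀ e, o.tail e ∉ M → o.head e ∈ M → e ≠ g → ¬ Rch o (ins o M) (o.head e) v := by
    intro e he1 he2 hne hr
    obtain ⟨heF, -⟩ := hEnt V I H s o u R F v hC hT e he1 he2
    set X : Finset V := univ.filter (fun x => x ∈ M ∧ Rch o (ins o M) x v) with hX
    have mX : ∀ x, x ∈ X ↔ x ∈ M ∧ Rch o (ins o M) x v := by intro x; simp [hX]
    have hXM : X ⊆ M := fun x hx => ((mX x).1 hx).1
    have hvX : v ∈ X := (mX v).2 ⟨hv, ReflTransGen.refl⟩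
    have hcl : ∀ e, o.head e ∈ X → o.tail e ∈ M → o.tail e ∈ X := by
      intro e h1 h2
      rw [mX] at h1 ⊢
      exact ⟨h2, ReflTransGen.head ⟨e, mem_ins.2 ⟨h2, h1.1⟩, rfl, rfl⟩ h1.2⟩
    obtain ⟨f, hf1, hf2, hf3, hf4, hf5, hf6⟩ := first_in hs (fun h => hu (hXM h)) hvX
    have hkey := hL1 V I H s o u R F v X (o.head f) hC hT hXM hvX hcl hf3 hf4 hf6
    have htv : Rch o (ins o X) (o.head f) v := by
      refine rch_of ((mX _).1 hf3).2 ?_
      intro e' he' _ h2
      rw [mem_ins] at he'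
      refine ⟨?_, rfl, rfl⟩
      have h3 : o.head e' ∈ X := (mX _).2 ⟨he'.2, h2⟩
      exact mem_ins.2 ⟨hcl e' h3 he'.1, h3⟩
    have hall : ∀ x, Rch o F v x → x ∈ X → Rch o (ins o X) (o.head f) x := by
      intro x hx
      induction hx with
      | refl => intro _; exact htv
      | @tail b c h1 h2 ih =>
        intro hc
        obtain ⟨e', he', h3, h4⟩ := h2
        have hb : b ∈ X := by
          rw [← h3]
          exact hcl e' (by rw [h4]; exact hc) (by rw [h3]; exact mem_Dsc.2 h1)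
        exact (ih hb).tail ⟨e', mem_ins.2 ⟨by rw [h3]; exact hb, by rw [h4]; exact hc⟩, h3, h4⟩
    have h1 : o.head g = o.head f :=
      hkey g hg1 (hall _ (mem_Dsc.1 hg2) ((mX _).2 ⟨hg2, hgi⟩))
    have h2 : o.head e = o.head f :=
      hkey e he1 (hall _ (mem_Dsc.1 he2) ((mX _).2 ⟨he2, hr⟩))
    exact hne (hP.tU e heF g hgF (h2.trans h1.symm))
  set B : Finset V := univ.filter (fun x => x ∈ M ∧
    ¬ ∃ e, o.tail e ∉ M ∧ o.head e ∈ M ∧ e ≠ g ∧ Rch o (ins o M) (o.head e) x) with hBdef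
  have mB : ∀ x, x ∈ B ↔ x ∈ M ∧
    ¬ ∃ e, o.tail e ∉ M ∧ o.head e ∈ M ∧ e ≠ g ∧ Rch o (ins o M) (o.head e) x := by
    intro x; simp [hBdef]
  have hBM : B ⊆ M := fun x hx => ((mB x).1 hx).1
  have hvB : v ∈ B := by
    rw [mB]
    refine ⟨hv, ?_⟩
    rintro ⟨e, h1, h2, h3, h4⟩
    exact hB e h1 h2 h3 h4
  have hcl : ∀ e, o.head e ∈ B → o.tail e ∈ M → o.tail e ∈ B := by
    intro e h1 h2
    rw [mB] at h1 ⊢
    refine ⟨h2, ?_⟩
    rintro ⟨e', h3, h4, h5, h6⟩
    exact h1.2 ⟨e', h3, h4, h5, h6.tail ⟨e, mem_ins.2 ⟨h2, h1.1⟩, rfl, rfl⟩⟩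
  have hgB : o.head g ∈ B := by
    rw [mB]
    refine ⟨hg2, ?_⟩
    rintro ⟨e, h1, h2, h3, h4⟩
    exact hB e h1 h2 h3 (h4.trans hgi)
  have hgu : ∀ e, o.tail e ∉ M → o.head e ∈ B → e = g := by
    intro e h1 h2
    by_contra hne
    exact ((mB _).1 h2).2 ⟨e, h1, hBM h2, hne, ReflTransGen.refl⟩
  refine ⟨B, g, hBM, hvB, hcl, hg1, hgB, hgu, ?_, ?_, ?_, hg5⟩
  · have h1 := sCnt' hs.1 B
    have h2 : din o.tail o.head univ B = 1 := by
      unfold din
      rw [card_eq_one]
      refine ⟨g, ?_⟩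
      ext e
      simp only [mem_filter, mem_univ, true_and, mem_singleton]
      constructor
      · rintro ⟨h3, h4⟩
        by_cases h5 : o.tail e ∈ M
        · exact absurd (hcl e h4 h5) h3
        · exact hgu e h5 h4
      · rintro rfl
        exact ⟨fun h => hg1 (hBM h), hgB⟩
    have h3 : (R ∩ B).card = 1 := by
      rw [card_eq_one]
      refine ⟨v, ?_⟩
      ext r
      simp only [mem_inter, mem_singleton]
      constructor
      · rintro ⟨h3, h4⟩
        exact root_eq hP hT.1.vR h3 (hBM h4)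
      · rintro rfl
        exact ⟨hT.1.vR, hvB⟩
    rw [h2, h3, if_neg (fun h => hu (hBM h))] at h1
    omega
  · intro x hx
    rw [mem_sdiff] at hx
    have h1 : ∃ e, o.tail e ∉ M ∧ o.head e ∈ M ∧ e ≠ g ∧ Rch o (ins o M) (o.head e) x := by
      by_contra hno
      exact hx.2 ((mB x).2 ⟨hx.1, hno⟩)
    obtain ⟨e, h2, h3, h4, h5⟩ := h1
    have hout : ∀ y ∈ M, Rch o (ins o M) (o.head e) y → y ∈ M \ B := by
      intro y hy hry
      rw [mem_sdiff]
      exact ⟨hy, fun hyB => ((mB y).1 hyB).2 ⟨e, h2, h3, h4, hry⟩⟩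
    refine ⟨e, h2, hout _ h3 ReflTransGen.refl, ?_⟩
    refine rch_of h5 ?_
    intro e' he' h6 _
    rw [mem_ins] at he'
    refine ⟨mem_ins.2 ⟨hout _ he'.1 h6, hout _ he'.2 (h6.tail ⟨e', mem_ins.2 he', rfl, rfl⟩)⟩,
      rfl, rfl⟩
  · intro e h1 h2
    rw [mem_sdiff] at h2
    refine hA e h1 h2.1 ?_
    rintro rfl
    exact h2.2 hgB

end ARB.KS
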