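import Pool.Agent.H46.ARB1.Cnt

/-!
# ARB1 (`k = 1`), row R15a `SDisj`: a second tuple, disjoint from the first
-/

set_option autoImplicit false
set_option linter.unusedSectionVars false

namespace ARB.KS

open Finset Relation

section

variable {V I : Type} [Fintype V] [DecidableEq V] [Fintype I] [DecidableEq I]
  {H : MixedGraph V I}

/-- an undirected walk stays in the set of the vertices that it can reach. -/
theorem dj_own {o : Orientation H} {A : Finset V} {x : V} (hA : ∀ y, y ∈ A ↔ ERch o univ x y)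
    {y : V} (h : ERch o univ x y) : ERch o A x y := by
  induction h with
  | refl => exact ReflTransGen.refl
  | @tail b c h1 h2 ih =>
    refine ih.tail ?_
    obtain ⟨e, he, h3, h4, _, _⟩ := h2
    exact ⟨e, he, h3, h4, (hA b).2 h1, (hA c).2 (h1.tail ⟨e, he, h3, h4, mem_univ _, mem_univ _⟩)⟩

/-- two orientations give an element the same two ends. -/
theorem dj_ends (o o' : Orientation H) (e : I) :
    (o'.tail e = o.tail e ∧ o'.head e = o.head e) ∨
      (o'.tail e = o.head e ∧ o'.head e = o.tail e) := by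
  rcases o.ok e with ⟨h1, h2⟩ | ⟨_, h1, h2⟩ <;> rcases o'.ok e with ⟨h3, h4⟩ | ⟨_, h3, h4⟩
  · exact Or.inl ⟨h3.trans h1.symm, h4.trans h2.symm⟩
  · exact Or.inr ⟨h3.trans h2.symm, h4.trans h1.symm⟩
  · exact Or.inr ⟨h3.trans h2.symm, h4.trans h1.symm⟩
  · exact Or.inl ⟨h3.trans h1.symm, h4.trans h2.symm⟩

end

theorem sDisj (hSB : SBet) (hN : SNF1) (hY : SY0) (hX : SExtF) (hEn : SEntry) (hE : SEsc)
    (hL : SL3) (hT : STerm) : SDisj := by
  classical
  intro V I _ _ _ _ H s o u R F v B g hC hM hK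
  have hSol := hM.1.sol
  have hP := sSolP' hSol
  have htok := hSol.1
  have hvR := hM.1.vR
  set M := Dsc o F v with hMdef
  have hMm : ∀ x, x ∈ M ↔ Rch o F v x := fun x => mem_Dsc
  have huM : u ∉ M := hL V I H s o u R F v hC hM
  have hMB : M \ B ⊆ Y0 H := hT V I H s o u R F v B g hC hM hK
  have hRM : ∀ x ∈ R, x ∈ M → x = v := by
    intro x hx hxM
    exact (hP.fO v hvR x hx x ((hMm x).1 hxM) ReflTransGen.refl).symm
  have hvM : v ∈ M := (hMm v).2 ReflTransGen.refl
  obtain ⟨w, hwR, hwu⟩ := hSol.2.1 u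
  have hwv : w ≠ v := by
    intro h
    exact huM ((hMm u).2 (h ▸ hwu))
  have hfea : Fea H R := (sFea' htok).2 (fun x => rch_mono (subset_univ _) (hSol.2.2 x))
  have huR : u ∉ R := by
    intro h
    exact hN V I H s o u R u u hC htok hfea h ReflTransGen.refl ReflTransGen.refl
  have hwu' : w ≠ u := fun h => huR (h ▸ hwR)
  set S' : Finset V := insert u (R.erase w) with hS'
  have htok' : Tok o w S' := by
    intro x
    have h1 := htok x
    have e1 : (x ∈ S') ↔ (x = u ∨ (x ≠ w ∧ x ∈ R)) := by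
      rw [hS', mem_insert, mem_erase]
    by_cases hxu : x = u
    · have : x ∉ R := hxu ▸ huR
      have h2 : x ≠ w := fun h => hwu' (h.symm.trans hxu)
      have h3 : x ∈ S' := e1.2 (Or.inl hxu)
      rw [if_pos hxu, if_neg this] at h1
      rw [if_neg h2, if_pos h3]
      omega
    · by_cases hxw : x = w
      · have h3 : x ∉ S' := by
          rw [e1]
          rintro (h | h)
          · exact hxu h
          · exact h.1 hxw
        rw [if_neg hxu, if_pos (hxw ▸ hwR)] at h1
        rw [if_pos hxw, if_neg h3]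
        omega
      · rw [if_neg hxu] at h1
        rw [if_neg hxw]
        by_cases hxR : x ∈ R
        · rw [if_pos hxR] at h1
          rw [if_pos (e1.2 (Or.inr ⟨hxw, hxR⟩))]
          omega
        · have h3 : x ∉ S' := by
            rw [e1]
            rintro (h | h)
            · exact hxu h
            · exact hxR h.2
          rw [if_neg hxR] at h1
          rw [if_neg h3]
          omega
  have hfea' : Fea H S' := by
    refine (sFea' htok').2 (fun x => ?_)
    exact (rch_mono (subset_univ _) hwu).trans (rch_mono (subset_univ _) (hSol.2.2 x))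
  have huS' : u ∈ S' := mem_insert_self _ _
  -- `u` is not reached from `w` by undirected elements
  have hAu : ¬ ERch o univ w u := by
    intro h
    exact hN V I H s o w S' u u hC htok' hfea' huS' h ReflTransGen.refl
  have hy0 : ∀ x, x ∈ Y0 H ↔ ¬ ERch o univ u x ∧ ∀ w ∈ R, ¬ ERch o univ w x :=
    hY V I H s o u R hC htok
  have hy0' : ∀ x, x ∈ Y0 H ↔ ¬ ERch o univ w x ∧ ∀ w ∈ S', ¬ ERch o univ w x :=
    hY V I H s o w S' hC htok'
  have huY : u ∉ Y0 H := fun h => ((hy0 u).1 h).1 ReflTransGen.refl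
  obtain ⟨a, b, hAa, hA'b, hwa, hab, hbu, hbet⟩ := hSB V (stepRel o.tail o.head F)
    (fun x => ERch o univ w x) (fun x => ¬ ERch o univ w x ∧ x ∉ Y0 H) hP.fA w u hwu
    ReflTransGen.refl ⟨hAu, huY⟩
  obtain ⟨hbA, hbY⟩ := hA'b
  have hbne : b ≠ a := fun h => hbA (h ▸ hAa)
  have hbet' : ∀ z, Rch o F a z → Rch o F z b → z = a ∨ z = b ∨ z ∈ Y0 H := by
    intro z h1 h2
    by_cases hza : z = a
    · exact Or.inl hza
    by_cases hzb : z = b
    · exact Or.inr (Or.inl hzb)
    obtain ⟨h3, h4⟩ := hbet z h1 h2 hza hzb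
    right; right
    by_contra h5
    exact h4 ⟨h3, h5⟩
  -- the token that reaches `b`
  have hex : ∃ l ∈ S', ERch o univ l b ∧ (b ∈ S' → l = b) := by
    by_cases hb : b ∈ S'
    · exact ⟨b, hb, ReflTransGen.refl, fun _ => rfl⟩
    · by_contra hcon
      apply hbY
      rw [hy0']
      refine ⟨hbA, fun l hl h => hcon ⟨l, hl, h, fun h' => absurd h' hb⟩⟩
  obtain ⟨l, hlS, hlb, hbl⟩ := hex
  have hber : b ∉ S'.erase l := by
    intro h
    rw [mem_erase] at h
    exact h.1 (hbl h.2).symm
  set Bj : Finset V := univ.filter (fun y => ERch o univ w y) with hBj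
  set Bl : Finset V := univ.filter (fun y => ERch o univ l y) with hBl
  have hBjm : ∀ y, y ∈ Bj ↔ ERch o univ w y := by intro y; simp [hBj]
  have hBlm : ∀ y, y ∈ Bl ↔ ERch o univ l y := by intro y; simp [hBl]
  obtain ⟨o', F', hSol', hag, hanc', hlast⟩ := hX V I H s o u R F w l a b Bj Bl hC hSol hwR huR
    hwu hlS hber (fun x hx => (hBjm x).1 hx) (fun x hx => (hBlm x).1 hx)
    (dj_own hBjm hAa) (dj_own hBlm hlb) hab hbet'
  set R'' : Finset V := insert b (S'.erase l) with hR''
  -- positions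
  have hFw : ∀ x, Rch o F w x → x ∉ M := by
    intro x hx hxM
    exact hwv (hP.fO w hwR v hvR x hx ((hMm x).1 hxM))
  have haM : a ∉ M := hFw a hwa
  have hbM : b ∉ M := hFw b (hwa.trans hab)
  have hBjM : ∀ y ∈ Bj, y ∉ M := by
    intro y hy hyM
    have h1 := hE V I H s o u R F v o u R w y hC hM (fun e _ => ⟨rfl, rfl⟩) htok (Or.inr hwR)
      ((hBjm y).1 hy) hyM
    exact hwv (hRM w hwR h1.1)
  refine ⟨o', a, R'', F', b, ⟨hSol', mem_insert_self _ _, hbne, fun y hy => by
    rcases hanc' y hy with h | h | h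
    · exact Or.inr (Or.inl h)
    · exact Or.inl h
    · exact Or.inr (Or.inr h)⟩, ?_⟩
  rw [disjoint_left]
  intro x hx' hxM
  rw [mem_Dsc, hlast] at hx'
  apply hx'
  clear hx'
  -- elements of the path are far from `M`
  have hPthM : ∀ e, e ∈ Pth o F a b → o.tail e ∉ M ∧ o.head e ∉ M := by
    intro e he
    obtain ⟨h1, h2, h3⟩ := mem_Pth.1 he
    exact ⟨hFw _ (hwa.trans h2), hFw _ ((hwa.trans h2).tail ⟨e, h1, rfl, rfl⟩)⟩
  set Q : Finset I := (univ \ Pth o F a b).filter (fun e => o'.tail e ≠ b) with hQ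
  have hQm : ∀ e, e ∈ Q ↔ e ∉ Pth o F a b ∧ o'.tail e ≠ b := by
    intro e
    rw [hQ, mem_filter, mem_sdiff]
    simp
  by_cases hlv : l = v
  · -- the case `l = v`
    subst hlv
    have hul : u ≠ l := fun h => hM.1.vu h.symm
    have hur : u ∈ S'.erase l := mem_erase.2 ⟨hul, huS'⟩
    have hYBj : ∀ y ∈ Y0 H, y ∉ Bj := fun y hy h => ((hy0 y).1 hy).2 w hwR ((hBjm y).1 h)
    have hYBl : ∀ y ∈ Y0 H, y ∉ Bl := fun y hy h => ((hy0 y).1 hy).2 l hvR ((hBlm y).1 h)
    have huBl : u ∉ Bl := fun h =>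
      hN V I H s o u R l u hC htok hfea hvR ReflTransGen.refl ((hBlm u).1 h)
    have hbu' : b ≠ u := fun h => huBl (h ▸ (hBlm b).2 hlb)
    have hgM : o.head g ∈ M := hK.sub hK.gh
    have hgF : g ∉ F := (hEn V I H s o u R F l hC hM g hK.gt hgM).1
    have hgT : g ∈ univ \ F := mem_sdiff.2 ⟨mem_univ _, hgF⟩
    have htgl : Rch o (univ \ F) (o.tail g) l :=
      ReflTransGen.head ⟨g, hgT, rfl, rfl⟩ hK.anc
    -- ancestors of the tail of `g`
    have hanc : ∀ y, Rch o (univ \ F) y (o.tail g) → y = u ∨ y ∈ Y0 H := by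
      intro y hy
      rcases hM.1.anc y (hy.trans htgl) with h | h | h
      · subst h
        have := hP.tA _ _ hy htgl
        exact absurd hvM (this ▸ hK.gt)
      · exact Or.inl h
      · exact Or.inr h
    have hreach : ∀ y, Rch o (univ \ F) y (o.tail g) → Rch o' Q u y := by
      intro y hy
      refine rch_of (hSol.2.2 y) ?_
      intro e he h1 h2
      have heF : e ∉ F := (mem_sdiff.1 he).2
      have hh : o.head e ∈ Y0 H := by
        rcases hanc _ (h2.trans hy) with h | h
        · exact absurd h (hP.tR e heF)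
        · exact h
      have ht : o.tail e = u ∨ o.tail e ∈ Y0 H :=
        hanc _ (ReflTransGen.head ⟨e, he, rfl, rfl⟩ (h2.trans hy))
      obtain ⟨h3, h4⟩ := hag e (fun h => hYBj _ hh h.2) (fun h => hYBl _ hh h.2)
      refine ⟨(hQm e).2 ⟨fun h => heF (mem_Pth.1 h).1, ?_⟩, h3, h4⟩
      rw [h3]
      rcases ht with h | h
      · exact fun h' => hbu' (h'.symm.trans h)
      · exact fun h' => hbY (h' ▸ h)
    have hMBr : ∀ y ∈ M \ B, Rch o' Q u y := by
      intro y hy
      obtain ⟨e, he1, he2, he3⟩ := hK.rl y hy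
      refine (hreach _ (hK.ord e he1 he2)).trans (rch_of he3 ?_)
      intro e' he' _ _
      obtain ⟨h1, h2⟩ := mem_ins.1 he'
      obtain ⟨h3, h4⟩ := hag e' (fun h => hYBj _ (hMB h1) h.1) (fun h => hYBl _ (hMB h1) h.1)
      have h1M : o.tail e' ∈ M := (mem_sdiff.1 h1).1
      refine ⟨(hQm e').2 ⟨fun h => (hPthM e' h).1 h1M, ?_⟩, h3, h4⟩
      rw [h3]
      exact fun h' => hbM (h' ▸ h1M)
    have hgBl : o.tail g ∉ Bl := by
      rcases hanc _ ReflTransGen.refl with h | h
      · exact h ▸ huBl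
      · exact hYBl _ h
    obtain ⟨hg3, hg4⟩ := hag g (fun h => hBjM _ h.2 hgM) (fun h => hgBl h.1)
    have hgQ : g ∈ Q := by
      refine (hQm g).2 ⟨fun h => hgF (mem_Pth.1 h).1, ?_⟩
      rw [hg3]
      rcases hanc _ ReflTransGen.refl with h | h
      · exact fun h' => hbu' (h'.symm.trans h)
      · exact fun h' => hbY (h' ▸ h)
    have hgr : Rch o' Q u (o.head g) :=
      (hreach _ ReflTransGen.refl).tail ⟨g, hgQ, hg3, hg4⟩
    -- the part of `B` that is not reached
    set Z : Finset V := B.filter (fun y => ¬ Rch o' Q u y) with hZ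
    have hZm : ∀ y, y ∈ Z ↔ y ∈ B ∧ ¬ Rch o' Q u y := by intro y; rw [hZ, mem_filter]
    have hZe : ¬ Z.Nonempty := by
      intro hZn
      have hZB : Z ⊆ B := filter_subset _ _
      have hcount : ∀ X : Finset V, X ⊆ M →
          din o'.tail o'.head univ X + inner H X = 2 * X.card := by
        intro X hXM
        have h1 := sCnt' hSol'.1 X
        have h2 : a ∉ X := fun h => haM (hXM h)
        have h3 : R'' ∩ X = ∅ := by
          rw [eq_empty_iff_forall_notMem]
          intro y hy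
          obtain ⟨hy1, hy2⟩ := mem_inter.1 hy
          rw [hR'', mem_insert, mem_erase, hS', mem_insert, mem_erase] at hy1
          have hyM := hXM hy2
          rcases hy1 with h | ⟨h4, h5 | h5⟩
          · exact hbM (h ▸ hyM)
          · exact huM (h5 ▸ hyM)
          · exact h4 (hRM y h5.2 hyM)
        rw [if_neg h2, h3, card_empty] at h1
        omega
      have hB2 : din o'.tail o'.head univ B = 2 := by
        have h1 := hcount B hK.sub
        have h2 := hK.zero
        omega
      have hZ2 : 2 ≤ din o'.tail o'.head univ Z := by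
        have h1 := hcount Z (hZB.trans hK.sub)
        have h2 := hC.be Z hZn
        omega
      have hsub : univ.filter (fun e => o'.tail e ∉ Z ∧ o'.head e ∈ Z) ⊆
          univ.filter (fun e => o'.tail e ∉ B ∧ o'.head e ∈ B) := by
        intro e he
        rw [mem_filter] at he ⊢
        obtain ⟨_, h1, h2⟩ := he
        refine ⟨mem_univ _, ?_, hZB h2⟩
        intro h3
        have h4 : Rch o' Q u (o'.tail e) := by
          by_contra h4
          exact h1 ((hZm _).2 ⟨h3, h4⟩)
        apply ((hZm _).1 h2).2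
        refine h4.tail ⟨e, (hQm e).2 ⟨?_, ?_⟩, rfl, rfl⟩
        · intro h5
          obtain ⟨h6, h7⟩ := hPthM e h5
          have h8 : o'.tail e ∈ M := hK.sub h3
          rcases dj_ends o o' e with ⟨h9, _⟩ | ⟨h9, _⟩
          · exact h6 (h9 ▸ h8)
          · exact h7 (h9 ▸ h8)
        · exact fun h5 => hbM (h5 ▸ hK.sub h3)
      have heq := eq_of_subset_of_card_le hsub (by
        unfold din at hB2 hZ2
        omega)
      have hgin : g ∈ univ.filter (fun e => o'.tail e ∉ B ∧ o'.head e ∈ B) := by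
        rw [mem_filter, hg3, hg4]
        exact ⟨mem_univ _, fun h => hK.gt (hK.sub h), hK.gh⟩
      rw [← heq, mem_filter, hg4] at hgin
      exact ((hZm _).1 hgin.2.2).2 hgr
    refine ⟨u, hur, ?_⟩
    by_cases hxB : x ∈ B
    · by_contra h
      exact hZe ⟨x, (hZm x).2 ⟨hxB, h⟩⟩
    · exact hMBr x (mem_sdiff.2 ⟨hxM, hxB⟩)
  · -- the case `l ≠ v`
    have hBlM : ∀ y ∈ Bl, y ∉ M := by
      intro y hy hyM
      have hl : l = u ∨ l ∈ R := by
        rw [hS', mem_insert, mem_erase] at hlS
        rcases hlS with h | h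
        · exact Or.inl h
        · exact Or.inr h.2
      have h1 := hE V I H s o u R F v o u R l y hC hM (fun e _ => ⟨rfl, rfl⟩) htok hl
        ((hBlm y).1 hy) hyM
      rcases hl with h | h
      · exact huM (h ▸ h1.1)
      · exact hlv (hRM l h h1.1)
    refine ⟨v, mem_erase.2 ⟨fun h => hlv h.symm, mem_insert_of_mem
      (mem_erase.2 ⟨fun h => hwv h.symm, hvR⟩)⟩, ?_⟩
    refine rch_of ((hMm x).1 hxM) ?_
    intro e he h1 h2
    have htM : o.tail e ∈ M := (hMm _).2 h1
    have hhM : o.head e ∈ M := (hMm _).2 (h1.tail ⟨e, he, rfl, rfl⟩)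
    obtain ⟨h3, h4⟩ := hag e (fun h => hBjM _ h.2 hhM) (fun h => hBlM _ h.2 hhM)
    refine ⟨(hQm e).2 ⟨fun h => (hPthM e h).1 htM, ?_⟩, h3, h4⟩
    rw [h3]
    exact fun h => hbM (h ▸ htM)

end ARB.KS
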