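import Pool.Agent.H46.ARB1.Core

/-!
# ARB1, row R15b: the final count
-/

set_option autoImplicit false
set_option linter.unusedSectionVars false

namespace ARB.KS

open Finset Relation

theorem sEnd (hY0c : SY0c) (hInit : SInit) (hMin : SMin) (hCore : SCore) (hTerm : STerm)
    (hDisj : SDisj) : SEnd := by
  classical
  intro V I _ _ _ _ H s o0 u0 R0 F0 hC hs0
  obtain ⟨oa, ua, Ra, Fa, va, hTa⟩ := hInit V I H s o0 u0 R0 F0 hC hs0
  obtain ⟨o, u, R, F, v, hT, -⟩ := hMin V I H oa ua Ra Fa va hTa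
  obtain ⟨B, g, hK⟩ := hCore V I H s o u R F v hC hT
  obtain ⟨ob, ub, Rb, Fb, vb, hTb, hdis⟩ := hDisj V I H s o u R F v B g hC hT hK
  obtain ⟨o', u', R', F', v', hT', hsub⟩ := hMin V I H ob ub Rb Fb vb hTb
  obtain ⟨B', g', hK'⟩ := hCore V I H s o' u' R' F' v' hC hT'
  have h1 := hTerm V I H s o u R F v B g hC hT hK
  have h2 := hTerm V I H s o' u' R' F' v' B' g' hC hT' hK'
  have h3 : Disjoint (Dsc o' F' v') (Dsc o F v) := hdis.mono_left hsub
  have hBB : Disjoint B B' := (h3.mono hK'.sub hK.sub).symm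
  have h4 := hC.z2 B B' ⟨v, hK.vB⟩ ⟨v', hK'.vB⟩ hBB hK.zero hK'.zero
  have h5 : (Dsc o F v \ B).card + (Dsc o' F' v' \ B').card ≤ (Y0 H).card := by
    rw [← card_union_of_disjoint ((h3.mono sdiff_subset sdiff_subset).symm)]
    exact card_le_card (union_subset h1 h2)
  have h6 := (hY0c V I H s o0 u0 R0 hC hs0.1).2
  have h7 := hC.ng o u R F v hT.1.sol hT.1.vR
  have h8 := hC.ng o' u' R' F' v' hT'.1.sol hT'.1.vR
  have h9 := card_sdiff_add_card_eq_card hK.sub
  have h10 := card_sdiff_add_card_eq_card hK'.sub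
  omega

end ARB.KS
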