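import Pool.Agent.H46.ARB1.Cnt

/-!
# ARB1, rows R9a-R9d: tuples exist, minimal tuples, entries of `Dsc`
-/

set_option autoImplicit false
set_option linter.unusedSectionVars false

namespace ARB.KS

open Finset Relation

section

variable {V I : Type} [Fintype V] [DecidableEq V] [Fintype I] [DecidableEq I]
  {H : MixedGraph V I}

/-- an undirected walk stays in the set of vertices that it reaches. -/
theorem erch_filter {o : Orientation H} {x y : V} {B : Finset V}
    (hB : ∀ z, ERch o univ x z → z ∈ B) (h : ERch o univ x y) : ERch o B x y := by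
  induction h with
  | refl => exact ReflTransGen.refl
  | @tail b c h1 h2 ih =>
    obtain ⟨e, he, h3, h4, _, _⟩ := h2
    refine ih.tail ⟨e, he, h3, h4, hB b h1, hB c (h1.tail ⟨e, he, h3, h4, ?_, ?_⟩)⟩
    · exact mem_univ _
    · exact mem_univ _

/-- an element that is not inside `M` in one orientation is not inside `M` in the other. -/
theorem not_ins_of {o o1 : Orientation H} {M : Finset V} {e : I}
    (h : ¬ (o1.tail e ∈ M ∧ o1.head e ∈ M)) : ¬ (o.tail e ∈ M ∧ o.head e ∈ M) := by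
  rintro ⟨h1, h2⟩
  apply h
  rcases o.ok e with ⟨a1, a2⟩ | ⟨_, a1, a2⟩ <;> rcases o1.ok e with ⟨b1, b2⟩ | ⟨_, b1, b2⟩ <;>
    rw [b1, b2] <;> rw [a1] at h1 <;> rw [a2] at h2 <;> constructor <;> assumption

end

theorem sInit (h2 : SBet) (h6 : SNF1) (h7 : SY0) (h7c : SY0c) (h8 : SExtT) : SInit := by
  classical
  intro V I _ _ _ _ H s o u R F hC hS
  have hT : Tok o u R := hS.1
  have hF : Fea H R := (sFea' hT).2 (fun x =>
    rch_mono (subset_univ _) (hS.2.2 x))
  have hP := sSolP' hS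
  have huR : u ∉ R := fun h => h6 V I H s o u R u u hC hT hF h ReflTransGen.refl ReflTransGen.refl
  obtain ⟨hc, _⟩ := h7c V I H s o u R hC hT
  obtain ⟨w, hw⟩ : R.Nonempty := card_pos.1 (by omega)
  have hAw : ¬ ERch o univ u w := fun h =>
    h6 V I H s o u R w w hC hT hF hw h ReflTransGen.refl
  have hY : ∀ x, x ∈ Y0 H ↔ ¬ ERch o univ u x ∧ ∀ w ∈ R, ¬ ERch o univ w x :=
    h7 V I H s o u R hC hT
  have hwY : w ∉ Y0 H := fun h => ((hY w).1 h).2 w hw ReflTransGen.refl
  obtain ⟨a, b, ha, hb, _, hab, _, hz⟩ := h2 V (stepRel o.tail o.head (univ \ F))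
    (fun x => ERch o univ u x) (fun x => ¬ ERch o univ u x ∧ x ∉ Y0 H) hP.tA u w (hS.2.2 w)
    ReflTransGen.refl ⟨hAw, hwY⟩
  have hl : ∃ l ∈ R, ERch o univ l b ∧ b ∉ R.erase l := by
    by_cases hbR : b ∈ R
    · exact ⟨b, hbR, ReflTransGen.refl, notMem_erase b R⟩
    · by_contra hcon
      push Not at hcon
      apply hb.2
      rw [hY]
      refine ⟨hb.1, fun w hw h => ?_⟩
      exact hbR (mem_of_mem_erase (hcon w hw h))
  obtain ⟨l, hlR, hlb, hbl⟩ := hl
  obtain ⟨o', F', h9, _, h10, _⟩ := h8 V I H s o u R F l a b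
    (univ.filter (fun x => ERch o univ u x)) (univ.filter (fun x => ERch o univ l x)) hC hS hlR hbl
    (fun x hx => (mem_filter.1 hx).2) (fun x hx => (mem_filter.1 hx).2)
    (erch_filter (fun z hz => mem_filter.2 ⟨mem_univ _, hz⟩) ha)
    (erch_filter (fun z hz => mem_filter.2 ⟨mem_univ _, hz⟩) hlb) hab
    (fun z h1 h2 => by
      by_contra hcon
      push Not at hcon
      have := hz z h1 h2 hcon.1 hcon.2.1
      exact this.2 ⟨this.1, hcon.2.2⟩)
  refine ⟨o', a, insert b (R.erase l), F', b, h9, mem_insert_self _ _, ?_, ?_⟩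
  · rintro rfl
    exact hb.1 ha
  · intro x hx
    rcases h10 x hx with h | h | h
    · exact Or.inr (Or.inl h)
    · exact Or.inl h
    · exact Or.inr (Or.inr h)

theorem sMin : SMin := by
  classical
  intro V I _ _ _ _ H o u R F v h
  obtain ⟨n, hn⟩ : ∃ n, (Dsc o F v).card = n := ⟨_, rfl⟩
  induction n using Nat.strong_induction_on generalizing o u R F v with
  | _ n ih =>
    by_cases hm : MinT o u R F v
    · exact ⟨o, u, R, F, v, hm, Subset.refl _⟩
    · have : ∃ (o' : Orientation H) (u' : V) (R' : Finset V) (F' : Finset I) (v' : V),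
          Tup o' u' R' F' v' ∧ Dsc o' F' v' ⊆ Dsc o F v ∧ Dsc o' F' v' ≠ Dsc o F v := by
        by_contra hcon
        push Not at hcon
        exact hm ⟨h, hcon⟩
      obtain ⟨o', u', R', F', v', h1, h2, h3⟩ := this
      have h4 : (Dsc o' F' v').card < n := by
        rw [← hn]
        exact card_lt_card (HasSubset.Subset.ssubset_of_ne h2 h3)
      obtain ⟨o2, u2, R2, F2, v2, h5, h6⟩ := ih _ h4 o' u' R' F' v' h1 rfl
      exact ⟨o2, u2, R2, F2, v2, h5, h6.trans h2⟩

theorem sEntry (h4 : SF2) : SEntry := by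
  classical
  intro V I _ _ _ _ H s o u R F v hC hM e het heh
  obtain ⟨⟨hS, hvR, hvu, hanc⟩, hmin⟩ := hM
  have hT : Tok o u R := hS.1
  have hF : Fea H R := (sFea' hT).2 (fun x => rch_mono (subset_univ _) (hS.2.2 x))
  have hP := sSolP' hS
  rw [mem_Dsc] at het heh
  have heF : e ∉ F := by
    intro heF
    rcases ReflTransGen.cases_tail heh with h | ⟨y, h1, e', he', h2, h3⟩
    · exact hP.fR e heF (by rw [h]; exact hvR)
    · have := hP.fU e heF e' he' h3.symm
      subst this
      rw [h2] at het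
      exact het h1
  refine ⟨heF, ?_⟩
  by_contra hcon
  set P : Finset I := (univ \ F).filter (fun e => Rch o (univ \ F) (o.head e) v) with hPdef
  set U : Finset V := univ.filter (fun x => Rch o (univ \ F) x v) with hUdef
  have memP : ∀ e, e ∈ P ↔ e ∉ F ∧ Rch o (univ \ F) (o.head e) v := by
    intro e
    simp [hPdef]
  have memU : ∀ x, x ∈ U ↔ Rch o (univ \ F) x v := by
    intro x
    simp [hUdef]
  have hUr : ∀ x ∈ U, Rch o P u x := by
    intro x hx
    rw [memU] at hx
    refine rch_of (hS.2.2 x) ?_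
    intro e' he' _ h2
    exact ⟨(memP e').2 ⟨(mem_sdiff.1 he').2, h2.trans hx⟩, rfl, rfl⟩
  have hFP : F ⊆ univ \ P := by
    intro e' he'
    rw [mem_sdiff]
    exact ⟨mem_univ _, fun h => ((memP e').1 h).1 he'⟩
  obtain ⟨F', hS', hd, hr⟩ := h4 V I H o u R v P U hC.be hT hF hvR ((memU u).2 (hS.2.2 v))
    ((memU v).2 ReflTransGen.refl) (fun e' he' => (memU _).2 ((memP e').1 he').2) hUr
    (fun x => by
      obtain ⟨r, hr, h1⟩ := hS.2.1 x
      exact ⟨r, hr, rch_mono hFP h1⟩)
  have hP' := sSolP' hS'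
  have hout : ∀ x, ¬ Rch o F v x →
      ∃ r ∈ R.erase v, Rch o ((univ \ P).filter (fun e => o.tail e ≠ v)) r x := by
    intro x hx
    obtain ⟨r, hr, h1⟩ := hS.2.1 x
    refine ⟨r, mem_erase.2 ⟨?_, hr⟩, ?_⟩
    · rintro rfl
      exact hx h1
    · refine rch_of h1 ?_
      intro e' he' h2 h3
      refine ⟨mem_filter.2 ⟨hFP he', ?_⟩, rfl, rfl⟩
      intro h4
      apply hx
      rw [← h4]
      exact ReflTransGen.head ⟨e', he', rfl, rfl⟩ h3
  have hsub : Dsc o F' v ⊆ Dsc o F v := by
    intro x hx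
    rw [mem_Dsc] at hx ⊢
    by_contra hcon2
    exact (hr x).1 hx (hout x hcon2)
  have hnot : o.head e ∉ Dsc o F' v := by
    rw [mem_Dsc]
    intro hx
    apply (hr _).1 hx
    obtain ⟨r, hr1, h1⟩ := hout _ het
    refine ⟨r, hr1, h1.tail ⟨e, mem_filter.2 ⟨?_, ?_⟩, rfl, rfl⟩⟩
    · rw [mem_sdiff]
      exact ⟨mem_univ _, fun h => hcon ((memP e).1 h).2⟩
    · rintro h5
      apply het
      rw [h5]
  have hancU : ∀ x, Rch o (univ \ F') x v → x ∈ U := by
    intro x hx
    induction hx using ReflTransGen.head_induction_on with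
    | refl => exact (memU v).2 ReflTransGen.refl
    | @head a c h1 _ ih =>
      obtain ⟨e', he', h3, h5⟩ := h1
      have h6 : c ≠ u := by
        rintro rfl
        exact hP'.tR e' (mem_sdiff.1 he').2 h5
      rcases ReflTransGen.cases_tail (hUr c ih) with h7 | ⟨y, _, e2, he2, h8, h9⟩
      · exact absurd h7 h6
      · have h10 : e2 ∉ F' := fun h => disjoint_left.1 hd he2 h
        have := hP'.tU e' (mem_sdiff.1 he').2 e2 h10 (h5.trans h9.symm)
        subst this
        have h11 := (memP e').1 he2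
        rw [memU, ← h3]
        exact ReflTransGen.head ⟨e', mem_sdiff.2 ⟨mem_univ _, h11.1⟩, rfl, rfl⟩ h11.2
  have htup : Tup o u R F' v := ⟨hS', hvR, hvu, fun x hx => hanc x ((memU x).1 (hancU x hx))⟩
  have heq := hmin o u R F' v htup hsub
  rw [heq, mem_Dsc] at hnot
  exact hnot heh

theorem sEsc (h6 : SNF1) (h7 : SY0) (h9 : SEntry) : SEsc := by
  classical
  intro V I _ _ _ _ H s o u R F v o1 u1 R1 x y hC hM hA hT1 hx hxy hy
  have hS : Sol o u R F := hM.1.sol
  have hT : Tok o u R := hS.1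
  have hF : Fea H R := (sFea' hT).2 (fun x => rch_mono (subset_univ _) (hS.2.2 x))
  have hP := sSolP' hS
  have hY := h7 V I H s o u R hC hT
  have hY1 := h7 V I H s o1 u1 R1 hC hT1
  -- no undirected element reached from `x` enters `Dsc`
  have key : ∀ f, H.isEdge f = true → ERch o1 univ x (o1.tail f) → o1.head f ∈ Dsc o F v →
      o1.tail f ∈ Dsc o F v := by
    intro f hf hxf hh
    by_contra ht
    have h1 : ¬ (o.tail f ∈ Dsc o F v ∧ o.head f ∈ Dsc o F v) :=
      not_ins_of (o := o) (o1 := o1) (fun h => ht h.1)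
    obtain ⟨h2, h3⟩ := hA f h1
    rw [h2] at ht
    rw [h3] at hh
    obtain ⟨h4, h5⟩ := h9 V I H s o u R F v hC hM f ht hh
    have h10 : Rch o (univ \ F) (o.tail f) v :=
      ReflTransGen.head ⟨f, mem_sdiff.2 ⟨mem_univ _, h4⟩, rfl, rfl⟩ h5
    rcases hM.1.anc _ h10 with h | h | h
    · apply ht
      rw [h, mem_Dsc]
    · have hE : ERch o univ u (o.head f) := by
        rw [← h]
        exact ReflTransGen.single ⟨f, hf, rfl, rfl, mem_univ _, mem_univ _⟩
      rcases hM.1.anc _ h5 with h' | h' | h'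
      · rw [h'] at hE
        exact h6 V I H s o u R v v hC hT hF hM.1.vR hE ReflTransGen.refl
      · exact hP.tR f h4 h'
      · exact ((hY _).1 h').1 hE
    · rw [← h2] at h
      have h11 := (hY1 _).1 h
      rcases hx with rfl | hx
      · exact h11.1 hxf
      · exact h11.2 x hx hxf
  have main : ∀ z, ERch o1 univ x z → ERch o1 univ z y → z ∈ Dsc o F v ∧ ERch o1 (Dsc o F v) z y := by
    intro z hxz hzy
    induction hzy using ReflTransGen.head_induction_on with
    | refl => exact ⟨hy, ReflTransGen.refl⟩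
    | @head a c h1 _ ih =>
      obtain ⟨e, he, h3, h4, h5, h6'⟩ := h1
      obtain ⟨h7', h8⟩ := ih (hxz.tail ⟨e, he, h3, h4, h5, h6'⟩)
      have ha : a ∈ Dsc o F v := by
        rw [← h3]
        apply key e he
        · rw [h3]
          exact hxz
        · rw [h4]
          exact h7'
      exact ⟨ha, ReflTransGen.head ⟨e, he, h3, h4, ha, h7'⟩ h8⟩
  exact main x ReflTransGen.refl hxy

end ARB.KS
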