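import Pool.Agent.H46.ARB1.Cnt

/-!
# ARB1, row R8a (`SExt`): extraction, general form
-/

set_option autoImplicit false
set_option linter.unusedSectionVars false

namespace ARB.KS

open Finset Relation

section

variable {V I : Type} [Fintype V] [DecidableEq V] [Fintype I] [DecidableEq I]
  {H : MixedGraph V I}

theorem xa_erch_univ {o : Orientation H} {B : Finset V} {x y : V} (h : ERch o B x y) :
    ERch o univ x y :=
  k1_mono (fun _ _ ⟨e, h1, h2, h3, _, _⟩ => ⟨e, h1, h2, h3, mem_univ _, mem_univ _⟩) h

end

/-- R8a. -/
theorem sExt (hMT : SMvT) (hMF : SMvF) (hNF1 : SNF1) (hY0 : SY0) (hF2 : SF2) : SExt := by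
  classical
  intro V I _ _ _ _ H s o j S l a b Bj Bl U P hC hTok hFea hl hb hBj hBl hja hlb haU hbU hP hPr
    hU hcount
  -- the two undirected reaches are disjoint
  have hdis : ∀ z, ERch o univ j z → ERch o univ l z → False := fun z h1 h2 =>
    hNF1 V I H s o j S l z hC hTok hFea hl h1 h2
  have hY := hY0 V I H s o j S hC hTok
  have haj : ERch o univ j a := xa_erch_univ hja
  have hbl : ERch o univ l b := xa_erch_univ hlb
  have hUj : ∀ x ∈ U, ERch o univ j x → x = a := by
    intro x hx h1
    rcases hU x hx with h | h | h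
    · exact h
    · subst h
      exact absurd hbl (fun h2 => hdis _ h1 h2)
    · exact absurd h1 ((hY x).1 h).1
  have hUl : ∀ x ∈ U, ERch o univ l x → x = b := by
    intro x hx h1
    rcases hU x hx with h | h | h
    · subst h
      exact absurd h1 (fun h2 => hdis _ haj h2)
    · exact h
    · exact absurd h1 (((hY x).1 h).2 l hl)
  -- move `j` to `a`
  obtain ⟨o1, hA1, hT1⟩ := hMT V I H o j S a Bj hTok hja
  -- the path from `l` to `b` is still there
  have hlb1 : ERch o1 Bl l b := by
    refine k1_mono ?_ hlb
    rintro x y ⟨e, h1, h2, h3, h4, h5⟩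
    have h6 := hA1 e (fun h => hdis _ (hBj _ h.1) (by rw [h2]; exact hBl _ h4))
    exact ⟨e, h1, by rw [h6.1, h2], by rw [h6.2, h3], h4, h5⟩
  -- move `l` to `b`
  obtain ⟨o2, hA2, hT2⟩ := hMF V I H o1 a S l b Bl hT1 hl hb hlb1
  have hA : ∀ e, ¬ (o.tail e ∈ Bj ∧ o.head e ∈ Bj) → ¬ (o.tail e ∈ Bl ∧ o.head e ∈ Bl) →
      o2.tail e = o.tail e ∧ o2.head e = o.head e := by
    intro e h1 h2
    have h3 := hA1 e h1
    have h4 := hA2 e (by rw [h3.1, h3.2]; exact h2)
    exact ⟨h4.1.trans h3.1, h4.2.trans h3.2⟩
  -- elements of `P` are not inside `Bj`, `Bl`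
  have hPj : ∀ e ∈ P, ¬ (o.tail e ∈ Bj ∧ o.head e ∈ Bj) := by
    intro e he h
    exact (hP e he).2.2.1 (hUj _ (hP e he).2.1 (hBj _ h.2))
  have hPl : ∀ e ∈ P, ¬ (o.tail e ∈ Bl ∧ o.head e ∈ Bl) := by
    intro e he h
    exact (hP e he).2.2.2 (hUl _ (hP e he).1 (hBl _ h.1))
  have hP1 : ∀ e ∈ P, o1.tail e = o.tail e ∧ o1.head e = o.head e := fun e he =>
    hA1 e (hPj e he)
  have hP2 : ∀ e ∈ P, o2.tail e = o.tail e ∧ o2.head e = o.head e := fun e he =>
    hA e (hPj e he) (hPl e he)
  have hPr2 : ∀ x ∈ U, Rch o2 P a x := by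
    intro x hx
    exact rch_of (hPr x hx) (fun e he _ _ => ⟨he, hP2 e he⟩)
  -- feasibility
  have hFea2 : Fea H (insert b (S.erase l)) := by
    intro X hX
    have h1 := sCnt' hT2 X
    by_cases haX : a ∈ X
    · rw [if_pos haX] at h1
      omega
    · by_cases hc : b ∈ X ∧ l ∉ X
      · obtain ⟨hbX, hlX⟩ := hc
        have h2 := sCnt' hT1 X
        rw [if_neg haX] at h2
        -- two elements enter `X`
        obtain ⟨e1, he1, h3, h4, -, -⟩ := rch_last (hPr b hbU) haX hbX
        obtain ⟨c, d, -, ⟨e2, -, h5, h6, h7, h8⟩, h9, h10, -⟩ :=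
          rtg_last (P := (· ∈ X)) hlb1 hlX hbX
        have hne : e1 ≠ e2 := by
          rintro rfl
          refine hPl e1 he1 ⟨?_, ?_⟩
          · rw [← (hP1 e1 he1).1, h5]
            exact h7
          · rw [← (hP1 e1 he1).2, h6]
            exact h8
        have h11 : 2 ≤ din o1.tail o1.head univ X := by
          unfold din
          rw [← card_pair hne]
          refine card_le_card ?_
          intro e he
          rw [mem_insert, mem_singleton] at he
          rcases he with rfl | rfl
          · refine mem_filter.2 ⟨mem_univ _, ?_, ?_⟩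
            · rw [(hP1 _ he1).1]
              exact h3
            · rw [(hP1 _ he1).2]
              exact h4
          · refine mem_filter.2 ⟨mem_univ _, ?_, ?_⟩
            · rw [h5]
              exact h9
            · rw [h6]
              exact h10
        have h12 : (insert b (S.erase l) ∩ X).card ≤ (S ∩ X).card + 1 := by
          have h13 : insert b (S.erase l) ∩ X ⊆ insert b (S ∩ X) := by
            intro x hx
            rw [mem_inter, mem_insert] at hx
            rw [mem_insert, mem_inter]
            rcases hx with ⟨rfl | h14, h15⟩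
            · exact Or.inl rfl
            · exact Or.inr ⟨mem_of_mem_erase h14, h15⟩
          exact (card_le_card h13).trans (card_insert_le _ _)
        omega
      · have h2 := hFea X hX
        have h3 : (insert b (S.erase l) ∩ X).card ≤ (S ∩ X).card := by
          by_cases hbX : b ∈ X
          · have hlX : l ∈ X := by
              by_contra h4
              exact hc ⟨hbX, h4⟩
            have h5 : insert b (S.erase l) ∩ X ⊆ insert b ((S ∩ X).erase l) := by
              intro x hx
              rw [mem_inter, mem_insert, mem_erase] at hx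
              rw [mem_insert, mem_erase, mem_inter]
              tauto
            have h6 : l ∈ S ∩ X := mem_inter.2 ⟨hl, hlX⟩
            have h7 := card_erase_of_mem h6
            have h8 : 0 < (S ∩ X).card := card_pos.2 ⟨l, h6⟩
            have h9 := (card_le_card h5).trans (card_insert_le _ _)
            omega
          · refine card_le_card ?_
            intro x hx
            rw [mem_inter, mem_insert, mem_erase] at hx
            rw [mem_inter]
            rcases hx with ⟨rfl | h14, h15⟩
            · exact absurd h15 hbX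
            · exact ⟨h14.2, h15⟩
        omega
  -- everything is reached outside `P`
  have hout : ∀ x, ∃ r ∈ insert b (S.erase l), Rch o2 (univ \ P) r x := by
    by_contra hc
    push Not at hc
    obtain ⟨x0, hx0⟩ := hc
    let X : Finset V := univ.filter (fun x =>
      ¬ ∃ r ∈ insert b (S.erase l), Rch o2 (univ \ P) r x)
    have hXm : ∀ x, x ∈ X ↔ ¬ ∃ r ∈ insert b (S.erase l), Rch o2 (univ \ P) r x := by
      intro x
      simp only [X, mem_filter, mem_univ, true_and]
    have hXn : X.Nonempty := by
      refine ⟨x0, (hXm x0).2 ?_⟩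
      rintro ⟨r, hr, h⟩
      exact hx0 r hr h
    have h1 : din o2.tail o2.head (univ \ P) X = 0 := din_unreached _ X hXm
    have hXd : Disjoint X (insert b (S.erase l)) := by
      rw [disjoint_left]
      intro x hx hr
      exact (hXm x).1 hx ⟨x, hr, ReflTransGen.refl⟩
    have h2 := hcount X hXn hXd
    have h3 := sCnt' hT2 X
    have h4 : insert b (S.erase l) ∩ X = ∅ := by
      rw [inter_comm]
      exact disjoint_iff_inter_eq_empty.1 hXd
    rw [h4, card_empty] at h3
    have h5 : din o2.tail o2.head univ X ≤ din o.tail o.head P X := by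
      unfold din
      refine card_le_card ?_
      intro e he
      rw [mem_filter] at he
      have heP : e ∈ P := by
        by_contra h6
        exact he.2.1 (din_zero h1 (mem_sdiff.2 ⟨mem_univ _, h6⟩) he.2.2)
      rw [(hP2 e heP).1, (hP2 e heP).2] at he
      exact mem_filter.2 ⟨heP, he.2⟩
    omega
  obtain ⟨F, hSol, hPF, hD⟩ := hF2 V I H o2 a (insert b (S.erase l)) b P U hC.be hT2 hFea2
    (mem_insert_self _ _) haU hbU (fun e he => by rw [(hP2 e he).2]; exact (hP e he).2.1)
    hPr2 hout
  refine ⟨o2, F, hSol, hA, ?_, ?_⟩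
  · intro x hx
    have hSP := sSolP' hSol
    refine hU x ?_
    induction hx using ReflTransGen.head_induction_on with
    | refl => exact hbU
    | @head c d h1 _ ih =>
      obtain ⟨e, he, h2, h3⟩ := h1
      have heF : e ∉ F := (mem_sdiff.1 he).2
      have hda : d ≠ a := by
        rw [← h3]
        exact hSP.tR e heF
      rcases ReflTransGen.cases_tail (hPr2 d ih) with h4 | ⟨y, _, g, hg, h5, h6⟩
      · exact absurd h4 hda
      · have hgF : g ∉ F := disjoint_left.1 hPF hg
        have h7 := hSP.tU e heF g hgF (h3.trans h6.symm)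
        subst h7
        rw [← h2, (hP2 e hg).1]
        exact (hP e hg).1
  · intro x
    rw [hD x, erase_insert hb]

end ARB.KS
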