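import Pool.Agent.H46.ARB1.Cnt

/-!
# ARB1, rows R8b (`SExtT`), R8c (`SExtF`): extraction along a path of `T` or of `F`
-/

set_option autoImplicit false
set_option linter.unusedSectionVars false

namespace ARB.KS

open Finset Relation

section

variable {V I : Type} [Fintype V] [DecidableEq V] [Fintype I] [DecidableEq I]
  {H : MixedGraph V I}

/-- the elements with both ends in `X` are split into those of `F` and the others. -/
theorem xb_inner (o : Orientation H) (F : Finset I) (X : Finset V) :
    inner H X = (F.filter (fun e => o.tail e ∈ X ∧ o.head e ∈ X)).card +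
      ((univ \ F).filter (fun e => o.tail e ∈ X ∧ o.head e ∈ X)).card := by
  unfold inner
  rw [← card_union_of_disjoint]
  · congr 1
    ext e
    simp only [mem_filter, mem_union, mem_univ, true_and, mem_sdiff, ← k1_ends o e X]
    tauto
  · rw [disjoint_left]
    intro e he he'
    rw [mem_filter] at he he'
    exact (mem_sdiff.1 he'.1).2 he.1

/-- a set reached from `Q` by `G` contains a point of `Q` or is entered. -/
theorem xb_enter {o : Orientation H} {G : Finset I} {Q : Finset V}
    (hQ : ∀ x, ∃ r ∈ Q, Rch o G r x) {X : Finset V} (hX : X.Nonempty) :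
    1 ≤ din o.tail o.head G X + (Q ∩ X).card := by
  obtain ⟨x, hx⟩ := hX
  obtain ⟨r, hr, h⟩ := hQ x
  by_cases hrX : r ∈ X
  · have : 0 < (Q ∩ X).card := card_pos.2 ⟨r, mem_inter.2 ⟨hr, hrX⟩⟩
    omega
  · obtain ⟨e, he, h3, h4, -, -⟩ := rch_last h hrX hx
    have := din_pos he h3 h4
    omega

/-- the count for a path `P` of `G` from `a` to `b`. -/
theorem xb_count {o : Orientation H} {G : Finset I} {Q : Finset V} {a b : V}
    (hQ : ∀ x, ∃ r ∈ Q, Rch o G r x) (hanti : ∀ x y, Rch o G x y → Rch o G y x → x = y)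
    (X : Finset V) :
    din o.tail o.head (Pth o G a b) X + (if a ∈ X then 1 else 0) ≤
      din o.tail o.head G X + (Q ∩ X).card := by
  have hsub : Pth o G a b ⊆ G := fun e he => (mem_Pth.1 he).1
  have h1 : din o.tail o.head (Pth o G a b) X ≤ din o.tail o.head G X := by
    unfold din
    exact card_le_card (filter_subset_filter _ hsub)
  by_cases haX : a ∈ X
  · rw [if_pos haX]
    obtain ⟨r, hr, h⟩ := hQ a
    by_cases hrX : r ∈ X
    · have : 0 < (Q ∩ X).card := card_pos.2 ⟨r, mem_inter.2 ⟨hr, hrX⟩⟩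
      omega
    · obtain ⟨e, he, h3, h4, -, h5⟩ := rch_last h hrX haX
      have h6 : Rch o G (o.head e) a := rch_mono (filter_subset _ _) h5
      have h7 : e ∉ Pth o G a b := by
        intro h8
        have h9 := (mem_Pth.1 h8).2.1
        have h10 : Rch o G (o.tail e) a := ReflTransGen.head ⟨e, he, rfl, rfl⟩ h6
        have h11 := hanti _ _ h9 h10
        exact h3 (h11 ▸ haX)
      have h8 : din o.tail o.head (Pth o G a b) X < din o.tail o.head G X := by
        unfold din
        refine card_lt_card ?_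
        rw [Finset.ssubset_iff_of_subset (filter_subset_filter _ hsub)]
        exact ⟨e, mem_filter.2 ⟨he, h3, h4⟩, fun h9 => h7 (mem_filter.1 h9).1⟩
      omega
  · rw [if_neg haX]
    omega

open Classical in
/-- the vertices between `a` and `b`. -/
noncomputable def xbU (o : Orientation H) (G : Finset I) (a b : V) : Finset V :=
  univ.filter (fun z => Rch o G a z ∧ Rch o G z b)

theorem mem_xbU {o : Orientation H} {G : Finset I} {a b z : V} :
    z ∈ xbU o G a b ↔ Rch o G a z ∧ Rch o G z b := by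
  unfold xbU
  simp

theorem xb_path {o : Orientation H} {G : Finset I} {a b : V}
    (hanti : ∀ x y, Rch o G x y → Rch o G y x → x = y) :
    ∀ e ∈ Pth o G a b, o.tail e ∈ xbU o G a b ∧ o.head e ∈ xbU o G a b ∧ o.head e ≠ a ∧
      o.tail e ≠ b := by
  intro e he
  obtain ⟨h1, h2, h3⟩ := mem_Pth.1 he
  have hs : Rch o G (o.tail e) (o.head e) := ReflTransGen.single ⟨e, h1, rfl, rfl⟩
  refine ⟨mem_xbU.2 ⟨h2, hs.trans h3⟩, mem_xbU.2 ⟨h2.trans hs, h3⟩, ?_, ?_⟩
  · intro h
    refine k1_loop o e (hanti _ _ hs ?_)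
    rw [h]
    exact h2
  · intro h
    refine k1_loop o e (hanti _ _ hs ?_)
    rw [h]
    exact h3

theorem xb_reach {o : Orientation H} {G : Finset I} {a b : V} :
    ∀ x ∈ xbU o G a b, Rch o (Pth o G a b) a x := by
  intro x hx
  obtain ⟨h1, h2⟩ := mem_xbU.1 hx
  exact rch_of h1 (fun e he h3 h4 => ⟨mem_Pth.2 ⟨he, h3, h4.trans h2⟩, rfl, rfl⟩)

end

/-- R8b. -/
theorem sExtT (hx : SExt) : SExtT := by
  classical
  intro V I _ _ _ _ H s o u R F l a b Bj Bl hC hSol hl hb hBj hBl hja hlb hab hbet
  have hSP := sSolP' hSol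
  have hQ : ∀ x, ∃ r ∈ ({u} : Finset V), Rch o (univ \ F) r x := fun x =>
    ⟨u, mem_singleton_self u, hSol.2.2 x⟩
  have hFea : Fea H R := (sFea' hSol.1).2 (fun x => rch_mono sdiff_subset (hSol.2.2 x))
  refine hx V I H s o u R l a b Bj Bl (xbU o (univ \ F) a b) (Pth o (univ \ F) a b) hC hSol.1
    hFea hl hb hBj hBl hja hlb (mem_xbU.2 ⟨ReflTransGen.refl, hab⟩)
    (mem_xbU.2 ⟨hab, ReflTransGen.refl⟩) (xb_path hSP.tA) xb_reach
    (fun x hx => hbet x (mem_xbU.1 hx).1 (mem_xbU.1 hx).2) ?_
  intro X hX _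
  have h1 := xb_count (a := a) (b := b) hQ hSP.tA X
  have h2 := hSP.tN X
  have h3 := hSP.fN X
  have h4 := xb_enter hSol.2.1 hX
  have h5 := xb_inner o F X
  have h6 : (({u} : Finset V) ∩ X).card = if u ∈ X then 1 else 0 := by
    by_cases hu : u ∈ X
    · rw [singleton_inter_of_mem hu, if_pos hu, card_singleton]
    · rw [singleton_inter_of_notMem hu, if_neg hu, card_empty]
  rw [h6] at h1
  omega

/-- R8c. -/
theorem sExtF (hx : SExt) : SExtF := by
  classical
  intro V I _ _ _ _ H s o u R F w l a b Bj Bl hC hSol hw hu hwu hl hb hBj hBl hja hlb hab hbet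
  have hSP := sSolP' hSol
  have hTok : Tok o w (insert u (R.erase w)) := by
    intro x
    have h1 := hSol.1 x
    have h2 : (if x ∈ insert u (R.erase w) then 1 else 0) =
        (if x = u then 1 else 0) + (if x ∈ R.erase w then 1 else 0) := by
      by_cases hxu : x = u
      · subst hxu
        rw [if_pos (mem_insert_self _ _), if_pos rfl,
          if_neg (fun h => hu (mem_of_mem_erase h))]
      · rw [if_neg hxu, zero_add]
        by_cases hxR : x ∈ R.erase w
        · rw [if_pos (mem_insert_of_mem hxR), if_pos hxR]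
        · rw [if_neg hxR, if_neg]
          rw [mem_insert]
          rintro (h6 | h6)
          · exact hxu h6
          · exact hxR h6
    have h3 : (if x ∈ R then 1 else 0) =
        (if x = w then 1 else 0) + (if x ∈ R.erase w then 1 else 0) := by
      by_cases hxw : x = w
      · subst hxw
        rw [if_pos hw, if_pos rfl, if_neg (by simp)]
      · rw [if_neg hxw, zero_add]
        by_cases hxR : x ∈ R
        · rw [if_pos hxR, if_pos (mem_erase.2 ⟨hxw, hxR⟩)]
        · rw [if_neg hxR, if_neg (fun h7 => hxR (mem_of_mem_erase h7))]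
    rw [h2]
    rw [h3] at h1
    omega
  have hFea : Fea H (insert u (R.erase w)) := (sFea' hTok).2 (fun x =>
    (rch_mono (subset_univ _) hwu).trans (rch_mono sdiff_subset (hSol.2.2 x)))
  refine hx V I H s o w (insert u (R.erase w)) l a b Bj Bl (xbU o F a b) (Pth o F a b) hC hTok
    hFea hl hb hBj hBl hja hlb (mem_xbU.2 ⟨ReflTransGen.refl, hab⟩)
    (mem_xbU.2 ⟨hab, ReflTransGen.refl⟩) (xb_path hSP.fA) xb_reach
    (fun x hx => hbet x (mem_xbU.1 hx).1 (mem_xbU.1 hx).2) ?_
  intro X hX _
  have hQ : ∀ x, ∃ r ∈ ({u} : Finset V), Rch o (univ \ F) r x := fun x =>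
    ⟨u, mem_singleton_self u, hSol.2.2 x⟩
  have h1 := xb_count (a := a) (b := b) hSol.2.1 hSP.fA X
  have h2 := hSP.tN X
  have h3 := hSP.fN X
  have h4 := xb_enter hQ hX
  have h5 := xb_inner o F X
  have h6 : (({u} : Finset V) ∩ X).card = if u ∈ X then 1 else 0 := by
    by_cases hu : u ∈ X
    · rw [singleton_inter_of_mem hu, if_pos hu, card_singleton]
    · rw [singleton_inter_of_notMem hu, if_neg hu, card_empty]
  rw [h6] at h4
  omega

end ARB.KS
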