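import Pool.Agent.H46.ARB1.Cnt

/-!
# ARB1, row R8c (`SExtF`): extraction along a path of the branching
-/

set_option autoImplicit false
set_option linter.unusedSectionVars false

namespace ARB.KS

open Finset Relation

section

variable {V I : Type} [Fintype V] [DecidableEq V] [Fintype I] [DecidableEq I]
  {H : MixedGraph V I}

theorem xf_inner (o : Orientation H) (F : Finset I) (X : Finset V) :
    (F.filter (fun e => o.tail e ∈ X ∧ o.head e ∈ X)).card +
      ((univ \ F).filter (fun e => o.tail e ∈ X ∧ o.head e ∈ X)).card = inner H X := by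
  unfold inner
  rw [← card_union_of_disjoint]
  · congr 1
    ext e
    simp only [mem_union, mem_filter, mem_univ, mem_sdiff, true_and, k1_ends]
    tauto
  · rw [disjoint_left]
    intro e he he'
    rw [mem_filter] at he he'
    exact (mem_sdiff.1 he'.1).2 he.1

/-- the counting hypothesis of `SExt` for a path of the branching. -/
theorem xf_count {o : Orientation H} {u : V} {R : Finset V} {F : Finset I} (h : Sol o u R F)
    (a b : V) (X : Finset V) (hX : X.Nonempty) :
    din o.tail o.head (Pth o F a b) X + (if a ∈ X then 1 else 0) + inner H X + 1 ≤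
      2 * X.card := by
  classical
  have hP := sSolP' h
  have h1 := hP.fN X
  have h2 := hP.tN X
  have h3 := xf_inner o F X
  have hsub : Pth o F a b ⊆ F := fun e he => (mem_Pth.1 he).1
  have h4 : din o.tail o.head (Pth o F a b) X ≤ din o.tail o.head F X := by
    unfold din
    exact card_le_card (filter_subset_filter _ hsub)
  -- the arborescence has at most `|X| - 1` elements inside `X`
  have h5 : 1 ≤ din o.tail o.head (univ \ F) X + (if u ∈ X then 1 else 0) := by
    by_cases hu : u ∈ X
    · rw [if_pos hu]
      omega
    · obtain ⟨x, hx⟩ := hX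
      obtain ⟨e, he, h6, h7, -, -⟩ := rch_last (h.2.2 x) hu hx
      have := din_pos he h6 h7
      omega
  -- the branching
  have h6 : din o.tail o.head (Pth o F a b) X + (if a ∈ X then 1 else 0) ≤
      din o.tail o.head F X + (R ∩ X).card := by
    by_cases ha : a ∈ X
    · rw [if_pos ha]
      obtain ⟨r, hr, hra⟩ := h.2.1 a
      by_cases hrX : r ∈ X
      · have : 0 < (R ∩ X).card := card_pos.2 ⟨r, mem_inter.2 ⟨hr, hrX⟩⟩
        omega
      · obtain ⟨e, he, h7, h8, h9, h10⟩ := rch_last hra hrX ha
        have h10' : Rch o F (o.head e) a := rch_mono (filter_subset _ _) h10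
        have hne : e ∉ Pth o F a b := by
          intro h11
          have h12 := (mem_Pth.1 h11).2.1
          have hst : Rch o F (o.tail e) (o.head e) := ReflTransGen.single ⟨e, he, rfl, rfl⟩
          have h13 : o.tail e = a := (hP.fA _ _ (hst.trans h10') h12)
          have h14 : o.head e = a := (hP.fA _ _ h10' (h12.trans hst))
          exact k1_loop o e (h13.trans h14.symm)
        have h11 : din o.tail o.head (Pth o F a b) X + 1 ≤ din o.tail o.head F X := by
          unfold din
          rw [← card_insert_of_notMem (s := (Pth o F a b).filter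
            (fun e => o.tail e ∉ X ∧ o.head e ∈ X)) (a := e)
            (fun h => hne (mem_filter.1 h).1)]
          refine card_le_card ?_
          intro g hg
          rcases mem_insert.1 hg with rfl | hg
          · exact mem_filter.2 ⟨he, h7, h8⟩
          · rw [mem_filter] at hg ⊢
            exact ⟨hsub hg.1, hg.2⟩
        omega
    · rw [if_neg ha]
      omega
  omega

end

/-- R8c. -/
theorem sExtF (hExt : SExt) : SExtF := by
  classical
  intro V I _ _ _ _ H s o u R F w l a b Bj Bl hC hSol hwR huR hwu hl hb hBj hBl hja hlb hab hY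
  have hP := sSolP' hSol
  have hne : w ≠ u := by
    rintro rfl
    exact huR hwR
  have hwE : w ∉ insert u (R.erase w) := by
    rw [mem_insert, mem_erase]
    rintro (h | h)
    · exact hne h
    · exact h.1 rfl
  have hTok : Tok o w (insert u (R.erase w)) := by
    intro x
    have h1 := hSol.1 x
    by_cases hxv : x = w
    · subst hxv
      rw [if_pos rfl, if_neg hwE]
      rw [if_neg hne, if_pos hwR] at h1
      omega
    · by_cases hxu : x = u
      · subst hxu
        rw [if_neg hxv, if_pos (mem_insert_self _ _)]
        rw [if_pos rfl, if_neg huR] at h1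
        omega
      · rw [if_neg hxv]
        rw [if_neg hxu] at h1
        have h2 : x ∈ insert u (R.erase w) ↔ x ∈ R := by
          rw [mem_insert, mem_erase]
          tauto
        rw [if_congr h2 rfl rfl]
        exact h1
  have hFea : Fea H (insert u (R.erase w)) := by
    rw [sFea' hTok]
    intro x
    exact (rch_mono (subset_univ _) hwu).trans (rch_mono (subset_univ _) (hSol.2.2 x))
  let U : Finset V := univ.filter (fun z => Rch o F a z ∧ Rch o F z b)
  have hU : ∀ z, z ∈ U ↔ Rch o F a z ∧ Rch o F z b := by
    intro z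
    simp only [U, mem_filter, mem_univ, true_and]
  refine hExt V I H s o w (insert u (R.erase w)) l a b Bj Bl U (Pth o F a b) hC hTok hFea hl hb
    hBj hBl hja hlb ((hU a).2 ⟨ReflTransGen.refl, hab⟩) ((hU b).2 ⟨hab, ReflTransGen.refl⟩) ?_
    ?_ ?_ ?_
  · intro e he
    obtain ⟨h1, h2, h3⟩ := mem_Pth.1 he
    have hst : Rch o F (o.tail e) (o.head e) := ReflTransGen.single ⟨e, h1, rfl, rfl⟩
    refine ⟨(hU _).2 ⟨h2, hst.trans h3⟩, (hU _).2 ⟨h2.trans hst, h3⟩, ?_, ?_⟩
    · intro h4
      rw [h4] at hst
      exact k1_loop o e ((hP.fA _ _ hst h2).trans h4.symm)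
    · intro h4
      rw [h4] at hst
      exact k1_loop o e (h4.trans (hP.fA _ _ hst h3))
  · intro x hx
    obtain ⟨h1, h2⟩ := (hU x).1 hx
    refine rch_of h1 ?_
    intro e he h3 h4
    exact ⟨mem_Pth.2 ⟨he, h3, h4.trans h2⟩, rfl, rfl⟩
  · intro x hx
    obtain ⟨h1, h2⟩ := (hU x).1 hx
    exact hY x h1 h2
  · intro X hX _
    exact xf_count hSol a b X hX

end ARB.KS
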