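import Pool.Agent.H46.ARB1.Cnt
import Pool.Agent.H11.ARB.EdmSub

/-!
# ARB1, rows R11 (`SL3`) and R12 (`SL1`)
-/

set_option autoImplicit false
set_option linter.unusedSectionVars false

namespace ARB.KS

open Finset Relation

section

variable {V I : Type} [Fintype V] [DecidableEq V] [Fintype I] [DecidableEq I]
  {H : MixedGraph V I}

/-- reachability after changes inside `S`. -/
theorem l13_glue {o : Orientation H} {J K : Finset I} {S Q Q' : Finset V}
    (hout : ∀ e ∈ J, o.head e ∉ S → e ∈ K)
    (hQ : ∀ r ∈ Q', r ∉ S → r ∈ Q)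
    (hS : ∀ x ∈ S, ∃ r ∈ Q, Rch o K r x)
    (hJ : ∀ x, ∃ r ∈ Q', Rch o J r x) : ∀ x, ∃ r ∈ Q, Rch o K r x := by
  intro x
  obtain ⟨r, hr, h⟩ := hJ x
  have hsub : J.filter (fun e => o.head e ∉ S) ⊆ K := by
    intro e he
    rw [mem_filter] at he
    exact hout e he.1 he.2
  rcases last_exit S h with ⟨h1, h2⟩ | ⟨z, hz, h2⟩
  · exact ⟨r, hQ r hr h1, rch_mono hsub h2⟩
  · obtain ⟨r', hr', h3⟩ := hS z hz
    exact ⟨r', hr', h3.trans (rch_mono hsub h2)⟩

theorem l13_fea {o : Orientation H} {u : V} {R : Finset V} {F : Finset I} (h : Sol o u R F) :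
    Fea H R :=
  (sFea' h.1).2 (fun x => rch_mono (subset_univ _) (h.2.2 x))

theorem l13_uR (hNF1 : SNF1) {s : ℕ} (hC : Cx H s) {o : Orientation H} {u : V} {R : Finset V}
    {F : Finset I} (h : Sol o u R F) : u ∉ R := by
  intro hu
  exact hNF1 V I H s o u R u u hC h.1 (l13_fea h) hu ReflTransGen.refl ReflTransGen.refl

/-- the only root in `Dsc o F v` is `v`. -/
theorem l13_root {o : Orientation H} {u : V} {R : Finset V} {F : Finset I} (h : Sol o u R F)
    {v : V} (hv : v ∈ R) {w : V} (hw : w ∈ R) (hM : w ∈ Dsc o F v) : w = v :=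
  ((sSolP' h).fO v hv w hw w (mem_Dsc.1 hM) ReflTransGen.refl).symm

theorem l13_vM {o : Orientation H} {F : Finset I} {v : V} : v ∈ Dsc o F v :=
  mem_Dsc.2 ReflTransGen.refl

/-- vertices outside `M = Dsc o F v` are reached from `R.erase v` by `F`-elements with heads
outside `M`. -/
theorem l13_out {o : Orientation H} {u : V} {R : Finset V} {F : Finset I} (h : Sol o u R F)
    {v : V} {x : V} (hx : x ∉ Dsc o F v) :
    ∃ r ∈ R.erase v, Rch o (F.filter (fun e => o.head e ∉ Dsc o F v)) r x := by
  obtain ⟨r, hr, h1⟩ := h.2.1 x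
  have hrv : r ≠ v := by
    rintro rfl
    exact hx (mem_Dsc.2 h1)
  refine ⟨r, mem_erase.2 ⟨hrv, hr⟩, rch_of h1 ?_⟩
  intro e he h2 h3
  refine ⟨mem_filter.2 ⟨he, ?_⟩, rfl, rfl⟩
  intro h4
  exact hx (mem_Dsc.2 ((mem_Dsc.1 h4).trans h3))

/-- some element enters `M = Dsc o F v`. -/
theorem l13_enter {s : ℕ} (hC : Cx H s) {o : Orientation H} {u : V} {R : Finset V}
    {F : Finset I} (h : Sol o u R F) {v : V} (hv : v ∈ R) (hu : u ∈ Dsc o F v) :
    ∃ e, o.tail e ∉ Dsc o F v ∧ o.head e ∈ Dsc o F v := by
  classical
  by_contra hc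
  push Not at hc
  set M := Dsc o F v with hM
  have h0 : din o.tail o.head univ M = 0 := by
    apply din_eq_zero
    intro e _ h1
    by_contra h2
    exact hc e h2 h1
  have h1 := sCnt' h.1 M
  have hRM : R ∩ M = {v} := by
    ext w
    rw [mem_inter, mem_singleton]
    constructor
    · rintro ⟨h2, h3⟩
      exact l13_root h hv h2 h3
    · rintro rfl
      exact ⟨hv, l13_vM⟩
  rw [h0, if_pos hu, hRM, card_singleton] at h1
  have h2 : M ≠ univ := by
    intro h3
    have h4 := hC.beV
    rw [h3, card_univ] at h1
    omega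
  obtain ⟨y, hy⟩ : ∃ y, y ∉ M := by
    by_contra h3
    push Not at h3
    exact h2 (eq_univ_iff_forall.2 h3)
  have h3 : inner H ({y} : Finset V) = 0 := by
    unfold inner
    rw [card_eq_zero, filter_eq_empty_iff]
    intro e _ h4
    rw [mem_singleton, mem_singleton] at h4
    exact H.noLoop e (h4.1.trans h4.2.symm)
  have h4 := hC.z2 M {y} ⟨v, l13_vM⟩ (singleton_nonempty y) (disjoint_singleton_right.2 hy)
    (by omega) (by rw [h3, card_singleton])
  rw [card_singleton] at h4
  have h5 := hC.ng o u R F v h hv
  rw [← hM] at h5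
  omega

end

/-- R11. -/
theorem sL3 (hSp : SSplit) (hNF1 : SNF1) (hRed : SRed) : SL3 := by
  classical
  intro V I _ _ _ _ H s o u R F v hC hMin huM
  have hT := hMin.1
  have hSol := hT.sol
  have hvR := hT.vR
  have huR : u ∉ R := l13_uR hNF1 hC hSol
  have hvu : v ≠ u := hT.vu
  obtain ⟨e0, he0t, he0h⟩ := l13_enter hC hSol hvR huM
  set M := Dsc o F v with hM
  have hvM : v ∈ M := l13_vM
  let K : Finset I := univ.filter (fun e => o.tail e ∉ M ∧ o.head e ∈ M)
  have hK : ∀ e, e ∈ K ↔ o.tail e ∉ M ∧ o.head e ∈ M := by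
    intro e
    simp [K]
  let RF : Finset V := insert u (K.image o.head)
  have hRF : RF ⊆ M := by
    intro x hx
    rcases mem_insert.1 hx with rfl | hx
    · exact huM
    · obtain ⟨e, he, rfl⟩ := mem_image.1 hx
      exact ((hK e).1 he).2
  obtain ⟨JT, JF, hJT, hJF, hdis, hTr, hFr⟩ := hSp V I H o (ins o M) M {v} RF
    (fun e he => mem_ins.1 he) (singleton_subset_iff.2 hvM) hRF (singleton_nonempty v)
    ⟨u, mem_insert_self _ _⟩ (by
      intro Z hZ hZM
      by_cases hd : Disjoint RF Z
      · rw [if_pos hd]
        have huZ : u ∉ Z := fun h => disjoint_left.1 hd (mem_insert_self _ _) h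
        have hdin : din o.tail o.head univ Z ≤ din o.tail o.head (ins o M) Z := by
          unfold din
          refine card_le_card ?_
          intro e he
          rw [mem_filter] at he ⊢
          refine ⟨mem_ins.2 ⟨?_, hZM he.2.2⟩, he.2⟩
          by_contra h1
          exact disjoint_left.1 hd (mem_insert_of_mem
            (mem_image_of_mem _ ((hK e).2 ⟨h1, hZM he.2.2⟩))) he.2.2
        have h1 := sCnt' hSol.1 Z
        rw [if_neg huZ] at h1
        have h2 := hC.be Z hZ
        have h3 : (R ∩ Z).card ≤ if Disjoint {v} Z then 0 else 1 := by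
          split_ifs with h4
          · rw [Nat.le_zero, card_eq_zero]
            ext w
            simp only [mem_inter, notMem_empty, iff_false, not_and]
            intro h5 h6
            have h7 := l13_root hSol hvR h5 (hZM h6)
            subst h7
            exact disjoint_left.1 h4 (mem_singleton_self _) h6
          · rw [card_le_one]
            intro a ha b hb
            rw [mem_inter] at ha hb
            rw [l13_root hSol hvR ha.1 (hZM ha.2), l13_root hSol hvR hb.1 (hZM hb.2)]
        split_ifs at h3 ⊢ <;> omega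
      · rw [if_neg hd]
        by_cases hv : v ∈ Z
        · rw [if_neg (by
            rw [disjoint_singleton_left]
            exact fun h => h hv)]
          exact Nat.zero_le _
        · have h1 : (if Disjoint {v} Z then 1 else 0) ≤ 1 := by split_ifs <;> omega
          obtain ⟨x, hx⟩ := hZ
          obtain ⟨e, he, h3, h4, h5, -⟩ := rch_last (mem_Dsc.1 (hZM hx)) hv hx
          have := din_pos (J := ins o M) (mem_ins.2 ⟨mem_Dsc.2 h5, hZM h4⟩) h3 h4
          omega)
  have hJTi : ∀ e ∈ JT, o.tail e ∈ M ∧ o.head e ∈ M := fun e he => mem_ins.1 (hJT he)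
  have hJFi : ∀ e ∈ JF, o.tail e ∈ M ∧ o.head e ∈ M := fun e he => mem_ins.1 (hJF he)
  let F1 : Finset I := F.filter (fun e => o.head e ∉ M) ∪ (K ∪ JF)
  have hF1 : ∀ e, e ∈ F1 ↔ (e ∈ F ∧ o.head e ∉ M) ∨ e ∈ K ∨ e ∈ JF := by
    intro e
    simp only [F1, mem_union, mem_filter]
  have hmem : ∀ e, o.head e ∉ M → (e ∈ F1 ↔ e ∈ F) := by
    intro e he
    rw [hF1]
    constructor
    · rintro (h | h | h)
      · exact h.1
      · exact absurd ((hK e).1 h).2 he
      · exact absurd (hJFi e h).2 he
    · intro h
      exact Or.inl ⟨h, he⟩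
  have hvE : v ∉ insert u (R.erase v) := by
    rw [mem_insert, mem_erase]
    rintro (h | h)
    · exact hvu h
    · exact h.1 rfl
  have hSol1 : Sol o v (insert u (R.erase v)) F1 := by
    refine ⟨?_, ?_, ?_⟩
    · intro x
      have h1 := hSol.1 x
      by_cases hxv : x = v
      · subst hxv
        rw [if_pos rfl, if_neg hvE]
        rw [if_neg hvu, if_pos hvR] at h1
        omega
      · by_cases hxu : x = u
        · subst hxu
          rw [if_neg hxv, if_pos (mem_insert_self _ _)]
          rw [if_pos rfl, if_neg huR] at h1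
          omega
        · rw [if_neg hxv]
          rw [if_neg hxu] at h1
          have h2 : x ∈ insert u (R.erase v) ↔ x ∈ R := by
            rw [mem_insert, mem_erase]
            tauto
          rw [if_congr h2 rfl rfl]
          exact h1
    · refine l13_glue (J := F) (S := M) (Q' := R) ?_ ?_ ?_ hSol.2.1
      · intro e he h1
        exact (hmem e h1).2 he
      · intro r hr h1
        refine mem_insert_of_mem (mem_erase.2 ⟨?_, hr⟩)
        rintro rfl
        exact h1 hvM
      · intro x hx
        obtain ⟨r', hr', h1⟩ := hFr x hx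
        have h1' : Rch o F1 r' x := rch_mono (fun e he => (hF1 e).2 (Or.inr (Or.inr he))) h1
        rcases mem_insert.1 hr' with rfl | hr'
        · exact ⟨r', mem_insert_self _ _, h1'⟩
        · obtain ⟨e, he, rfl⟩ := mem_image.1 hr'
          obtain ⟨r, hr, h2⟩ := l13_out hSol ((hK e).1 he).1
          refine ⟨r, mem_insert_of_mem hr, ?_⟩
          have h3 : Rch o F1 r (o.tail e) := rch_mono (by
            intro e' he'
            rw [mem_filter] at he'
            exact (hF1 e').2 (Or.inl he')) h2
          exact (h3.tail ⟨e, (hF1 e).2 (Or.inr (Or.inl he)), rfl, rfl⟩).trans h1'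
    · have key := l13_glue (o := o) (J := univ \ F) (K := univ \ F1) (S := M) (Q := {v})
        (Q' := {u}) ?_ ?_ ?_ (fun x => ⟨u, mem_singleton_self _, hSol.2.2 x⟩)
      · intro x
        obtain ⟨r, hr, h1⟩ := key x
        rw [mem_singleton] at hr
        subst hr
        exact h1
      · intro e he h1
        refine mem_sdiff.2 ⟨mem_univ _, ?_⟩
        rw [hmem e h1]
        exact (mem_sdiff.1 he).2
      · intro r hr h1
        rw [mem_singleton] at hr
        subst hr
        exact absurd huM h1
      · intro x hx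
        obtain ⟨r, hr, h1⟩ := hTr x hx
        refine ⟨r, hr, rch_mono ?_ h1⟩
        intro e he
        refine mem_sdiff.2 ⟨mem_univ _, ?_⟩
        rw [hF1]
        rintro (h | h | h)
        · exact h.2 (hJTi e he).2
        · exact ((hK e).1 h).1 (hJTi e he).1
        · exact disjoint_left.1 hdis he h
  refine hRed V I H s o u R F v o v (insert u (R.erase v)) F1 u e0 hC hMin hSol1
    (mem_insert_self _ _) huM ?_ (Or.inr ⟨hvM, huM⟩) (fun e _ => ⟨rfl, rfl⟩) hmem ?_ he0t he0h
  · rw [erase_insert]
    intro h
    exact huR (mem_of_mem_erase h)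
  · exact (hF1 e0).2 (Or.inr (Or.inl ((hK e0).2 ⟨he0t, he0h⟩)))

/-- R12. -/
theorem sL1 (hSp : SSplit) (hL3 : SL3) (hRed : SRed) : SL1 := by
  classical
  intro V I _ _ _ _ H s o u R F v X t hC hMin hXM hvX hcl htX htv htop e' he't he'S
  by_contra hne
  have hT := hMin.1
  have hSol := hT.sol
  have hP := sSolP' hSol
  have hvR := hT.vR
  have huM : u ∉ Dsc o F v := hL3 V I H s o u R F v hC hMin
  set M := Dsc o F v with hM
  have hvM : v ∈ M := l13_vM
  -- the set `S`
  let S : Finset V := univ.filter (fun x => Rch o (ins o X) t x)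
  have hS : ∀ x, x ∈ S ↔ Rch o (ins o X) t x := by
    intro x
    simp [S]
  have htS : t ∈ S := (hS t).2 ReflTransGen.refl
  have hSX : S ⊆ X := by
    intro x hx
    rcases ReflTransGen.cases_tail ((hS x).1 hx) with h | ⟨y, _, e, he, _, h5⟩
    · rw [h]
      exact htX
    · rw [← h5]
      exact (mem_ins.1 he).2
  have hSM : S ⊆ M := hSX.trans hXM
  have hScl : ∀ e, o.tail e ∈ S → o.head e ∈ X → o.head e ∈ S := by
    intro e h1 h2
    exact (hS _).2 (((hS _).1 h1).tail ⟨e, mem_ins.2 ⟨hSX h1, h2⟩, rfl, rfl⟩)
  have htu : t ≠ u := by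
    rintro rfl
    exact huM (hXM htX)
  -- the element `f`
  obtain ⟨f, hfF, hfh, hut⟩ : ∃ f, f ∉ F ∧ o.head f = t ∧ Rch o (univ \ F) u (o.tail f) := by
    rcases ReflTransGen.cases_tail (hSol.2.2 t) with h | ⟨y, h1, e, he, h2, h3⟩
    · exact absurd h htu
    · refine ⟨e, (mem_sdiff.1 he).2, h3, ?_⟩
      rw [h2]
      exact h1
  have hfstep : stepRel o.tail o.head (univ \ F) (o.tail f) t :=
    ⟨f, mem_sdiff.2 ⟨mem_univ _, hfF⟩, rfl, hfh⟩
  have hfX : o.tail f ∉ X := by
    intro h
    have h1 := htop _ h (ReflTransGen.single hfstep)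
    exact k1_loop o f (h1.trans hfh.symm)
  have hfM : o.tail f ∉ M := by
    intro h
    exact hfX (hcl f (by rw [hfh]; exact htX) h)
  have hfS : o.tail f ∉ S := fun h => hfX (hSX h)
  let K : Finset I := univ.filter (fun e => o.tail e ∉ S ∧ o.head e ∈ S ∧ e ≠ f)
  have hK : ∀ e, e ∈ K ↔ o.tail e ∉ S ∧ o.head e ∈ S ∧ e ≠ f := by
    intro e
    simp [K]
  have he'K : e' ∈ K := by
    refine (hK e').2 ⟨fun h => he't (hSM h), (hS _).2 he'S, ?_⟩
    rintro rfl
    exact hne hfh
  let RF : Finset V := ({v} ∩ S) ∪ K.image o.head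
  have hRF : RF ⊆ S := by
    intro x hx
    rcases mem_union.1 hx with hx | hx
    · exact (mem_inter.1 hx).2
    · obtain ⟨e, he, rfl⟩ := mem_image.1 hx
      exact ((hK e).1 he).2.1
  obtain ⟨JT, JF, hJT, hJF, hdis, hTr, hFr⟩ := hSp V I H o (ins o S) S {t} RF
    (fun e he => mem_ins.1 he) (singleton_subset_iff.2 htS) hRF (singleton_nonempty t)
    ⟨o.head e', mem_union_right _ (mem_image_of_mem _ he'K)⟩ (by
      intro Z hZ hZS
      by_cases hd : Disjoint RF Z
      · rw [if_pos hd]
        have huZ : u ∉ Z := fun h => huM (hSM (hZS h))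
        have hRZ : R ∩ Z = ∅ := by
          ext w
          simp only [mem_inter, notMem_empty, iff_false, not_and]
          intro h5 h6
          have h7 := l13_root hSol hvR h5 (hSM (hZS h6))
          subst h7
          exact disjoint_left.1 hd (mem_union_left _
            (mem_inter.2 ⟨mem_singleton_self _, hZS h6⟩)) h6
        have hdin : din o.tail o.head univ Z ≤
            din o.tail o.head (ins o S) Z + (if t ∈ Z then 1 else 0) := by
          have h1 : univ.filter (fun e => o.tail e ∉ Z ∧ o.head e ∈ Z) ⊆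
              (ins o S).filter (fun e => o.tail e ∉ Z ∧ o.head e ∈ Z) ∪
                (if t ∈ Z then {f} else ∅) := by
            intro e he
            rw [mem_filter] at he
            rw [mem_union, mem_filter]
            by_cases h2 : o.tail e ∈ S
            · exact Or.inl ⟨mem_ins.2 ⟨h2, hZS he.2.2⟩, he.2⟩
            · right
              by_cases h3 : e = f
              · subst h3
                rw [hfh] at he
                rw [if_pos he.2.2]
                exact mem_singleton_self _
              · exact absurd he.2.2 (fun h4 => disjoint_left.1 hd (mem_union_right _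
                  (mem_image_of_mem _ ((hK e).2 ⟨h2, hZS h4, h3⟩))) h4)
          have h2 := card_le_card h1
          have h3 := card_union_le ((ins o S).filter (fun e => o.tail e ∉ Z ∧ o.head e ∈ Z))
            (if t ∈ Z then {f} else ∅)
          have h4 : (if t ∈ Z then ({f} : Finset I) else ∅).card = if t ∈ Z then 1 else 0 := by
            split_ifs
            · rfl
            · rfl
          unfold din
          omega
        have h1 := sCnt' hSol.1 Z
        rw [if_neg huZ, hRZ, card_empty] at h1
        have h2 := hC.be Z hZ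
        have h3 : (if Disjoint {t} Z then 1 else 0) + (if t ∈ Z then 1 else 0) = 1 := by
          by_cases h4 : t ∈ Z
          · rw [if_pos h4, if_neg (by
              rw [disjoint_singleton_left]
              exact fun h => h h4)]
          · rw [if_neg h4, if_pos (disjoint_singleton_left.2 h4)]
        omega
      · rw [if_neg hd]
        by_cases ht : t ∈ Z
        · rw [if_neg (by
            rw [disjoint_singleton_left]
            exact fun h => h ht)]
          exact Nat.zero_le _
        · have h1 : (if Disjoint {t} Z then 1 else 0) ≤ 1 := by split_ifs <;> omega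
          obtain ⟨x, hx⟩ := hZ
          obtain ⟨e, he, h3, h4, h5, -⟩ := rch_last ((hS x).1 (hZS hx)) ht hx
          have := din_pos (J := ins o S) (mem_ins.2 ⟨(hS _).2 h5, hZS h4⟩) h3 h4
          omega)
  have hJTi : ∀ e ∈ JT, o.tail e ∈ S ∧ o.head e ∈ S := fun e he => mem_ins.1 (hJT he)
  have hJFi : ∀ e ∈ JF, o.tail e ∈ S ∧ o.head e ∈ S := fun e he => mem_ins.1 (hJF he)
  let F1 : Finset I := F.filter (fun e => o.head e ∉ S) ∪ (K ∪ JF)
  have hF1 : ∀ e, e ∈ F1 ↔ (e ∈ F ∧ o.head e ∉ S) ∨ e ∈ K ∨ e ∈ JF := by
    intro e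
    simp only [F1, mem_union, mem_filter]
  have hmemS : ∀ e, o.head e ∉ S → (e ∈ F1 ↔ e ∈ F) := by
    intro e he
    rw [hF1]
    constructor
    · rintro (h | h | h)
      · exact h.1
      · exact absurd ((hK e).1 h).2.1 he
      · exact absurd (hJFi e h).2 he
    · intro h
      exact Or.inl ⟨h, he⟩
  have hfF1 : f ∉ F1 := by
    rw [hF1]
    rintro (h | h | h)
    · exact hfF h.1
    · exact ((hK f).1 h).2.2 rfl
    · exact hfS (hJFi f h).1
  have hSol1 : Sol o u R F1 := by
    refine ⟨hSol.1, ?_, ?_⟩
    · refine l13_glue (J := F) (S := S) (Q' := R) ?_ ?_ ?_ hSol.2.1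
      · intro e he h1
        exact (hmemS e h1).2 he
      · intro r hr _
        exact hr
      · intro x hx
        obtain ⟨r', hr', h1⟩ := hFr x hx
        have h1' : Rch o F1 r' x := rch_mono (fun e he => (hF1 e).2 (Or.inr (Or.inr he))) h1
        rcases mem_union.1 hr' with hr' | hr'
        · have h2 := (mem_inter.1 hr').1
          rw [mem_singleton] at h2
          subst h2
          exact ⟨r', hvR, h1'⟩
        · obtain ⟨e, he, rfl⟩ := mem_image.1 hr'
          have hes : stepRel o.tail o.head F1 (o.tail e) (o.head e) :=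
            ⟨e, (hF1 e).2 (Or.inr (Or.inl he)), rfl, rfl⟩
          by_cases hy : o.tail e ∈ M
          · -- the tail lies in `X \ S`
            have hyX : o.tail e ∈ X := hcl e (hSX ((hK e).1 he).2.1) hy
            refine ⟨v, hvR, (ReflTransGen.tail (rch_of (mem_Dsc.1 hy) ?_) hes).trans h1'⟩
            -- all vertices on the path lie in `X`
            have hX : ∀ z, Rch o F v z → Rch o F z (o.tail e) → z ∈ X := by
              intro z hz1 hz2
              induction hz2 using ReflTransGen.head_induction_on with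
              | refl => exact hyX
              | @head a c h3 h4 ih =>
                obtain ⟨g, hg, h5, h6⟩ := h3
                have h7 := ih (hz1.tail ⟨g, hg, h5, h6⟩)
                rw [← h5]
                refine hcl g (by rw [h6]; exact h7) ?_
                rw [h5]
                exact mem_Dsc.2 hz1
            -- and outside `S`
            have hnS : ∀ z, Rch o F v z → Rch o F z (o.tail e) → z ∉ S := by
              intro z hz1 hz2
              induction hz2 using ReflTransGen.head_induction_on with
              | refl => exact ((hK e).1 he).1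
              | @head a c h3 h4 ih =>
                obtain ⟨g, hg, h5, h6⟩ := h3
                intro h8
                refine ih (hz1.tail ⟨g, hg, h5, h6⟩) ?_
                rw [← h6]
                refine hScl g (by rw [h5]; exact h8) ?_
                rw [h6]
                exact hX c (hz1.tail ⟨g, hg, h5, h6⟩) h4
            intro g hg h2 h3
            refine ⟨(hF1 g).2 (Or.inl ⟨hg, ?_⟩), rfl, rfl⟩
            exact hnS _ (h2.tail ⟨g, hg, rfl, rfl⟩) h3
          · obtain ⟨r, hr, h2⟩ := l13_out hSol hy
            refine ⟨r, mem_of_mem_erase hr, ?_⟩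
            have h3 : Rch o F1 r (o.tail e) := rch_mono (by
              intro g hg
              rw [mem_filter] at hg
              exact (hF1 g).2 (Or.inl ⟨hg.1, fun h => hg.2 (hSM h)⟩)) h2
            exact (ReflTransGen.tail h3 hes).trans h1'
    · have key := l13_glue (o := o) (J := univ \ F) (K := univ \ F1) (S := S) (Q := {u})
        (Q' := {u}) ?_ ?_ ?_ (fun x => ⟨u, mem_singleton_self _, hSol.2.2 x⟩)
      · intro x
        obtain ⟨r, hr, h1⟩ := key x
        rw [mem_singleton] at hr
        subst hr
        exact h1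
      · intro e he h1
        refine mem_sdiff.2 ⟨mem_univ _, ?_⟩
        rw [hmemS e h1]
        exact (mem_sdiff.1 he).2
      · intro r hr _
        exact hr
      · intro x hx
        obtain ⟨r, hr, h1⟩ := hTr x hx
        rw [mem_singleton] at hr
        subst hr
        refine ⟨u, mem_singleton_self _, ?_⟩
        have h2 : Rch o (univ \ F1) r x := by
          refine rch_mono ?_ h1
          intro e he
          refine mem_sdiff.2 ⟨mem_univ _, ?_⟩
          rw [hF1]
          rintro (h | h | h)
          · exact h.2 (hJTi e he).2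
          · exact ((hK e).1 h).1 (hJTi e he).1
          · exact disjoint_left.1 hdis he h
        have h3 : Rch o (univ \ F1) u (o.tail f) := by
          refine rch_of hut ?_
          intro e he h4 h5
          refine ⟨mem_sdiff.2 ⟨mem_univ _, ?_⟩, rfl, rfl⟩
          rw [hmemS]
          · exact (mem_sdiff.1 he).2
          · intro h6
            -- a vertex of `X` before `r` on the path
            have h7 : Rch o (univ \ F) (o.head e) r := ReflTransGen.tail h5 hfstep
            have h8 := htop _ (hSX h6) h7
            rw [h8] at h5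
            have h9 := hP.tA _ _ h5 (ReflTransGen.single hfstep)
            exact k1_loop o f (h9.symm.trans hfh.symm)
        exact (ReflTransGen.tail h3 ⟨f, mem_sdiff.2 ⟨mem_univ _, hfF1⟩, rfl, hfh⟩).trans h2
  exact hRed V I H s o u R F v o u R F1 v e' hC hMin hSol1 hvR hvM rfl (Or.inl rfl)
    (fun e _ => ⟨rfl, rfl⟩) (fun e he => hmemS e (fun h => he (hSM h)))
    ((hF1 e').2 (Or.inr (Or.inl he'K))) he't (hSM ((hS _).2 he'S))

end ARB.KS
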