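import Pool.Agent.H46.ARB1.Core

/-!
# ARB1, row R14: no undirected element leaves the core from the reach of `v`
-/

set_option autoImplicit false
set_option linter.unusedSectionVars false

namespace ARB.KS

open Finset Relation

section

variable {V I : Type} [Fintype V] [DecidableEq V] [Fintype I] [DecidableEq I]
  {H : MixedGraph V I}

theorem same_or_rev (o o1 : Orientation H) (e : I) :
    (o1.tail e = o.tail e ∧ o1.head e = o.head e) ∨
      (o1.tail e = o.head e ∧ o1.head e = o.tail e) := by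
  rcases o.ok e with ⟨h1, h2⟩ | ⟨_, h1, h2⟩ <;> rcases o1.ok e with ⟨h3, h4⟩ | ⟨_, h3, h4⟩ <;>
    rw [h1, h2, h3, h4] <;> simp

theorem inside_iff (o o1 : Orientation H) (e : I) (X : Finset V) :
    (o1.tail e ∈ X ∧ o1.head e ∈ X) ↔ (o.tail e ∈ X ∧ o.head e ∈ X) := by
  rw [k1_ends, k1_ends]

/-- entering elements of `Z ⊆ S`: either inside `S` or entering `S`. -/
theorem din_split (o : Orientation H) (S Z : Finset V) (hZ : Z ⊆ S) :
    din o.tail o.head univ Z = din o.tail o.head (ins o S) Z +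
      (univ.filter (fun e => o.tail e ∉ S ∧ o.head e ∈ Z)).card := by
  unfold din
  rw [← card_union_of_disjoint]
  · congr 1
    ext e
    simp only [mem_filter, mem_univ, true_and, mem_union, mem_ins]
    constructor
    · rintro ⟨h1, h2⟩
      by_cases h3 : o.tail e ∈ S
      · exact Or.inl ⟨⟨h3, hZ h2⟩, h1, h2⟩
      · exact Or.inr ⟨h3, h2⟩
    · rintro (⟨_, h⟩ | ⟨h1, h2⟩)
      · exact h
      · exact ⟨fun h => h1 (hZ h), h2⟩
  · rw [disjoint_left]
    intro e he he'
    rw [mem_filter] at he he'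
    exact he'.2.1 (mem_ins.1 he.1).1

end

theorem sL2 (hMove : SMove) (hSplit : SSplit) (hEsc : SEsc) (hL3 : SL3) (hRed : SRed) : SL2 := by
  classical
  intro V I _ _ _ _ H s o u R F v B g hC hT hK e heE hpB hvp hp'M
  by_contra hp'B
  have hs := hT.1.sol
  have hP := sSolP' hs
  have hvR := hT.1.vR
  set M := Dsc o F v with hM
  have hu : u ∉ M := hL3 V I H s o u R F v hC hT
  have hvM : v ∈ M := dsc_root o F v
  have hBM : B ⊆ M := hK.sub
  have hRM : ∀ r ∈ R, r ∈ M → r = v := fun r h1 h2 => root_eq hP hvR h1 h2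
  -- the set X
  set X : Finset V := univ.filter (fun x => x ∈ M ∧ (x ∈ B ∨ Rch o (ins o M) x (o.head e)))
    with hX
  have mX : ∀ x, x ∈ X ↔ x ∈ M ∧ (x ∈ B ∨ Rch o (ins o M) x (o.head e)) := by
    intro x; simp [hX]
  have hXM : X ⊆ M := fun x hx => ((mX x).1 hx).1
  have hBX : B ⊆ X := fun x hx => (mX x).2 ⟨hBM hx, Or.inl hx⟩
  have hcl : ∀ e, o.head e ∈ X → o.tail e ∈ M → o.tail e ∈ X := by
    intro e1 h1 h2
    rw [mX] at h1 ⊢
    refine ⟨h2, ?_⟩
    rcases h1.2 with h3 | h3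
    · exact Or.inl (hK.cl e1 h3 h2)
    · exact Or.inr (ReflTransGen.head ⟨e1, mem_ins.2 ⟨h2, h1.1⟩, rfl, rfl⟩ h3)
  have huX : u ∉ X := fun h => hu (hXM h)
  obtain ⟨f, hfF, hf1, hf2, hf3, hf4, hf5⟩ := first_in hs huX (hBX hK.vB)
  have hfM : o.tail f ∉ M := fun h => hf1 (hcl f hf2 h)
  have hp'X : o.head e ∈ X := (mX _).2 ⟨hp'M, Or.inr ReflTransGen.refl⟩
  obtain ⟨e', he'1, he'2, he'3⟩ := hK.rl (o.head e) (mem_sdiff.2 ⟨hp'M, hp'B⟩)
  have he'X : o.head e' ∈ X := by
    refine (mX _).2 ⟨(mem_sdiff.1 he'2).1, Or.inr (rch_mono ?_ he'3)⟩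
    intro e1 h1
    rw [mem_ins] at h1 ⊢
    exact ⟨(mem_sdiff.1 h1.1).1, (mem_sdiff.1 h1.2).1⟩
  have htB : o.head f ∉ B := by
    intro h
    have : f = g := hK.gu f hfM h
    subst this
    exact hf4 _ (hK.ord e' he'1 he'2) he'X
  have htp : Rch o (ins o M) (o.head f) (o.head e) := by
    rcases ((mX _).1 hf2).2 with h | h
    · exact absurd h htB
    · exact h
  -- the set S
  set S : Finset V := univ.filter (fun x => Rch o (ins o X) (o.head f) x) with hS
  have mS : ∀ x, x ∈ S ↔ Rch o (ins o X) (o.head f) x := by intro x; simp [hS]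
  have hSXB : ∀ x, Rch o (ins o X) (o.head f) x → x ∈ X ∧ x ∉ B := by
    intro x hx
    induction hx with
    | refl => exact ⟨hf2, htB⟩
    | @tail b c h1 h2 ih =>
      obtain ⟨e1, h3, h4, h5⟩ := h2
      rw [mem_ins] at h3
      refine ⟨by rw [← h5]; exact h3.2, fun h6 => ih.2 ?_⟩
      rw [← h4]
      exact hK.cl e1 (by rw [h5]; exact h6) (hXM h3.1)
  have hSX : S ⊆ X := fun x hx => (hSXB x ((mS x).1 hx)).1
  have hSB : ∀ x ∈ S, x ∉ B := fun x hx => (hSXB x ((mS x).1 hx)).2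
  have htS : o.head f ∈ S := (mS _).2 ReflTransGen.refl
  have hp'S : o.head e ∈ S := by
    rw [mS]
    refine rch_of htp ?_
    intro e1 h1 _ h2
    rw [mem_ins] at h1
    exact ⟨mem_ins.2 ⟨(mX _).2 ⟨h1.1, Or.inr (ReflTransGen.head ⟨e1, mem_ins.2 h1, rfl, rfl⟩ h2)⟩,
      (mX _).2 ⟨h1.2, Or.inr h2⟩⟩, rfl, rfl⟩
  have hSsucc : ∀ e1, o.tail e1 ∈ S → o.head e1 ∈ X → o.head e1 ∈ S := by
    intro e1 h1 h2
    rw [mS] at h1 ⊢
    exact h1.tail ⟨e1, mem_ins.2 ⟨hSX ((mS _).2 h1), h2⟩, rfl, rfl⟩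
  -- the move
  have hpath : ReflTransGen (fun a b => ∃ e1, e1 ∉ univ.filter
      (fun e1 => ¬ ((o.tail e1 ∈ B ∧ o.head e1 ∈ B) ∨ e1 = e)) ∧
      H.isEdge e1 = true ∧ o.tail e1 = a ∧ o.head e1 = b) v (o.head e) := by
    have h1 := (hEsc V I H s o u R F v o u R v (o.tail e) hC hT (fun _ _ => ⟨rfl, rfl⟩) hs.1
      (Or.inr hvR) hvp (hBM hpB)).2
    have h2 : ∀ a, ERch o M a (o.tail e) → ReflTransGen (fun a b => ∃ e1, e1 ∉ univ.filter
      (fun e1 => ¬ ((o.tail e1 ∈ B ∧ o.head e1 ∈ B) ∨ e1 = e)) ∧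
      H.isEdge e1 = true ∧ o.tail e1 = a ∧ o.head e1 = b) a (o.tail e) ∧ a ∈ B := by
      intro a ha
      induction ha using ReflTransGen.head_induction_on with
      | refl => exact ⟨ReflTransGen.refl, hpB⟩
      | @head a c h3 h4 ih =>
        obtain ⟨e1, h5, h6, h7, h8, h9⟩ := h3
        have haB : a ∈ B := by
          rw [← h6]
          exact hK.cl e1 (by rw [h7]; exact ih.2) (by rw [h6]; exact h8)
        refine ⟨ReflTransGen.head ⟨e1, ?_, h5, h6, h7⟩ ih.1, haB⟩
        simp only [mem_filter, mem_univ, true_and, not_not]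
        exact Or.inl ⟨by rw [h6]; exact haB, by rw [h7]; exact ih.2⟩
    refine (h2 v h1).1.tail ⟨e, ?_, heE, rfl, rfl⟩
    simp
  obtain ⟨o1, ho1, hind⟩ := hMove V I H _ o v (o.head e) hpath
  have hsame : ∀ e1, ¬ (o.tail e1 ∈ B ∧ o.head e1 ∈ B) → e1 ≠ e →
      o1.tail e1 = o.tail e1 ∧ o1.head e1 = o.head e1 := by
    intro e1 h1 h2
    apply ho1
    simp only [mem_filter, mem_univ, true_and]
    rintro (h3 | h3)
    · exact h1 h3
    · exact h2 h3
  have hp'v : o.head e ≠ v := fun h => hp'B (by rw [h]; exact hK.vB)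
  have hp'R : o.head e ∉ R := fun h => hp'v (hRM _ h hp'M)
  have hTok1 : Tok o1 u (insert (o.head e) (R.erase v)) := by
    intro x
    have h1 := hs.1 x
    have h2 := hind x
    by_cases hx1 : x = o.head e
    · have h3 : x ≠ v := by rw [hx1]; exact hp'v
      have h4 : x ∉ R := by rw [hx1]; exact hp'R
      have h5 : x ∈ insert (o.head e) (R.erase v) := by rw [hx1]; exact mem_insert_self _ _
      rw [if_neg h4] at h1
      rw [if_pos hx1, if_neg h3] at h2
      rw [if_pos h5]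
      omega
    · by_cases hx2 : x = v
      · have h4 : x ∈ R := by rw [hx2]; exact hvR
        have h5 : x ∉ insert (o.head e) (R.erase v) := by
          rw [mem_insert, mem_erase]
          rintro (h | h)
          · exact hx1 h
          · exact h.1 hx2
        rw [if_pos h4] at h1
        rw [if_neg hx1, if_pos hx2] at h2
        rw [if_neg h5]
        omega
      · have h5 : x ∈ insert (o.head e) (R.erase v) ↔ x ∈ R := by
          rw [mem_insert, mem_erase]
          constructor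
          · rintro (h | h)
            · exact absurd h hx1
            · exact h.2
          · exact fun h => Or.inr ⟨hx2, h⟩
        rw [if_neg hx1, if_neg hx2] at h2
        by_cases h6 : x ∈ R
        · rw [if_pos h6] at h1
          rw [if_pos (h5.2 h6)]
          omega
        · rw [if_neg h6] at h1
          rw [if_neg (fun h => h6 (h5.1 h))]
          omega
  set R1 := insert (o.head e) (R.erase v) with hR1
  have hR1M : ∀ r ∈ R1, r ∈ M → r = o.head e := by
    intro r h1 h2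
    rw [hR1, mem_insert, mem_erase] at h1
    rcases h1 with h1 | h1
    · exact h1
    · exact absurd (hRM r h1.2 h2) h1.1
  have hR1B : (R1 ∩ B).card = 0 := by
    rw [card_eq_zero, eq_empty_iff_forall_notMem]
    intro r hr
    rw [mem_inter] at hr
    have := hR1M r hr.1 (hBM hr.2)
    exact hp'B (by rw [← this]; exact hr.2)
  have hgM := hK.gt
  have hgB := hK.gh
  have hge : g ≠ e := fun h => hgM (by rw [h]; exact hBM hpB)
  have hg' : o1.tail g = o.tail g ∧ o1.head g = o.head g :=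
    hsame g (fun h => hgM (hBM h.1)) hge
  have hfe : f ≠ e := fun h => hfM (by rw [h]; exact hBM hpB)
  have hf' : o1.tail f = o.tail f ∧ o1.head f = o.head f :=
    hsame f (fun h => hfM (hBM h.1)) hfe
  -- elements entering B in o1
  have hentB : ∀ e1, o1.tail e1 ∉ B → o1.head e1 ∈ B → e1 = g ∨ e1 = e := by
    intro e1 h1 h2
    by_cases h3 : e1 = e
    · exact Or.inr h3
    · have h4 : ¬ (o.tail e1 ∈ B ∧ o.head e1 ∈ B) := by
        rw [← inside_iff o o1]
        exact fun h => h1 h.1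
      obtain ⟨h5, h6⟩ := hsame e1 h4 h3
      rw [h5] at h1
      rw [h6] at h2
      by_cases h7 : o.tail e1 ∈ M
      · exact absurd (hK.cl e1 h2 h7) h1
      · exact Or.inl (hK.gu e1 h7 h2)
  have hrev : o1.tail e = o.head e ∧ o1.head e = o.tail e := by
    rcases same_or_rev o o1 e with h | h
    · exfalso
      have h1 := sCnt' hTok1 B
      rw [if_neg (fun h => hu (hBM h)), hR1B] at h1
      have h2 := hK.zero
      have h3 : din o1.tail o1.head univ B ≤ 1 := by
        unfold din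
        rw [card_le_one]
        have key : ∀ e1 ∈ univ.filter (fun e => o1.tail e ∉ B ∧ o1.head e ∈ B), e1 = g := by
          intro e1 h4
          rw [mem_filter] at h4
          rcases hentB e1 h4.2.1 h4.2.2 with h5 | h5
          · exact h5
          · exfalso
            rw [h5, h.1] at h4
            exact h4.2.1 hpB
        intro a ha b hb
        rw [key a ha, key b hb]
      omega
    · exact h
  -- split of B
  obtain ⟨JTB, JFB, hB1, hB2, hB3, hB4, hB5⟩ := hSplit V I H o1 (ins o1 B) B {o.tail e}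
    {o.head g} (fun e1 h => mem_ins.1 h) (by simpa using hpB) (by simpa using hgB)
    (singleton_nonempty _) (singleton_nonempty _) (by
      intro Z hZ hZB
      simp only [disjoint_singleton_left]
      have h1 := sCnt' hTok1 Z
      have h2 : (R1 ∩ Z).card = 0 := by
        have : (R1 ∩ Z).card ≤ (R1 ∩ B).card := card_le_card (inter_subset_inter_left hZB)
        omega
      rw [if_neg (fun h => hu (hBM (hZB h))), h2, din_split o1 B Z hZB] at h1
      have h3 := hC.be Z hZ
      have h4 : (univ.filter (fun e => o1.tail e ∉ B ∧ o1.head e ∈ Z)).card ≤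
          (if o.tail e ∈ Z then 1 else 0) + (if o.head g ∈ Z then 1 else 0) := by
        have h5 : univ.filter (fun e => o1.tail e ∉ B ∧ o1.head e ∈ Z) ⊆
            (if o.tail e ∈ Z then {e} else ∅) ∪ (if o.head g ∈ Z then {g} else ∅) := by
          intro e1 h6
          rw [mem_filter] at h6
          rcases hentB e1 h6.2.1 (hZB h6.2.2) with h7 | h7
          · subst h7
            rw [hg'.2] at h6
            rw [mem_union, if_pos h6.2.2]
            simp
          · subst h7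
            rw [hrev.2] at h6
            rw [mem_union, if_pos h6.2.2]
            simp
        refine (card_le_card h5).trans ((card_union_le _ _).trans ?_)
        split_ifs <;> simp
      by_cases h5 : o.tail e ∈ Z <;> by_cases h6 : o.head g ∈ Z <;>
        simp only [h5, h6, if_true, if_false, not_true_eq_false, not_false_eq_true] at h4 ⊢ <;>
        omega)
  -- split of S
  have hSu : ∀ e1, (o.tail e1 ∈ S ∨ o.head e1 ∈ S) → e1 ≠ e →
      o1.tail e1 = o.tail e1 ∧ o1.head e1 = o.head e1 := by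
    intro e1 h1 h2
    refine hsame e1 ?_ h2
    rintro ⟨h3, h4⟩
    rcases h1 with h1 | h1
    · exact hSB _ h1 h3
    · exact hSB _ h1 h4
  have hSi : ∀ x, Rch o (ins o X) (o.head f) x → Rch o1 (ins o1 S) (o.head f) x := by
    intro x hx
    induction hx with
    | refl => exact ReflTransGen.refl
    | @tail b c h1 h2 ih =>
      obtain ⟨e1, h3, h4, h5⟩ := h2
      have hbS : b ∈ S := (mS b).2 h1
      have hcS : c ∈ S := (mS c).2 (h1.tail ⟨e1, h3, h4, h5⟩)
      have h6 : e1 ≠ e := by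
        rintro rfl
        exact hSB b hbS (by rw [← h4]; exact hpB)
      obtain ⟨h7, h8⟩ := hSu e1 (Or.inl (by rw [h4]; exact hbS)) h6
      exact ih.tail ⟨e1, mem_ins.2 ⟨by rw [h7, h4]; exact hbS, by rw [h8, h5]; exact hcS⟩,
        by rw [h7, h4], by rw [h8, h5]⟩
  set Ent : Finset I := univ.filter (fun e1 => o1.tail e1 ∉ S ∧ o1.head e1 ∈ S ∧ e1 ≠ f) with hEnt
  have mEnt : ∀ e1, e1 ∈ Ent ↔ o1.tail e1 ∉ S ∧ o1.head e1 ∈ S ∧ e1 ≠ f := by
    intro e1; simp [hEnt]
  obtain ⟨JTS, JFS, hS1, hS2, hS3, hS4, hS5⟩ := hSplit V I H o1 (ins o1 S) S {o.head f}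
    (insert (o.head e) (Ent.image o1.head)) (fun e1 h => mem_ins.1 h) (by simpa using htS) (by
      intro x hx
      rw [mem_insert, mem_image] at hx
      rcases hx with rfl | ⟨e1, h1, rfl⟩
      · exact hp'S
      · exact ((mEnt e1).1 h1).2.1)
    (singleton_nonempty _) (insert_nonempty _ _) (by
      intro Z hZ hZS
      simp only [disjoint_singleton_left]
      by_cases hd : Disjoint (insert (o.head e) (Ent.image o1.head)) Z
      · rw [if_pos hd]
        rw [disjoint_left] at hd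
        have h1 := sCnt' hTok1 Z
        have h2 : (R1 ∩ Z).card = 0 := by
          rw [card_eq_zero, eq_empty_iff_forall_notMem]
          intro r hr
          rw [mem_inter] at hr
          have := hR1M r hr.1 (hXM (hSX (hZS hr.2)))
          exact hd (mem_insert_self _ _) (by rw [← this]; exact hr.2)
        rw [if_neg (fun h => huX (hSX (hZS h))), h2, din_split o1 S Z hZS] at h1
        have h3 := hC.be Z hZ
        have h4 : (univ.filter (fun e => o1.tail e ∉ S ∧ o1.head e ∈ Z)).card ≤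
            (if o.head f ∈ Z then 1 else 0) := by
          have h5 : univ.filter (fun e => o1.tail e ∉ S ∧ o1.head e ∈ Z) ⊆
              (if o.head f ∈ Z then {f} else ∅) := by
            intro e1 h6
            rw [mem_filter] at h6
            have h7 : e1 = f := by
              by_contra h8
              exact hd (mem_insert_of_mem (mem_image.2 ⟨e1, (mEnt e1).2
                ⟨h6.2.1, hZS h6.2.2, h8⟩, rfl⟩)) h6.2.2
            subst h7
            rw [hf'.2] at h6
            rw [if_pos h6.2.2]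
            simp
          refine (card_le_card h5).trans ?_
          split_ifs <;> simp
        by_cases h5 : o.head f ∈ Z
        · simp only [h5, if_true, not_true_eq_false, if_false] at h4 ⊢
          omega
        · simp only [h5, if_false, not_false_eq_true, if_true] at h4 ⊢
          omega
      · rw [if_neg hd]
        by_cases h5 : o.head f ∈ Z
        · simp [h5]
        · simp only [h5, not_false_eq_true, if_true, add_zero]
          obtain ⟨x, hx⟩ := hZ
          have h6 := hSi x ((mS x).1 (hZS hx))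
          obtain ⟨e1, h7, h8, h9, -, -⟩ := rch_last h6 h5 hx
          exact din_pos h7 h8 h9)
  -- the new branching
  set F1 : Finset I := F.filter (fun e1 => o.head e1 ∉ S ∧ o.head e1 ∉ B) ∪ Ent ∪ JFS ∪ {g} ∪ JFB
    with hF1
  have mF1 : ∀ e1, e1 ∈ F1 ↔ ((((e1 ∈ F ∧ o.head e1 ∉ S ∧ o.head e1 ∉ B) ∨ e1 ∈ Ent) ∨
      e1 ∈ JFS) ∨ e1 = g) ∨ e1 ∈ JFB := by
    intro e1; simp only [hF1, mem_union, mem_filter, mem_singleton]
  have hJFS : ∀ e1 ∈ JFS, o1.tail e1 ∈ S ∧ o1.head e1 ∈ S := fun e1 h => mem_ins.1 (hS2 h)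
  have hJTS : ∀ e1 ∈ JTS, o1.tail e1 ∈ S ∧ o1.head e1 ∈ S := fun e1 h => mem_ins.1 (hS1 h)
  have hJFB : ∀ e1 ∈ JFB, o1.tail e1 ∈ B ∧ o1.head e1 ∈ B := fun e1 h => mem_ins.1 (hB2 h)
  have hJTB : ∀ e1 ∈ JTB, o1.tail e1 ∈ B ∧ o1.head e1 ∈ B := fun e1 h => mem_ins.1 (hB1 h)
  -- unchanged elements
  have hunch : ∀ e1, o.head e1 ∉ S → o.head e1 ∉ B →
      o1.tail e1 = o.tail e1 ∧ o1.head e1 = o.head e1 := by
    intro e1 h1 h2
    refine hsame e1 (fun h => h2 h.2) ?_
    rintro rfl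
    exact h1 hp'S
  have hnF1 : ∀ e1, e1 ∉ F → o.head e1 ∉ S → o.head e1 ∉ B → e1 ∉ F1 := by
    intro e1 h1 h2 h3 h4
    obtain ⟨h5, h6⟩ := hunch e1 h2 h3
    rw [mF1] at h4
    rcases h4 with (((h4 | h4) | h4) | h4) | h4
    · exact h1 h4.1
    · exact h2 (by rw [← h6]; exact ((mEnt e1).1 h4).2.1)
    · exact h2 (by rw [← h6]; exact (hJFS e1 h4).2)
    · exact h3 (by rw [h4]; exact hgB)
    · exact h3 (by rw [← h6]; exact (hJFB e1 h4).2)
  have hgS : o.head g ∉ S := fun h => hSB _ h hgB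
  have hfg : f ≠ g := fun h => htB (by rw [h]; exact hgB)
  have hfnF1 : f ∉ F1 := by
    intro h4
    rw [mF1] at h4
    rcases h4 with (((h4 | h4) | h4) | h4) | h4
    · exact hfF h4.1
    · exact ((mEnt f).1 h4).2.2 rfl
    · have := (hJFS f h4).1
      rw [hf'.1] at this
      exact hf1 (hSX this)
    · exact hfg h4
    · have := (hJFB f h4).2
      rw [hf'.2] at this
      exact htB this
  have henF1 : e ∉ F1 := by
    intro h4
    rw [mF1] at h4
    rcases h4 with (((h4 | h4) | h4) | h4) | h4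
    · exact h4.2.1 hp'S
    · have := ((mEnt e).1 h4).2.1
      rw [hrev.2] at this
      exact hSB _ this hpB
    · have := (hJFS e h4).2
      rw [hrev.2] at this
      exact hSB _ this hpB
    · exact hge h4.symm
    · have := (hJFB e h4).1
      rw [hrev.1] at this
      exact hp'B this
  have hTSn : ∀ e1 ∈ JTS, e1 ∈ univ \ F1 := by
    intro e1 h1
    rw [mem_sdiff]
    refine ⟨mem_univ _, fun h4 => ?_⟩
    have h2 := hJTS e1 h1
    have h3 := (inside_iff o o1 e1 S).1 h2
    rw [mF1] at h4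
    rcases h4 with (((h4 | h4) | h4) | h4) | h4
    · exact h4.2.1 h3.2
    · exact ((mEnt e1).1 h4).1 h2.1
    · exact disjoint_left.1 hS3 h1 h4
    · rw [h4] at h3
      exact hgS h3.2
    · exact hSB _ h2.1 (hJFB e1 h4).1
  have hTBn : ∀ e1 ∈ JTB, e1 ∈ univ \ F1 := by
    intro e1 h1
    rw [mem_sdiff]
    refine ⟨mem_univ _, fun h4 => ?_⟩
    have h2 := hJTB e1 h1
    have h3 := (inside_iff o o1 e1 B).1 h2
    rw [mF1] at h4
    rcases h4 with (((h4 | h4) | h4) | h4) | h4
    · exact h4.2.2 h3.2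
    · exact hSB _ ((mEnt e1).1 h4).2.1 h2.2
    · exact hSB _ (hJFS e1 h4).1 h2.1
    · rw [h4] at h3
      exact hgM (hBM h3.1)
    · exact disjoint_left.1 hB3 h1 h4
  -- reach of the arborescence
  have hT1 : ∀ x, Rch o1 (univ \ F1) u x := by
    have h1 : Rch o1 (univ \ F1) u (o.tail f) := by
      refine rch_of (hs.2.2 (o.tail f)) ?_
      intro e1 h1 _ h2
      have h3 := hf4 _ h2
      have h4 : o.head e1 ∉ S := fun h => h3 (hSX h)
      have h5 : o.head e1 ∉ B := fun h => h3 (hBX h)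
      obtain ⟨h6, h7⟩ := hunch e1 h4 h5
      exact ⟨mem_sdiff.2 ⟨mem_univ _, hnF1 e1 (mem_sdiff.1 h1).2 h4 h5⟩, h6, h7⟩
    have h2 : Rch o1 (univ \ F1) u (o.head f) :=
      h1.tail ⟨f, mem_sdiff.2 ⟨mem_univ _, hfnF1⟩, hf'.1, hf'.2⟩
    have h3 : ∀ x ∈ S, Rch o1 (univ \ F1) u x := by
      intro x hx
      obtain ⟨r, hr, h4⟩ := hS4 x hx
      rw [mem_singleton] at hr
      subst hr
      exact h2.trans (rch_mono hTSn h4)
    have h4 : Rch o1 (univ \ F1) u (o.tail e) :=
      (h3 _ hp'S).tail ⟨e, mem_sdiff.2 ⟨mem_univ _, henF1⟩, hrev.1, hrev.2⟩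
    have h5 : ∀ x ∈ B, Rch o1 (univ \ F1) u x := by
      intro x hx
      obtain ⟨r, hr, h6⟩ := hB4 x hx
      rw [mem_singleton] at hr
      subst hr
      exact h4.trans (rch_mono hTBn h6)
    intro x
    have h6 := hs.2.2 x
    induction h6 with
    | refl => exact ReflTransGen.refl
    | @tail b c h7 h8 ih =>
      by_cases hc1 : c ∈ S
      · exact h3 c hc1
      by_cases hc2 : c ∈ B
      · exact h5 c hc2
      obtain ⟨e1, h9, h10, h11⟩ := h8
      rw [← h11] at hc1 hc2
      obtain ⟨h12, h13⟩ := hunch e1 hc1 hc2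
      exact ih.tail ⟨e1, mem_sdiff.2 ⟨mem_univ _, hnF1 e1 (mem_sdiff.1 h9).2 hc1 hc2⟩,
        by rw [h12, h10], by rw [h13, h11]⟩
  -- reach of the branching
  have hstep : ∀ e1 ∈ F, o.head e1 ∉ S → o.head e1 ∉ B → stepRel o1.tail o1.head F1 (o.tail e1)
      (o.head e1) := by
    intro e1 h1 h2 h3
    obtain ⟨h4, h5⟩ := hunch e1 h2 h3
    exact ⟨e1, (mF1 e1).2 (Or.inl (Or.inl (Or.inl (Or.inl ⟨h1, h2, h3⟩)))), h4, h5⟩
  have hFout : ∀ x, x ∉ M → ∃ r ∈ R1, Rch o1 F1 r x := by
    intro x hx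
    obtain ⟨r, hr, h1⟩ := hs.2.1 x
    have hrv : r ≠ v := by
      rintro rfl
      exact hx (mem_Dsc.2 h1)
    refine ⟨r, mem_insert_of_mem (mem_erase.2 ⟨hrv, hr⟩), ?_⟩
    refine rch_of h1 ?_
    intro e1 h2 _ h3
    have h4 : o.head e1 ∉ M := fun h => hx (mem_Dsc.2 ((mem_Dsc.1 h).trans h3))
    have h5 : o.head e1 ∉ S := fun h => h4 (hXM (hSX h))
    have h6 : o.head e1 ∉ B := fun h => h4 (hBM h)
    obtain ⟨h7, h8⟩ := hunch e1 h5 h6
    exact ⟨(mF1 e1).2 (Or.inl (Or.inl (Or.inl (Or.inl ⟨h2, h5, h6⟩)))), h7, h8⟩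
  have hFB : ∀ x ∈ B, ∃ r ∈ R1, Rch o1 F1 r x := by
    intro x hx
    obtain ⟨r, hr, h1⟩ := hFout _ hgM
    obtain ⟨r', hr', h2⟩ := hB5 x hx
    rw [mem_singleton] at hr'
    subst hr'
    refine ⟨r, hr, (h1.tail ⟨g, (mF1 g).2 (Or.inl (Or.inr rfl)), hg'.1, hg'.2⟩).trans
      (rch_mono ?_ h2)⟩
    exact fun e1 h3 => (mF1 e1).2 (Or.inr h3)
  have hFX : ∀ x, Rch o F v x → x ∈ X → x ∉ S → ∃ r ∈ R1, Rch o1 F1 r x := by
    intro x hx
    induction hx with
    | refl => intro _ _; exact hFB v hK.vB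
    | @tail b c h1 h2 ih =>
      intro hc1 hc2
      by_cases hc3 : c ∈ B
      · exact hFB c hc3
      obtain ⟨e1, h3, h4, h5⟩ := h2
      have hbX : b ∈ X := by
        rw [← h4]
        exact hcl e1 (by rw [h5]; exact hc1) (by rw [h4]; exact mem_Dsc.2 h1)
      have hbS : b ∉ S := by
        intro hb
        apply hc2
        rw [← h5]
        exact hSsucc e1 (by rw [h4]; exact hb) (by rw [h5]; exact hc1)
      obtain ⟨r, hr, h6⟩ := ih hbX hbS
      have h7 := hstep e1 h3 (by rw [h5]; exact hc2) (by rw [h5]; exact hc3)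
      rw [h4, h5] at h7
      exact ⟨r, hr, h6.tail h7⟩
  have hFS : ∀ x ∈ S, ∃ r ∈ R1, Rch o1 F1 r x := by
    intro x hx
    obtain ⟨r, hr, h1⟩ := hS5 x hx
    have h2 : Rch o1 F1 r x :=
      rch_mono (fun e1 h3 => (mF1 e1).2 (Or.inl (Or.inl (Or.inr h3)))) h1
    rw [mem_insert, mem_image] at hr
    rcases hr with rfl | ⟨e2, h3, rfl⟩
    · exact ⟨_, mem_insert_self _ _, h2⟩
    · have h4 := (mEnt e2).1 h3
      have h5 : e2 ≠ e := by
        rintro rfl
        rw [hrev.2] at h4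
        exact hSB _ h4.2.1 hpB
      have h6 : ¬ (o.tail e2 ∈ B ∧ o.head e2 ∈ B) := by
        rw [← inside_iff o o1]
        exact fun h => hSB _ h4.2.1 h.2
      obtain ⟨h7, h8⟩ := hsame e2 h6 h5
      have h9 : ∃ r ∈ R1, Rch o1 F1 r (o.tail e2) := by
        by_cases h10 : o.tail e2 ∈ M
        · have h11 : o.tail e2 ∈ X := hcl e2 (by rw [← h8]; exact hSX h4.2.1) h10
          exact hFX _ (mem_Dsc.1 h10) h11 (by rw [← h7]; exact h4.1)
        · exact hFout _ h10
      obtain ⟨r, hr, h10⟩ := h9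
      exact ⟨r, hr, (h10.tail ⟨e2, (mF1 e2).2 (Or.inl (Or.inl (Or.inl (Or.inr h3)))), h7, rfl⟩).trans
        h2⟩
  have hF1r : ∀ x, ∃ r ∈ R1, Rch o1 F1 r x := by
    intro x
    obtain ⟨r0, hr0, h1⟩ := hs.2.1 x
    induction h1 with
    | refl =>
      by_cases h2 : r0 = v
      · rw [h2]; exact hFB v hK.vB
      · exact ⟨r0, mem_insert_of_mem (mem_erase.2 ⟨h2, hr0⟩), ReflTransGen.refl⟩
    | @tail b c h7 h8 ih =>
      by_cases hc1 : c ∈ S
      · exact hFS c hc1
      by_cases hc2 : c ∈ B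
      · exact hFB c hc2
      obtain ⟨e1, h9, h10, h11⟩ := h8
      obtain ⟨r, hr, h12⟩ := ih
      have h13 := hstep e1 h9 (by rw [h11]; exact hc1) (by rw [h11]; exact hc2)
      rw [h10, h11] at h13
      exact ⟨r, hr, h12.tail h13⟩
  have hSol1 : Sol o1 u R1 F1 := ⟨hTok1, hF1r, hT1⟩
  refine hRed V I H s o u R F v o1 u R1 F1 (o.head e) g hC hT hSol1 (mem_insert_self _ _) hp'M ?_
    (Or.inl rfl) ?_ ?_ ((mF1 g).2 (Or.inl (Or.inr rfl))) hgM (hBM hgB)
  · rw [hR1, erase_insert]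
    exact fun h => hp'R (mem_erase.1 h).2
  · intro e1 h1
    refine hsame e1 (fun h => h1 ⟨hBM h.1, hBM h.2⟩) ?_
    rintro rfl
    exact h1 ⟨hBM hpB, hp'M⟩
  · intro e1 h1
    have h2 : o.head e1 ∉ S := fun h => h1 (hXM (hSX h))
    have h3 : o.head e1 ∉ B := fun h => h1 (hBM h)
    constructor
    · intro h4
      by_contra h5
      exact hnF1 e1 h5 h2 h3 h4
    · intro h4
      exact (mF1 e1).2 (Or.inl (Or.inl (Or.inl (Or.inl ⟨h4, h2, h3⟩))))

theorem sTerm (hY0 : SY0) (hEsc : SEsc) (hL3 : SL3) (hL2 : SL2) : STerm := by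
  intro V I _ _ _ _ H s o u R F v B g hC hT hK x hx
  rw [mem_sdiff] at hx
  have hs := hT.1.sol
  have hP := sSolP' hs
  have hu := hL3 V I H s o u R F v hC hT
  rw [hY0 V I H s o u R hC hs.1]
  have key : ∀ w, (w = u ∨ w ∈ R) → ERch o univ w x → w = v := by
    intro w hw h1
    have h2 := (hEsc V I H s o u R F v o u R w x hC hT (fun _ _ => ⟨rfl, rfl⟩) hs.1 hw h1 hx.1).1
    rcases hw with rfl | hw
    · exact absurd h2 hu
    · exact root_eq hP hT.1.vR hw h2
  have hv : ¬ ERch o univ v x := by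
    intro h1
    have h2 := (hEsc V I H s o u R F v o u R v x hC hT (fun _ _ => ⟨rfl, rfl⟩) hs.1
      (Or.inr hT.1.vR) h1 hx.1).2
    obtain ⟨a, b, h3, ⟨e, h4, h5, h6, h7, h8⟩, h9, h10, -⟩ :=
      rtg_last (P := (· ∉ B)) h2 (fun h => h hK.vB) hx.2
    simp only [not_not] at h9
    subst h5
    subst h6
    refine h10 (hL2 V I H s o u R F v B g hC hT hK e h4 h9 ?_ h8)
    refine k1_mono ?_ h3
    rintro c d ⟨e', k1, k2, k3, -, -⟩
    exact ⟨e', k1, k2, k3, mem_univ _, mem_univ _⟩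
  refine ⟨fun h1 => ?_, fun w hw h1 => ?_⟩
  · have h2 := key u (Or.inl rfl) h1
    exact hT.1.vu h2.symm
  · have h2 := key w (Or.inr hw) h1
    subst h2
    exact hv h1

end ARB.KS
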