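import Pool.Agent.H46.ARB1.Top

/-!
# ARB1: the least number of elements
-/

set_option autoImplicit false
set_option linter.unusedSectionVars false

namespace ARB.KS

open Finset

theorem low {V I : Type} [Fintype V] [DecidableEq V] [Fintype I] [DecidableEq I]
    (H : MixedGraph V I) (d : ℕ) (hd : 1 ≤ d) (hV : 2 ≤ Fintype.card V)
    (hH : StrictCond H 1 d) :
    2 * (Fintype.card V - 1) ≤ Fintype.card I + (Fintype.card V - 2) / d := by
  by_contra hlt
  push Not at hlt
  obtain ⟨q, hq⟩ : ∃ q, q = (Fintype.card V - 2) / d := ⟨_, rfl⟩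
  rw [← hq] at hlt
  obtain ⟨x, y, hxy⟩ := Fintype.exists_pair_of_one_lt_card (α := V) (by omega)
  obtain ⟨P, hP, hc, h2, hw⟩ := wt_two H {x} {y} (singleton_nonempty x) (singleton_nonempty y)
    (by simpa using hxy)
  rw [inner_single, inner_single] at hw
  rw [card_singleton, card_singleton] at hc
  have hm : P.card = Fintype.card V := by omega
  have h3 := strict_m (q := 2 * Fintype.card V - 2 - Fintype.card I) hd hH hP h2 (by
    omega)
  have h4 : 2 * Fintype.card V - 2 - Fintype.card I ≤ q := by
    rw [hq, Nat.le_div_iff_mul_le hd]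
    omega
  omega

end ARB.KS
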