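import Pool.Agent.H46.ARB1.Cnt

/-!
# ARB1, rows R2 `SBet`, R5 `SMvT`, `SMvF`
-/

set_option autoImplicit false
set_option linter.unusedSectionVars false

namespace ARB.KS

open Finset Relation

theorem sBet : SBet := by
  classical
  intro V _ s A A' hanti x y hxy hAx hAy
  have key : ∀ n : ℕ, ∀ a b : V, A a → A' b → ReflTransGen s x a → ReflTransGen s a b →
      ReflTransGen s b y →
      (univ.filter (fun z => ReflTransGen s a z ∧ ReflTransGen s z b)).card ≤ n →
      ∃ a b, A a ∧ A' b ∧ ReflTransGen s x a ∧ ReflTransGen s a b ∧ ReflTransGen s b y ∧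
        ∀ z, ReflTransGen s a z → ReflTransGen s z b → z ≠ a → z ≠ b → ¬ A z ∧ ¬ A' z := by
    intro n
    induction n with
    | zero =>
      intro a b _ _ _ hab _ hc
      have h0 : 0 < (univ.filter (fun z => ReflTransGen s a z ∧ ReflTransGen s z b)).card :=
        card_pos.2 ⟨a, mem_filter.2 ⟨mem_univ _, ReflTransGen.refl, hab⟩⟩
      omega
    | succ n ih =>
      intro a b ha hb hxa hab hby hc
      by_cases hall : ∀ z, ReflTransGen s a z → ReflTransGen s z b → z ≠ a → z ≠ b →
          ¬ A z ∧ ¬ A' z
      · exact ⟨a, b, ha, hb, hxa, hab, hby, hall⟩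
      · push Not at hall
        obtain ⟨z, haz, hzb, hza, hzb', h⟩ := hall
        by_cases hz : A z
        · refine ih z b hz hb (hxa.trans haz) hzb hby ?_
          have hlt : (univ.filter (fun w => ReflTransGen s z w ∧ ReflTransGen s w b)).card <
              (univ.filter (fun w => ReflTransGen s a w ∧ ReflTransGen s w b)).card := by
            refine card_lt_card ?_
            rw [Finset.ssubset_iff_of_subset]
            · refine ⟨a, mem_filter.2 ⟨mem_univ _, ReflTransGen.refl, hab⟩, ?_⟩
              intro hm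
              exact hza (hanti _ _ (mem_filter.1 hm).2.1 haz)
            · intro w hw
              rw [mem_filter] at hw ⊢
              exact ⟨mem_univ _, haz.trans hw.2.1, hw.2.2⟩
          omega
        · have hz' := h hz
          refine ih a z ha hz' hxa haz (hzb.trans hby) ?_
          have hlt : (univ.filter (fun w => ReflTransGen s a w ∧ ReflTransGen s w z)).card <
              (univ.filter (fun w => ReflTransGen s a w ∧ ReflTransGen s w b)).card := by
            refine card_lt_card ?_
            rw [Finset.ssubset_iff_of_subset]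
            · refine ⟨b, mem_filter.2 ⟨mem_univ _, hab, ReflTransGen.refl⟩, ?_⟩
              intro hm
              exact hzb' (hanti _ _ hzb (mem_filter.1 hm).2.2)
            · intro w hw
              rw [mem_filter] at hw ⊢
              exact ⟨mem_univ _, hw.2.1, hw.2.2.trans hzb⟩
          omega
  exact key _ x y hAx hAy ReflTransGen.refl hxy ReflTransGen.refl le_rfl

section

variable {V I : Type} [Fintype V] [DecidableEq V] [Fintype I] [DecidableEq I]
  {H : MixedGraph V I}

/-- moving a token inside `B`. -/
theorem mv_move (hm : SMove) (o : Orientation H) (B : Finset V) (u z : V)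
    (h : ERch o B u z) : ∃ o', Agr o o' B ∧
      ∀ y, indeg o' y + (if y = z then 1 else 0) = indeg o y + (if y = u then 1 else 0) := by
  obtain ⟨o', h1, h2⟩ := hm V I H (univ.filter (fun e => ¬ (o.tail e ∈ B ∧ o.head e ∈ B))) o u z
    (by
      refine k1_mono ?_ h
      rintro a b ⟨e, he, ha, hb, haB, hbB⟩
      refine ⟨e, ?_, he, ha, hb⟩
      rw [mem_filter]
      rintro ⟨_, hn⟩
      exact hn ⟨by rw [ha]; exact haB, by rw [hb]; exact hbB⟩)
  exact ⟨o', fun e he => h1 e (mem_filter.2 ⟨mem_univ _, he⟩), h2⟩

theorem sMvT' (hm : SMove) {o : Orientation H} {u : V} {R : Finset V} {z : V} {B : Finset V}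
    (ht : Tok o u R) (h : ERch o B u z) : ∃ o', Agr o o' B ∧ Tok o' z R := by
  obtain ⟨o', h1, h2⟩ := mv_move hm o B u z h
  refine ⟨o', h1, fun x => ?_⟩
  have h3 := h2 x
  have h4 := ht x
  omega

theorem sMvF' (hm : SMove) {o : Orientation H} {u : V} {R : Finset V} {w z : V} {B : Finset V}
    (ht : Tok o u R) (hw : w ∈ R) (hz : z ∉ R.erase w) (h : ERch o B w z) :
    ∃ o', Agr o o' B ∧ Tok o' u (insert z (R.erase w)) := by
  obtain ⟨o', h1, h2⟩ := mv_move hm o B w z h
  refine ⟨o', h1, fun x => ?_⟩
  have h3 := h2 x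
  have h4 := ht x
  have h5 : (if x ∈ insert z (R.erase w) then 1 else 0) =
      (if x = z then 1 else 0) + (if x ∈ R.erase w then 1 else 0) := by
    by_cases hxz : x = z
    · subst hxz
      rw [if_pos (mem_insert_self _ _), if_pos rfl, if_neg hz]
    · rw [if_neg hxz, zero_add]
      by_cases hxR : x ∈ R.erase w
      · rw [if_pos (mem_insert_of_mem hxR), if_pos hxR]
      · rw [if_neg hxR, if_neg]
        rw [mem_insert]
        rintro (h6 | h6)
        · exact hxz h6
        · exact hxR h6
  have h6 : (if x ∈ R then 1 else 0) =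
      (if x = w then 1 else 0) + (if x ∈ R.erase w then 1 else 0) := by
    by_cases hxw : x = w
    · subst hxw
      rw [if_pos hw, if_pos rfl, if_neg (by simp)]
    · rw [if_neg hxw, zero_add]
      by_cases hxR : x ∈ R
      · rw [if_pos hxR, if_pos (mem_erase.2 ⟨hxw, hxR⟩)]
      · rw [if_neg hxR, if_neg (fun h7 => hxR (mem_of_mem_erase h7))]
  rw [h5]
  rw [h6] at h4
  omega

end

theorem sMvT (hm : SMove) : SMvT := by
  intro V I _ _ _ _ H o u R z B ht h
  exact sMvT' hm ht h

theorem sMvF (hm : SMove) : SMvF := by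
  intro V I _ _ _ _ H o u R w z B ht hw hz h
  exact sMvF' hm ht hw hz h

end ARB.KS
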