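import Pool.Agent.H46.ARB1.Cnt

/-!
# ARB1, rows R6 `SNF1`, R7 `SY0`, `SY0c`
-/

set_option autoImplicit false
set_option linter.unusedSectionVars false

namespace ARB.KS

open Finset Relation

section

variable {V I : Type} [Fintype V] [DecidableEq V] [Fintype I] [DecidableEq I]
  {H : MixedGraph V I}

theorem nf_inner_single (y : V) : inner H {y} = 0 := by
  unfold inner
  rw [card_eq_zero, filter_eq_empty_iff]
  intro e _ h
  rw [mem_singleton, mem_singleton] at h
  exact H.noLoop e (h.1.trans h.2.symm)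

/-- the two tokens at the same vertex `z`. -/
theorem nf_zero (hF2 : SF2) {s : ℕ} {o : Orientation H} {z : V} {R : Finset V} (hC : Cx H s)
    (ht : Tok o z R) (hf : Fea H R) (hz : z ∈ R) : False := by
  obtain ⟨F, hS, _, hD⟩ := hF2 V I H o z R z ∅ {z} hC.be ht hf hz (mem_singleton_self z)
    (mem_singleton_self z) (fun e he => absurd he (notMem_empty e))
    (fun x hx => by
      rw [mem_singleton] at hx
      rw [hx])
    (fun x => ⟨z, hz, by
      rw [sdiff_empty]
      exact (sFea' ht).1 hf x⟩)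
  rw [sdiff_empty] at hD
  have hng := hC.ng o z R F z hS hz
  set M := Dsc o F z with hM
  have hmem : ∀ x, x ∈ M ↔ ¬ ∃ r ∈ R.erase z,
      Rch o (univ.filter (fun e => o.tail e ≠ z)) r x := by
    intro x
    rw [hM, mem_Dsc]
    exact hD x
  have hzM : z ∈ M := mem_Dsc.2 ReflTransGen.refl
  have h0 : din o.tail o.head univ M = 0 := by
    apply din_eq_zero
    intro e _ he
    by_contra hc
    rw [hmem] at he hc
    push Not at hc
    obtain ⟨r, hr, hw⟩ := hc
    apply he
    refine ⟨r, hr, hw.tail ⟨e, ?_, rfl, rfl⟩⟩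
    rw [mem_filter]
    refine ⟨mem_univ _, fun h => ?_⟩
    rw [h] at hw
    exact (hmem z).1 hzM ⟨r, hr, hw⟩
  have hRM : R ∩ M = {z} := by
    ext x
    rw [mem_inter, mem_singleton]
    constructor
    · rintro ⟨h1, h2⟩
      by_contra hc
      exact (hmem x).1 h2 ⟨x, mem_erase.2 ⟨hc, h1⟩, ReflTransGen.refl⟩
    · rintro rfl
      exact ⟨hz, hzM⟩
  have hcnt := sCnt' ht M
  rw [h0, if_pos hzM, hRM, card_singleton] at hcnt
  have hne : M ≠ univ := by
    intro h
    have h1 := hC.beV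
    rw [h, card_univ] at hcnt
    omega
  obtain ⟨y, hy⟩ : ∃ y, y ∉ M := by
    by_contra hc
    push Not at hc
    exact hne (eq_univ_iff_forall.2 hc)
  have h2 := hC.z2 M {y} ⟨z, hzM⟩ (singleton_nonempty y)
    (disjoint_singleton_right.2 hy) (by omega) (by rw [nf_inner_single, card_singleton])
  rw [card_singleton] at h2
  omega

theorem sNF1' (hF2 : SF2) (hT : SMvT) (hFm : SMvF) {s : ℕ} {o : Orientation H} {u : V}
    {R : Finset V} {w z : V} (hC : Cx H s) (ht : Tok o u R) (hf : Fea H R) (hw : w ∈ R)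
    (huz : ERch o univ u z) (hwz : ERch o univ w z) : False := by
  classical
  -- the first vertex of the walk of `w` that is reached from `u`
  set A : Finset V := univ.filter (fun y => ERch o univ u y) with hA
  have hAm : ∀ y, y ∈ A ↔ ERch o univ u y := by
    intro y
    rw [hA, mem_filter]
    exact ⟨fun h => h.2, fun h => ⟨mem_univ _, h⟩⟩
  have huA : ∀ y, y ∈ A → ERch o A u y := by
    intro y hy
    have h1 := (hAm y).1 hy
    clear hy
    induction h1 with
    | refl => exact ReflTransGen.refl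
    | @tail b c h2 h3 ih =>
      obtain ⟨e, he, h4, h5, -, -⟩ := h3
      refine ih.tail ⟨e, he, h4, h5, (hAm b).2 h2, (hAm c).2 ?_⟩
      exact h2.tail ⟨e, he, h4, h5, mem_univ _, mem_univ _⟩
  obtain ⟨z1, hz1, hwz1⟩ : ∃ z1, z1 ∈ A ∧ ReflTransGen
      (fun a b => ∃ e, H.isEdge e = true ∧ o.tail e = a ∧ o.head e = b ∧ a ∉ A) w z1 := by
    by_cases hwA : w ∈ A
    · exact ⟨w, hwA, ReflTransGen.refl⟩
    · obtain ⟨a, b, h1, ⟨e, he, h4, h5, -, -⟩, h2, h3, -⟩ :=
        rtg_first (P := (· ∈ A)) hwz hwA ((hAm z).2 huz)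
      refine ⟨b, h3, ReflTransGen.tail (k1_mono ?_ h1) ⟨e, he, h4, h5, h2⟩⟩
      rintro c d ⟨⟨e', he', h6, h7, -, -⟩, h8, -⟩
      exact ⟨e', he', h6, h7, h8⟩
  obtain ⟨o1, hag, ht1⟩ := hT V I H o u R z1 A ht (huA z1 hz1)
  have hw1 : ERch o1 univ w z1 := by
    refine k1_mono ?_ hwz1
    rintro a b ⟨e, he, h4, h5, h6⟩
    obtain ⟨h7, h8⟩ := hag e (fun h => h6 (by rw [← h4]; exact h.1))
    exact ⟨e, he, by rw [h7, h4], by rw [h8, h5], mem_univ _, mem_univ _⟩
  by_cases hz : z1 ∈ R.erase w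
  · exact nf_zero hF2 hC ht1 hf (mem_of_mem_erase hz)
  · obtain ⟨o2, -, ht2⟩ := hFm V I H o1 z1 R w z1 univ ht1 hw hz hw1
    refine nf_zero hF2 hC ht2 ?_ (mem_insert_self _ _)
    rw [sFea' ht2]
    intro x
    by_contra hx
    set X : Finset V := univ.filter (fun x => ¬ Rch o2 univ z1 x) with hX
    have hmem : ∀ x, x ∈ X ↔ ¬ Rch o2 univ z1 x := by intro x; simp [hX]
    have h1 : din o2.tail o2.head univ X = 0 := by
      apply din_unreached {z1}
      intro x
      simp [hmem]
    have h2 := sCnt' ht2 X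
    have h3 : z1 ∉ X := by
      rw [hmem]
      exact fun hh => hh ReflTransGen.refl
    rw [if_neg h3, h1] at h2
    have h4 := hf X ⟨x, (hmem x).2 hx⟩
    have h5 : (insert z1 (R.erase w) ∩ X).card ≤ (R ∩ X).card := by
      refine card_le_card ?_
      intro y hy
      rw [mem_inter, mem_insert] at hy
      rcases hy with ⟨h6 | h6, h7⟩
      · exact absurd (by rw [← h6]; exact h7) h3
      · exact mem_inter.2 ⟨mem_of_mem_erase h6, h7⟩
    omega

theorem nf_sum (o : Orientation H) (X : Finset V) :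
    (univ.filter (fun e => o.head e ∈ X)).card = ∑ y ∈ X, indeg o y := by
  rw [card_eq_sum_card_fiberwise (s := univ.filter (fun e => o.head e ∈ X)) (f := o.head)
    (t := X) (fun e he => (mem_filter.1 he).2)]
  refine sum_congr rfl fun y hy => ?_
  unfold indeg
  congr 1
  ext e
  simp only [mem_filter, mem_univ, true_and]
  constructor
  · exact fun h => h.2
  · intro h
    exact ⟨by rw [h]; exact hy, h⟩

theorem nf_tok {o : Orientation H} {u : V} {R : Finset V} (h : Tok o u R) (X : Finset V) :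
    (univ.filter (fun e => o.head e ∈ X)).card + (if u ∈ X then 1 else 0) + (R ∩ X).card =
      2 * X.card := by
  have h2 : ∑ x ∈ X, (indeg o x + (if x = u then 1 else 0) + (if x ∈ R then 1 else 0)) =
      2 * X.card := by
    rw [sum_congr rfl (fun x _ => h x), sum_const, smul_eq_mul, mul_comm]
  rw [sum_add_distrib, sum_add_distrib, sum_if_eq, sum_if_mem, ← nf_sum] at h2
  exact h2

/-- an element is caught by `Y` if and only if all its possible heads lie in `Y`. -/
theorem nf_caught (o : Orientation H) (Y : Finset V) :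
    caught H Y = (univ.filter (fun e => o.head e ∈ Y ∧ (H.isEdge e = true → o.tail e ∈ Y))).card
    := by
  unfold caught
  congr 1
  ext e
  rw [mem_filter, mem_filter]
  refine and_congr_right fun _ => ?_
  rcases o.ok e with ⟨h1, h2⟩ | ⟨h0, h1, h2⟩
  · rw [h1, h2]
  · rw [h1, h2]
    constructor
    · rintro ⟨h3, h4⟩
      exact ⟨h4 h0, fun _ => h3⟩
    · rintro ⟨h3, h4⟩
      exact ⟨h4 h0, fun _ => h3⟩

theorem nf_tight {o : Orientation H} {u : V} {R : Finset V} (h : Tok o u R) (Z : Finset V)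
    (hu : u ∉ Z) (hR : ∀ w ∈ R, w ∉ Z)
    (hZ : ∀ e, H.isEdge e = true → o.head e ∈ Z → o.tail e ∈ Z) :
    caught H Z = 2 * Z.card := by
  have h1 := nf_tok h Z
  have h2 : R ∩ Z = ∅ := by
    rw [eq_empty_iff_forall_notMem]
    intro x hx
    rw [mem_inter] at hx
    exact hR x hx.1 hx.2
  rw [if_neg hu, h2, card_empty] at h1
  rw [nf_caught o, ← h1, add_zero, add_zero]
  congr 1
  ext e
  rw [mem_filter, mem_filter]
  refine and_congr_right fun _ => ?_
  exact ⟨fun h => h.1, fun h3 => ⟨h3, fun h4 => hZ e h4 h3⟩⟩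

theorem sY0' {o : Orientation H} {u : V} {R : Finset V} (ht : Tok o u R) (x : V) :
    x ∈ Y0 H ↔ ¬ ERch o univ u x ∧ ∀ w ∈ R, ¬ ERch o univ w x := by
  classical
  constructor
  · intro hx
    obtain ⟨Y, hxY, hY⟩ := mem_Y0.1 hx
    have h1 := nf_tok ht Y
    have hsub : univ.filter (fun e => o.head e ∈ Y ∧ (H.isEdge e = true → o.tail e ∈ Y)) ⊆
        univ.filter (fun e => o.head e ∈ Y) := by
      intro e he
      rw [mem_filter] at he ⊢
      exact ⟨he.1, he.2.1⟩
    have h2 := card_le_card hsub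
    rw [← nf_caught o, hY] at h2
    have huY : u ∉ Y := by
      intro h
      rw [if_pos h] at h1
      omega
    rw [if_neg huY] at h1
    have hRY : R ∩ Y = ∅ := by
      rw [← card_eq_zero]
      omega
    have heq := eq_of_subset_of_card_le hsub (by rw [← nf_caught o, hY]; omega)
    have hcl : ∀ a b, eStep o univ a b → b ∈ Y → a ∈ Y := by
      rintro a b ⟨e, he, h4, h5, -, -⟩ hb
      have h6 : e ∈ univ.filter (fun e => o.head e ∈ Y) :=
        mem_filter.2 ⟨mem_univ _, by rw [h5]; exact hb⟩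
      rw [← heq, mem_filter] at h6
      rw [← h4]
      exact h6.2.2 he
    have hback : ∀ a, ERch o univ a x → a ∈ Y := by
      intro a ha
      induction ha using ReflTransGen.head_induction_on with
      | refl => exact hxY
      | @head a c h1 _ ih => exact hcl _ _ h1 ih
    refine ⟨fun h => huY (hback u h), fun w hw h => ?_⟩
    have h3 : w ∈ R ∩ Y := mem_inter.2 ⟨hw, hback w h⟩
    rw [hRY] at h3
    exact notMem_empty w h3
  · rintro ⟨hx1, hx2⟩
    set Z : Finset V := univ.filter (fun x => ¬ ERch o univ u x ∧ ∀ w ∈ R, ¬ ERch o univ w x)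
      with hZ
    have hmem : ∀ x, x ∈ Z ↔ ¬ ERch o univ u x ∧ ∀ w ∈ R, ¬ ERch o univ w x := by
      intro x
      rw [hZ, mem_filter]
      exact ⟨fun h => h.2, fun h => ⟨mem_univ _, h⟩⟩
    rw [mem_Y0]
    refine ⟨Z, (hmem x).2 ⟨hx1, hx2⟩, nf_tight ht Z ?_ ?_ ?_⟩
    · intro h
      exact ((hmem u).1 h).1 ReflTransGen.refl
    · intro w hw h
      exact ((hmem w).1 h).2 w hw ReflTransGen.refl
    · intro e he h
      rw [hmem] at h ⊢
      have hst : eStep o univ (o.tail e) (o.head e) :=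
        ⟨e, he, rfl, rfl, mem_univ _, mem_univ _⟩
      exact ⟨fun h1 => h.1 (h1.tail hst), fun w hw h1 => h.2 w hw (h1.tail hst)⟩

theorem sY0c' {s : ℕ} {o : Orientation H} {u : V} {R : Finset V} (hC : Cx H s)
    (ht : Tok o u R) : 2 ≤ R.card ∧ (Y0 H).card + 1 ≤ s := by
  classical
  have h1 := sCnt' ht univ
  rw [if_pos (mem_univ u), inter_univ, card_univ] at h1
  have h0 : din o.tail o.head univ (univ : Finset V) = 0 :=
    din_eq_zero fun e _ _ => mem_univ _
  have h2 := hC.beV
  have hR : 2 ≤ R.card := by omega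
  have hY : caught H (Y0 H) = 2 * (Y0 H).card := by
    refine nf_tight ht (Y0 H) ?_ ?_ ?_
    · intro h
      exact ((sY0' ht u).1 h).1 ReflTransGen.refl
    · intro w hw h
      exact ((sY0' ht w).1 h).2 w hw ReflTransGen.refl
    · intro e he h
      rw [sY0' ht] at h ⊢
      have hst : eStep o univ (o.tail e) (o.head e) :=
        ⟨e, he, rfl, rfl, mem_univ _, mem_univ _⟩
      exact ⟨fun h1 => h.1 (h1.tail hst), fun w hw h1 => h.2 w hw (h1.tail hst)⟩
  refine ⟨hR, hC.z0 (Y0 H) ?_ hY⟩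
  have hd : Disjoint (Y0 H) R := by
    rw [disjoint_left]
    intro w hw hwR
    exact ((sY0' ht w).1 hw).2 w hwR ReflTransGen.refl
  have h3 := card_le_card (subset_univ (Y0 H ∪ R))
  rw [card_union_of_disjoint hd, card_univ] at h3
  omega

end

theorem sNF1 (hF2 : SF2) (hT : SMvT) (hF : SMvF) : SNF1 := by
  intro V I _ _ _ _ H s o u R w z hC ht hf hw h1 h2
  exact sNF1' hF2 hT hF hC ht hf hw h1 h2

theorem sY0 : SY0 := by
  intro V I _ _ _ _ H s o u R _ ht x
  exact sY0' ht x

theorem sY0c : SY0c := by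
  intro V I _ _ _ _ H s o u R hC ht
  exact sY0c' hC ht

end ARB.KS
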