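import Pool.Agent.H46.ARB1.Cnt

/-!
# Row R10 (`SRed`): the main reduction
-/

set_option autoImplicit false
set_option linter.unusedSectionVars false

namespace ARB.KS

open Finset Relation

section Red

variable {V I : Type} [Fintype V] [DecidableEq V] [Fintype I] [DecidableEq I]
  {H : MixedGraph V I}

/-- the two ends of an element do not depend on the orientation. -/
theorem red_ends (o o1 : Orientation H) (M : Finset V) (e : I)
    (h : o.tail e ∈ M ∧ o.head e ∈ M) : o1.tail e ∈ M ∧ o1.head e ∈ M := by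
  rcases o.ok e with ⟨h1, h2⟩ | ⟨_, h1, h2⟩ <;> rcases o1.ok e with ⟨h3, h4⟩ | ⟨_, h3, h4⟩ <;>
    rw [h1, h2] at h <;> rw [h3, h4]
  · exact h
  · exact ⟨h.2, h.1⟩
  · exact ⟨h.2, h.1⟩
  · exact h

/-- an element whose tail in `o1` is outside `M` keeps its ends. -/
theorem red_agr {o o1 : Orientation H} {M : Finset V} (hA : Agr o o1 M) {e : I}
    (h : ¬ (o1.tail e ∈ M ∧ o1.head e ∈ M)) :
    o.tail e = o1.tail e ∧ o.head e = o1.head e := by
  have h1 : ¬ (o.tail e ∈ M ∧ o.head e ∈ M) := fun h2 => h (red_ends o o1 M e h2)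
  obtain ⟨h3, h4⟩ := hA e h1
  exact ⟨h3.symm, h4.symm⟩

open Classical in
/-- an undirected walk inside `M` from `x` stays in the part of `M` that `x` reaches. -/
theorem red_erch (o : Orientation H) (M : Finset V) {x y : V} (h : ERch o M x y) :
    ERch o (M.filter (fun z => ERch o univ x z)) x y := by
  have hu : ∀ z, ERch o M x z → ERch o univ x z := by
    intro z hz
    exact k1_mono (fun a b ⟨e, h1, h2, h3, _, _⟩ => ⟨e, h1, h2, h3, mem_univ _, mem_univ _⟩) hz
  induction h with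
  | refl => exact ReflTransGen.refl
  | @tail b c h1 h2 ih =>
    obtain ⟨e, h3, h4, h5, h6, h7⟩ := h2
    refine ih.tail ⟨e, h3, h4, h5, mem_filter.2 ⟨h6, hu _ h1⟩, mem_filter.2 ⟨h7, hu _ ?_⟩⟩
    exact h1.tail ⟨e, h3, h4, h5, h6, h7⟩

end Red

/-- R10: the main reduction. -/
theorem sRed (hBet : SBet) (hNF : SNF1) (hY0 : SY0) (hExtT : SExtT) (hEnt : SEntry)
    (hEsc : SEsc) : SRed := by
  classical
  intro V I _ _ _ _ H s o u R F v o1 u1 R1 F1 v1 e0 hc hm h1 hv1 hv1M hR hu1 hA hF he0 he0t he0h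
  set M : Finset V := Dsc o F v with hM
  have hsol := hm.1.sol
  have hP := sSolP' hsol
  have hP1 := sSolP' h1
  have hT1 := h1.1
  have hfea : Fea H R1 := (sFea' hT1).2 (fun x => rch_mono (subset_univ _) (h1.2.2 x))
  -- members of `R.erase v` are outside `M`
  have hRM : ∀ w ∈ R.erase v, w ∉ M := by
    intro w hw hwM
    rw [hM, mem_Dsc] at hwM
    obtain ⟨hwv, hwR⟩ := mem_erase.1 hw
    exact hwv (hP.fO w hwR v hm.1.vR w ReflTransGen.refl hwM)
  -- ancestors
  have hfact : ∀ x, Rch o1 (univ \ F1) x v1 → x ∈ M ∨ Rch o (univ \ F) x v := by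
    intro x hx
    induction hx using ReflTransGen.head_induction_on with
    | refl => exact Or.inl hv1M
    | @head a c h2 h3 ih =>
      obtain ⟨e, he, h4, h5⟩ := h2
      by_cases haM : a ∈ M
      · exact Or.inl haM
      · right
        obtain ⟨h6, h7⟩ := red_agr hA (e := e) (by rw [h4]; exact fun h => haM h.1)
        rw [h4] at h6
        rw [h5] at h7
        by_cases hcM : c ∈ M
        · obtain ⟨h8, h9⟩ := hEnt V I H s o u R F v hc hm e (by rw [h6]; exact haM)
            (by rw [h7]; exact hcM)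
          exact ReflTransGen.head ⟨e, by simp [h8], h6, rfl⟩ h9
        · have h8 : e ∉ F := by
            intro h9
            have := (hF e (by rw [h7]; exact hcM)).2 h9
            simp [this] at he
          rcases ih with h9 | h9
          · exact absurd h9 hcM
          · exact ReflTransGen.head ⟨e, by simp [h8], h6, h7⟩ h9
  have hanc : ∀ x, Rch o1 (univ \ F1) x v1 → x ∉ M → (x = u ∧ x = u1) ∨ x ∈ Y0 H := by
    intro x hx hxM
    rcases hfact x hx with h2 | h2
    · exact absurd h2 hxM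
    · rcases hm.1.anc x h2 with h3 | h3 | h3
      · exfalso
        apply hxM
        rw [h3, hM, mem_Dsc]
      · left
        refine ⟨h3, ?_⟩
        rcases hu1 with h4 | h4
        · rw [h4, h3]
        · exact absurd (h3 ▸ h4.2) hxM
      · exact Or.inr h3
  -- last vertex of the reach of `u1` before the first vertex of the reach of `v1`
  obtain ⟨a, b, haA, hbA, hua, hab, hbv, hbet⟩ := hBet V (stepRel o1.tail o1.head (univ \ F1))
    (fun z => ERch o1 univ u1 z) (fun z => ERch o1 univ v1 z) hP1.tA u1 v1 (h1.2.2 v1)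
    ReflTransGen.refl ReflTransGen.refl
  have hnab : ∀ z, ERch o1 univ u1 z → ERch o1 univ v1 z → False := fun z h2 h3 =>
    hNF V I H s o1 u1 R1 v1 z hc hT1 hfea hv1 h2 h3
  have hbM : b ∈ M := by
    by_contra hbM
    rcases hanc b hbv hbM with h2 | h2
    · exact hnab b (by rw [h2.2]) hbA
    · exact ((hY0 V I H s o1 u1 R1 hc hT1 b).1 h2).2 v1 hv1 hbA
  have hbR : b ∉ R1.erase v1 := by
    rw [hR]
    exact fun h => hRM b h hbM
  have hmid : ∀ z, Rch o1 (univ \ F1) a z → Rch o1 (univ \ F1) z b →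
      z = a ∨ z = b ∨ z ∈ Y0 H := by
    intro z haz hzb
    by_cases hza : z = a
    · exact Or.inl hza
    by_cases hzb' : z = b
    · exact Or.inr (Or.inl hzb')
    right; right
    obtain ⟨hnA, hnA'⟩ := hbet z haz hzb hza hzb'
    by_cases hzM : z ∈ M
    · rw [hY0 V I H s o1 u1 R1 hc hT1 z]
      refine ⟨hnA, ?_⟩
      intro w hw hwz
      by_cases hwv : w = v1
      · subst hwv
        exact hnA' hwz
      · have hw' : w ∈ R1.erase v1 := mem_erase.2 ⟨hwv, hw⟩
        rw [hR] at hw'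
        exact hRM w hw' (hEsc V I H s o u R F v o1 u1 R1 w z hc hm hA hT1 (Or.inr hw) hwz hzM).1
    · rcases hanc z (hzb.trans hbv) hzM with h2 | h2
      · exfalso
        exact hza (hP1.tA z a (h2.2 ▸ hua) haz)
      · exact h2
  -- the sets in which the tokens are moved
  obtain ⟨Bj, hBjM, hBjr, hBja⟩ : ∃ Bj : Finset V, (∀ x ∈ Bj, x ∈ M) ∧
      (∀ x ∈ Bj, ERch o1 univ u1 x) ∧ ERch o1 Bj u1 a := by
    by_cases haM : a ∈ M
    · refine ⟨M.filter (fun z => ERch o1 univ u1 z), fun x hx => (mem_filter.1 hx).1,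
        fun x hx => (mem_filter.1 hx).2, red_erch o1 M ?_⟩
      exact (hEsc V I H s o u R F v o1 u1 R1 u1 a hc hm hA hT1 (Or.inl rfl) haA haM).2
    · refine ⟨∅, by simp, by simp, ?_⟩
      rcases hanc a (hab.trans hbv) haM with h2 | h2
      · rw [h2.2]
      · exact absurd haA ((hY0 V I H s o1 u1 R1 hc hT1 a).1 h2).1
  obtain ⟨Bl, hBlM, hBlr, hBlb⟩ : ∃ Bl : Finset V, (∀ x ∈ Bl, x ∈ M) ∧
      (∀ x ∈ Bl, ERch o1 univ v1 x) ∧ ERch o1 Bl v1 b := by
    refine ⟨M.filter (fun z => ERch o1 univ v1 z), fun x hx => (mem_filter.1 hx).1,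
      fun x hx => (mem_filter.1 hx).2, red_erch o1 M ?_⟩
    exact (hEsc V I H s o u R F v o1 u1 R1 v1 b hc hm hA hT1 (Or.inr hv1) hbA hbM).2
  obtain ⟨o', F', hS', hag, hanc', hdsc⟩ := hExtT V I H s o1 u1 R1 F1 v1 a b Bj Bl hc h1 hv1 hbR
    hBjr hBlr hBja hBlb hab hmid
  -- elements outside `M` are unchanged
  have hag' : ∀ e, ¬ (o.tail e ∈ M ∧ o.head e ∈ M) →
      o'.tail e = o.tail e ∧ o'.head e = o.head e := by
    intro e he
    obtain ⟨h2, h3⟩ := hA e he
    obtain ⟨h4, h5⟩ := hag e (fun h => he ⟨by rw [← h2]; exact hBjM _ h.1,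
      by rw [← h3]; exact hBjM _ h.2⟩) (fun h => he ⟨by rw [← h2]; exact hBlM _ h.1,
      by rw [← h3]; exact hBlM _ h.2⟩)
    exact ⟨h4.trans h2, h5.trans h3⟩
  have htup : Tup o' a (insert b (R1.erase v1)) F' b := by
    refine ⟨hS', mem_insert_self _ _, ?_, ?_⟩
    · intro h2
      exact hnab b (h2 ▸ haA) hbA
    · intro x hx
      rcases hanc' x hx with h2 | h2 | h2
      · exact Or.inr (Or.inl h2)
      · exact Or.inl h2
      · exact Or.inr (Or.inr h2)
  -- vertices outside `M` are still reached from the other roots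
  have hout : ∀ x, x ∉ M → ∃ r ∈ R1.erase v1,
      Rch o' ((univ \ Pth o1 (univ \ F1) a b).filter (fun e => o'.tail e ≠ b)) r x := by
    intro x hxM
    obtain ⟨r, hr, hrx⟩ := hsol.2.1 x
    have hrv : r ≠ v := by
      intro h2
      apply hxM
      rw [hM, mem_Dsc, ← h2]
      exact hrx
    refine ⟨r, by rw [hR]; exact mem_erase.2 ⟨hrv, hr⟩, ?_⟩
    refine rch_of hrx ?_
    intro e he h2 h3
    have hh : o.head e ∉ M := by
      intro h4
      apply hxM
      rw [hM, mem_Dsc] at h4 ⊢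
      exact h4.trans h3
    have ht : o.tail e ∉ M := by
      intro h4
      apply hh
      rw [hM, mem_Dsc] at h4 ⊢
      exact h4.tail ⟨e, he, rfl, rfl⟩
    obtain ⟨h5, h6⟩ := hag' e (fun h => ht h.1)
    refine ⟨?_, h5, h6⟩
    refine mem_filter.2 ⟨?_, ?_⟩
    · have h7 : e ∈ F1 := (hF e hh).2 he
      simp only [mem_sdiff, mem_univ, true_and, mem_Pth]
      rintro ⟨h8, _⟩
      exact h8 h7
    · rw [h5]
      intro h7
      exact ht (h7 ▸ hbM)
  have hsub : Dsc o' F' b ⊆ M := by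
    intro x hx
    by_contra hxM
    rw [mem_Dsc, hdsc] at hx
    exact hx (hout x hxM)
  have heq : Dsc o' F' b = M := hm.2 o' a _ F' b htup hsub
  have h2 : o.head e0 ∈ Dsc o' F' b := by rw [heq]; exact he0h
  rw [mem_Dsc, hdsc] at h2
  apply h2
  obtain ⟨r, hr, hrx⟩ := hout (o.tail e0) he0t
  obtain ⟨h5, h6⟩ := hag' e0 (fun h => he0t h.1)
  refine ⟨r, hr, hrx.tail ⟨e0, ?_, h5, h6⟩⟩
  refine mem_filter.2 ⟨?_, ?_⟩
  · simp only [mem_sdiff, mem_univ, true_and, mem_Pth]
    rintro ⟨h8, _⟩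
    exact h8 he0
  · rw [h5]
    intro h7
    exact he0t (h7 ▸ hbM)

end ARB.KS
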