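import Pool.Agent.H46.ARB1.Stm

/-!
# ARB1 (`k = 1`), rows R3 `SSplit` and R4 `SF2`
-/

set_option autoImplicit false
set_option linter.unusedSectionVars false

namespace ARB.KS

open Finset

/-- an element that enters a set on a walk into the set -/
theorem sf_enter {W : Type} {r : W → W → Prop} {X : W → Prop} {x y : W}
    (h : Relation.ReflTransGen r x y) (hx : ¬ X x) (hy : X y) :
    ∃ a b, Relation.ReflTransGen r x a ∧ r a b ∧ ¬ X a ∧ X b := by
  induction h with
  | refl => exact absurd hy hx
  | @tail b c h1 h2 ih =>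
    by_cases hb : X b
    · exact ih hb
    · exact ⟨b, c, h1, h2, hb, hy⟩

/-- a set that is closed under predecessors contains the start of each walk into it -/
theorem sf_back {W : Type} {r : W → W → Prop} {X : W → Prop} {x y : W}
    (hc : ∀ a b, r a b → X b → X a) (h : Relation.ReflTransGen r x y) (hy : X y) : X x := by
  induction h using Relation.ReflTransGen.head_induction_on with
  | refl => exact hy
  | @head a c h1 _ ih => exact hc _ _ h1 ih

/-- a set that is closed under successors contains the end of each walk that starts in it -/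
theorem sf_fwd {W : Type} {r : W → W → Prop} {X : W → Prop} {x y : W}
    (hc : ∀ a b, r a b → X a → X b) (h : Relation.ReflTransGen r x y) (hx : X x) : X y := by
  induction h with
  | refl => exact hx
  | tail _ h2 ih => exact hc _ _ h2 ih

/-- the last element of a walk between different vertices -/
theorem sf_last {W : Type} {r : W → W → Prop} {x y : W} (h : Relation.ReflTransGen r x y)
    (hne : x ≠ y) : ∃ b, Relation.ReflTransGen r x b ∧ r b y := by
  rcases Relation.ReflTransGen.cases_tail h with h1 | ⟨b, h1, h2⟩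
  · exact absurd h1.symm hne
  · exact ⟨b, h1, h2⟩

theorem sf_mono {W : Type} {r p : W → W → Prop} (h : ∀ a b, r a b → p a b) {x y : W}
    (hw : Relation.ReflTransGen r x y) : Relation.ReflTransGen p x y :=
  Relation.ReflTransGen.mono h _ _ hw

/-- Edmonds' theorem for two root sets -/
theorem sf_edm2 (hE : SEdm) {V I : Type} [Fintype V] [DecidableEq V] [Fintype I] [DecidableEq I]
    (tl hd : I → V) (J : Finset I) (RA RB : Finset V) (hA : RA.Nonempty) (hB : RB.Nonempty)
    (h : ∀ X : Finset V, X.Nonempty → (if Disjoint RA X then 1 else 0) +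
      (if Disjoint RB X then 1 else 0) ≤ din tl hd J X) :
    ∃ A B : Finset I, A ⊆ J ∧ B ⊆ J ∧ Disjoint A B ∧ IsBr tl hd A RA univ ∧
      IsBr tl hd B RB univ := by
  obtain ⟨G, hG1, hG2, hG3⟩ := hE V I tl hd J 2 ![RA, RB]
    (by
      intro i
      fin_cases i
      · exact hA
      · exact hB)
    (by
      intro X hX
      rw [card_filter, Fin.sum_univ_two]
      exact h X hX)
  exact ⟨G 0, G 1, hG1 0, hG1 1, hG2 0 1 (by decide), hG3 0, hG3 1⟩

theorem sSplit (hE : SEdm) : SSplit := by
  classical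
  intro V I _ _ _ _ H o J S RT RF hJ hT hF hTn hFn hcut
  obtain ⟨G0, G1, h0, h1, h01, hb0, hb1⟩ := sf_edm2 hE o.tail o.head J (RT ∪ Sᶜ) (RF ∪ Sᶜ)
    (hTn.mono subset_union_left) (hFn.mono subset_union_left)
    (by
      intro X hX
      by_cases hXS : X ⊆ S
      · have hd : Disjoint Sᶜ X := by
          rw [disjoint_left]
          intro a ha hb
          exact (mem_compl.1 ha) (hXS hb)
        have e0 : Disjoint (RT ∪ Sᶜ) X ↔ Disjoint RT X := by
          rw [disjoint_union_left]; exact ⟨fun h => h.1, fun h => ⟨h, hd⟩⟩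
        have e1 : Disjoint (RF ∪ Sᶜ) X ↔ Disjoint RF X := by
          rw [disjoint_union_left]; exact ⟨fun h => h.1, fun h => ⟨h, hd⟩⟩
        have := hcut X hX hXS
        simp only [e0, e1]
        exact this
      · obtain ⟨a, ha, haS⟩ := not_subset.1 hXS
        have e0 : ¬ Disjoint (RT ∪ Sᶜ) X := fun h =>
          (disjoint_left.1 h) (mem_union_right _ (mem_compl.2 haS)) ha
        have e1 : ¬ Disjoint (RF ∪ Sᶜ) X := fun h =>
          (disjoint_left.1 h) (mem_union_right _ (mem_compl.2 haS)) ha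
        rw [if_neg e0, if_neg e1]
        exact Nat.zero_le _)
  have key : ∀ (G' : Finset I) (RR : Finset V), G' ⊆ J →
      IsBr o.tail o.head G' (RR ∪ Sᶜ) univ → ∀ x ∈ S, ∃ r ∈ RR, Rch o G' r x := by
    intro G' RR hsub hbr x hx
    obtain ⟨r, hr, hw⟩ := hbr.2.2.2 x (mem_univ _)
    rcases mem_union.1 hr with h | h
    · exact ⟨r, h, hw⟩
    · exfalso
      rcases Relation.ReflTransGen.cases_head hw with h1 | ⟨c, ⟨e, he, h2, _⟩, _⟩
      · exact (mem_compl.1 h) (h1 ▸ hx)
      · exact (mem_compl.1 h) (h2 ▸ (hJ e (hsub he)).1)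
  exact ⟨G0, G1, h0, h1, h01, key G0 RT h0 hb0, key G1 RF h1 hb1⟩

theorem sF2 (hE : SEdm) (hC : SCnt) : SF2 := by
  classical
  intro V I _ _ _ _ H o u R v P U hbe hTok hFea hv hu hvU hPU hPr hF
  set Q : Finset I := (univ \ P).filter (fun e => o.tail e ≠ v) with hQ
  let N0 : V → Prop := fun x => ∃ r ∈ R.erase v, Rch o Q r x
  have hN0def : ∀ x, N0 x ↔ ∃ r ∈ R.erase v, Rch o Q r x := fun x => Iff.rfl
  have hcnt := hC V I H o u R hTok
  have hQm : ∀ e, e ∈ Q ↔ e ∉ P ∧ o.tail e ≠ v := by
    intro e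
    rw [hQ, mem_filter, mem_sdiff]
    simp
  -- `v` is not in `N0`
  have hvM : ¬ N0 v := by
    rintro ⟨r, hr, hw⟩
    obtain ⟨b, _, ⟨e', he', h1, h2⟩⟩ := sf_last hw (ne_of_mem_erase hr)
    have he'P := ((hQm e').1 he').1
    have htv := hTok v
    rw [if_pos hv] at htv
    by_cases hvu : v = u
    · rw [if_pos hvu] at htv
      have h0 : indeg o v = 0 := by omega
      unfold indeg at h0
      rw [card_eq_zero, filter_eq_empty_iff] at h0
      exact h0 (mem_univ e') h2
    · rw [if_neg hvu] at htv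
      have h0 : indeg o v = 1 := by omega
      obtain ⟨b2, _, ⟨e2, he2, h3, h4⟩⟩ := sf_last (hPr v hvU) (fun h => hvu h.symm)
      unfold indeg at h0
      have := card_le_one.1 (le_of_eq h0) e' (by simp [h2]) e2 (by simp [h4])
      exact he'P (this ▸ he2)
  -- elements that enter the complement of `N0` are in `P`
  have hent : ∀ e, N0 (o.tail e) → ¬ N0 (o.head e) → e ∈ P := by
    intro e h1 h2
    by_contra hP
    apply h2
    obtain ⟨r, hr, hw⟩ := h1
    refine ⟨r, hr, hw.tail ⟨e, (hQm e).2 ⟨hP, ?_⟩, rfl, rfl⟩⟩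
    intro h3
    apply hvM
    rw [← h3]
    exact ⟨r, hr, hw⟩
  set K : Finset I := univ.filter (fun e => ¬ N0 (o.tail e) ∧ N0 (o.head e)) with hK
  have hKm : ∀ e, e ∈ K ↔ ¬ N0 (o.tail e) ∧ N0 (o.head e) := by
    intro e; rw [hK, mem_filter]; simp
  set J : Finset I := univ \ (P ∪ K) with hJ
  have hJm : ∀ e, e ∈ J ↔ e ∉ P ∧ e ∉ K := by
    intro e; rw [hJ, mem_sdiff, mem_union]; simp
  obtain ⟨G0, G1, hG0, hG1, hG01, hT', hB'⟩ := sf_edm2 hE o.tail o.head J
    (U ∪ K.image o.head) R ⟨u, mem_union_left _ hu⟩ ⟨v, hv⟩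
    (by
      intro X hX
      have hcX := hcnt X
      have hfX := hFea X hX
      have hbX := hbe X hX
      by_cases hd0 : Disjoint (U ∪ K.image o.head) X
      · -- all entering elements are in `J`
        have huX : u ∉ X := fun h => (disjoint_left.1 hd0) (mem_union_left _ hu) h
        have hdin : din o.tail o.head J X = din o.tail o.head univ X := by
          unfold din
          congr 1
          ext e
          simp only [mem_filter, mem_univ, true_and]
          constructor
          · exact fun h => h.2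
          · intro h
            refine ⟨(hJm e).2 ⟨?_, ?_⟩, h⟩
            · intro hP
              exact (disjoint_left.1 hd0) (mem_union_left _ (hPU e hP)) h.2
            · intro hKe
              exact (disjoint_left.1 hd0) (mem_union_right _ (mem_image_of_mem _ hKe)) h.2
        rw [hdin]
        rw [if_neg huX] at hcX
        by_cases hd1 : Disjoint R X
        · have hRX : (R ∩ X).card = 0 := by
            rw [card_eq_zero]; exact disjoint_iff_inter_eq_empty.1 hd1
          rw [if_pos hd0, if_pos hd1]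
          omega
        · rw [if_pos hd0, if_neg hd1]
          omega
      · rw [if_neg hd0]
        by_cases hd1 : Disjoint R X
        · rw [if_pos hd1]
          have hpos : ∃ e, e ∈ J ∧ o.tail e ∉ X ∧ o.head e ∈ X := by
            by_cases hXN : ∃ x ∈ X, N0 x
            · obtain ⟨x, hx, r, hr, hw⟩ := hXN
              have hrX : r ∉ X := fun h => (disjoint_left.1 hd1) (mem_of_mem_erase hr) h
              obtain ⟨a, b, hw1, ⟨e, he, h2, h3⟩, h4, h5⟩ :=
                sf_enter (X := fun z => z ∈ X) hw hrX hx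
              subst h2; subst h3
              refine ⟨e, (hJm e).2 ⟨((hQm e).1 he).1, ?_⟩, h4, h5⟩
              intro hKe
              exact ((hKm e).1 hKe).1 ⟨r, hr, hw1⟩
            · push Not at hXN
              obtain ⟨x, hx⟩ := hX
              obtain ⟨r, hr, hw⟩ := hF x
              have hrX : r ∉ X := fun h => (disjoint_left.1 hd1) hr h
              obtain ⟨a, b, hw1, ⟨e, he, h2, h3⟩, h4, h5⟩ :=
                sf_enter (X := fun z => z ∈ X) hw hrX hx
              subst h2; subst h3
              refine ⟨e, (hJm e).2 ⟨(mem_sdiff.1 he).2, ?_⟩, h4, h5⟩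
              intro hKe
              exact hXN _ h5 ((hKm e).1 hKe).2
          obtain ⟨e, he, h2, h3⟩ := hpos
          have : 0 < din o.tail o.head J X := by
            unfold din
            rw [card_pos]
            exact ⟨e, by simp [he, h2, h3]⟩
          omega
        · rw [if_neg hd1]
          exact Nat.zero_le _)
  have hF1 : ∀ e ∈ G1, e ∉ P ∧ e ∉ K := fun e he => (hJm e).1 (hG1 he)
  have hF0 : ∀ e ∈ G0, e ∉ P ∧ e ∉ K := fun e he => (hJm e).1 (hG0 he)
  have hF01 : ∀ e ∈ G0, e ∉ G1 := fun e he => disjoint_left.1 hG01 he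
  have hP1 : ∀ e ∈ P, e ∈ univ \ G1 := by
    intro e he
    rw [mem_sdiff]
    exact ⟨mem_univ _, fun h => (hF1 e h).1 he⟩
  have hT1 : ∀ e ∈ G0, e ∈ univ \ G1 := by
    intro e he
    rw [mem_sdiff]
    exact ⟨mem_univ _, hF01 e he⟩
  have hUr : ∀ x ∈ U, Rch o (univ \ G1) u x := by
    intro x hx
    refine sf_mono ?_ (hPr x hx)
    rintro a b ⟨e, he, h1, h2⟩
    exact ⟨e, hP1 e he, h1, h2⟩
  have hT0r : ∀ r x, Rch o (G0) r x → Rch o (univ \ G1) r x := by
    intro r x hw
    refine sf_mono ?_ hw
    rintro a b ⟨e, he, h1, h2⟩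
    exact ⟨e, hT1 e he, h1, h2⟩
  -- reach inside the complement of `N0`
  have hMr : ∀ x, ¬ N0 x → Rch o (univ \ G1) u x := by
    intro x hx
    obtain ⟨r, hr, hw⟩ := hT'.2.2.2 x (mem_univ _)
    have hrM : ¬ N0 r := by
      refine sf_back (X := fun z => ¬ N0 z) ?_ hw hx
      rintro a b ⟨e, he, h1, h2⟩ hb ha
      subst h1; subst h2
      exact (hF0 e he).1 (hent e ha hb)
    rcases mem_union.1 hr with h | h
    · exact (hUr r h).trans (hT0r r x hw)
    · obtain ⟨e, he, h2⟩ := mem_image.1 h
      exact absurd (h2 ▸ ((hKm e).1 he).2) hrM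
  have hTall : ∀ x, Rch o (univ \ G1) u x := by
    intro x
    obtain ⟨r, hr, hw⟩ := hT'.2.2.2 x (mem_univ _)
    rcases mem_union.1 hr with h | h
    · exact (hUr r h).trans (hT0r r x hw)
    · obtain ⟨e, he, h2⟩ := mem_image.1 h
      have h3 := hMr _ ((hKm e).1 he).1
      have h4 : e ∈ univ \ G1 := by
        rw [mem_sdiff]
        exact ⟨mem_univ _, fun h => (hF1 e h).2 he⟩
      refine (h3.tail ⟨e, h4, rfl, rfl⟩).trans ?_
      rw [h2]
      exact hT0r r x hw
  -- elements of `F` do not cross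
  have hcr1 : ∀ e ∈ G1, ¬ N0 (o.tail e) → ¬ N0 (o.head e) := by
    intro e he h1 h2
    exact (hF1 e he).2 ((hKm e).2 ⟨h1, h2⟩)
  have hcr2 : ∀ e ∈ G1, ¬ N0 (o.head e) → ¬ N0 (o.tail e) := by
    intro e he h1 h2
    exact (hF1 e he).1 (hent e h2 h1)
  refine ⟨G1, ⟨hTok, fun x => hB'.2.2.2 x (mem_univ _), hTall⟩, ?_, ?_⟩
  · rw [disjoint_left]
    intro e he h
    exact (hF1 e h).1 he
  · intro x
    constructor
    · intro hw
      refine sf_fwd (X := fun z => ¬ N0 z) ?_ hw hvM
      rintro a b ⟨e, he, h1, h2⟩ ha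
      subst h1; subst h2
      exact hcr1 e he ha
    · intro hx
      obtain ⟨r, hr, hw⟩ := hB'.2.2.2 x (mem_univ _)
      have hrM : ¬ N0 r := by
        refine sf_back (X := fun z => ¬ N0 z) ?_ hw hx
        rintro a b ⟨e, he, h1, h2⟩ hb
        subst h1; subst h2
        exact hcr2 e he hb
      by_cases hrv : r = v
      · exact hrv ▸ hw
      · exact absurd ⟨r, mem_erase.2 ⟨hrv, hr⟩, Relation.ReflTransGen.refl⟩ hrM

end ARB.KS
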