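import Pool.Agent.H22.ARB.Stm

/-!
# Packing mixed arborescences, one arborescence (`k = 1`), least number of elements:
statement layer of the vertex level proof.

`u` is the root of the arborescence `T = univ \ F`, `R` is the root set of the branching `F`.
-/

set_option autoImplicit false
set_option linter.unusedSectionVars false

namespace ARB.KS

open Finset

section Defs

variable {V I : Type} [Fintype V] [DecidableEq V] [Fintype I] [DecidableEq I]
  {H : MixedGraph V I}

/-- reachability by elements of `J`. -/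
abbrev Rch (o : Orientation H) (J : Finset I) (x y : V) : Prop :=
  Relation.ReflTransGen (stepRel o.tail o.head J) x y

/-- one step along an undirected element, both ends in `B`. -/
def eStep (o : Orientation H) (B : Finset V) (a b : V) : Prop :=
  ∃ e, H.isEdge e = true ∧ o.tail e = a ∧ o.head e = b ∧ a ∈ B ∧ b ∈ B

/-- reachability by undirected elements with both ends in `B`. -/
abbrev ERch (o : Orientation H) (B : Finset V) (x y : V) : Prop :=
  Relation.ReflTransGen (eStep o B) x y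

/-- the elements with both ends in `X`. -/
def ins (o : Orientation H) (X : Finset V) : Finset I :=
  univ.filter (fun e => o.tail e ∈ X ∧ o.head e ∈ X)

/-- tokens: `2 - indegree`. -/
def Tok (o : Orientation H) (u : V) (R : Finset V) : Prop :=
  ∀ x, indeg o x + (if x = u then 1 else 0) + (if x ∈ R then 1 else 0) = 2

/-- the token set `R` leaves the remaining token feasible (as root of the arborescence). -/
def Fea (H : MixedGraph V I) (R : Finset V) : Prop :=
  ∀ X : Finset V, X.Nonempty → inner H X + (R ∩ X).card + 1 ≤ 2 * X.card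

/-- a solution. -/
def Sol (o : Orientation H) (u : V) (R : Finset V) (F : Finset I) : Prop :=
  Tok o u R ∧ (∀ x, ∃ r ∈ R, Rch o F r x) ∧ ∀ x, Rch o (univ \ F) u x

open Classical in
/-- the vertices reached from `v` by elements of `F`. -/
noncomputable def Dsc (o : Orientation H) (F : Finset I) (v : V) : Finset V :=
  univ.filter (fun x => Rch o F v x)

open Classical in
/-- the elements of `G` on the `G`-path from `a` to `b`. -/
noncomputable def Pth (o : Orientation H) (G : Finset I) (a b : V) : Finset I :=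
  G.filter (fun e => Rch o G a (o.tail e) ∧ Rch o G (o.head e) b)

open Classical in
/-- the largest set `Y` with `caught Y = 2 |Y|`. -/
noncomputable def Y0 (H : MixedGraph V I) : Finset V :=
  univ.filter (fun x => ∃ Y : Finset V, x ∈ Y ∧ caught H Y = 2 * Y.card)

/-- the standing hypotheses (a counterexample with least number of elements). -/
structure Cx (H : MixedGraph V I) (s : ℕ) : Prop where
  be : ∀ X : Finset V, X.Nonempty → inner H X + 2 ≤ 2 * X.card
  beV : inner H univ + 2 < 2 * Fintype.card V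
  sg : ∀ Y : Finset V, caught H Y ≤ 2 * Y.card
  z2 : ∀ X Y : Finset V, X.Nonempty → Y.Nonempty → Disjoint X Y → inner H X + 2 = 2 * X.card →
    inner H Y + 2 = 2 * Y.card → X.card + Y.card ≤ s + 1
  z0 : ∀ Y : Finset V, Y.card + 2 ≤ Fintype.card V → caught H Y = 2 * Y.card → Y.card + 1 ≤ s
  ng : ∀ (o : Orientation H) (u : V) (R : Finset V) (F : Finset I) (v : V), Sol o u R F →
    v ∈ R → s < (Dsc o F v).card

/-- `o1` and `o` agree on all elements that are not inside `M`. -/
def Agr (o o1 : Orientation H) (M : Finset V) : Prop :=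
  ∀ e, ¬ (o.tail e ∈ M ∧ o.head e ∈ M) → o1.tail e = o.tail e ∧ o1.head e = o.head e

/-- a tuple: the ancestors of `v` in the arborescence are `v`, `u` and vertices of `Y0`. -/
structure Tup (o : Orientation H) (u : V) (R : Finset V) (F : Finset I) (v : V) : Prop where
  sol : Sol o u R F
  vR : v ∈ R
  vu : v ≠ u
  anc : ∀ x, Rch o (univ \ F) x v → x = v ∨ x = u ∨ x ∈ Y0 H

/-- a tuple with minimal `Dsc`. -/
def MinT (o : Orientation H) (u : V) (R : Finset V) (F : Finset I) (v : V) : Prop :=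
  Tup o u R F v ∧ ∀ (o' : Orientation H) (u' : V) (R' : Finset V) (F' : Finset I) (v' : V),
    Tup o' u' R' F' v' → Dsc o' F' v' ⊆ Dsc o F v → Dsc o' F' v' = Dsc o F v

/-- the core `B` of `M = Dsc o F v` and the element `g` that enters it. -/
structure Core (o : Orientation H) (R : Finset V) (F : Finset I) (v : V)
    (B : Finset V) (g : I) : Prop where
  sub : B ⊆ Dsc o F v
  vB : v ∈ B
  cl : ∀ e, o.head e ∈ B → o.tail e ∈ Dsc o F v → o.tail e ∈ B
  gt : o.tail g ∉ Dsc o F v
  gh : o.head g ∈ B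
  gu : ∀ e, o.tail e ∉ Dsc o F v → o.head e ∈ B → e = g
  zero : inner H B + 2 = 2 * B.card
  rl : ∀ x ∈ Dsc o F v \ B, ∃ e, o.tail e ∉ Dsc o F v ∧ o.head e ∈ Dsc o F v \ B ∧
    Rch o (ins o (Dsc o F v \ B)) (o.head e) x
  ord : ∀ e, o.tail e ∉ Dsc o F v → o.head e ∈ Dsc o F v \ B →
    Rch o (univ \ F) (o.head e) (o.tail g)
  anc : Rch o (univ \ F) (o.head g) v

/-- what a solution gives by counting (`T = univ \ F`). -/
structure SolP (o : Orientation H) (u : V) (R : Finset V) (F : Finset I) : Prop where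
  fU : ∀ e ∈ F, ∀ e' ∈ F, o.head e = o.head e' → e = e'
  fR : ∀ e ∈ F, o.head e ∉ R
  tU : ∀ e ∉ F, ∀ e' ∉ F, o.head e = o.head e' → e = e'
  tR : ∀ e ∉ F, o.head e ≠ u
  fA : ∀ x y, Rch o F x y → Rch o F y x → x = y
  tA : ∀ x y, Rch o (univ \ F) x y → Rch o (univ \ F) y x → x = y
  fC : ∀ x y z, Rch o F x z → Rch o F y z → Rch o F x y ∨ Rch o F y x
  tC : ∀ x y z, Rch o (univ \ F) x z → Rch o (univ \ F) y z →
    Rch o (univ \ F) x y ∨ Rch o (univ \ F) y x
  fO : ∀ r ∈ R, ∀ r' ∈ R, ∀ x, Rch o F r x → Rch o F r' x → r = r'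
  fN : ∀ X : Finset V, din o.tail o.head F X + (R ∩ X).card +
    (F.filter (fun e => o.tail e ∈ X ∧ o.head e ∈ X)).card = X.card
  tN : ∀ X : Finset V, din o.tail o.head (univ \ F) X + (if u ∈ X then 1 else 0) +
    ((univ \ F).filter (fun e => o.tail e ∈ X ∧ o.head e ∈ X)).card = X.card

theorem mem_Dsc {o : Orientation H} {F : Finset I} {v x : V} :
    x ∈ Dsc o F v ↔ Rch o F v x := by
  unfold Dsc; simp

theorem mem_Pth {o : Orientation H} {G : Finset I} {a b : V} {e : I} :
    e ∈ Pth o G a b ↔ e ∈ G ∧ Rch o G a (o.tail e) ∧ Rch o G (o.head e) b := by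
  unfold Pth; simp

theorem mem_Y0 {x : V} :
    x ∈ Y0 H ↔ ∃ Y : Finset V, x ∈ Y ∧ caught H Y = 2 * Y.card := by
  unfold Y0; simp

theorem mem_ins {o : Orientation H} {X : Finset V} {e : I} :
    e ∈ ins o X ↔ o.tail e ∈ X ∧ o.head e ∈ X := by
  unfold ins; simp

end Defs

/-! ### Rows -/

/-- R1a. -/
def SCnt : Prop :=
  ∀ (V I : Type) [Fintype V] [DecidableEq V] [Fintype I] [DecidableEq I] (H : MixedGraph V I)
    (o : Orientation H) (u : V) (R : Finset V), Tok o u R → ∀ X : Finset V,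
    din o.tail o.head univ X + (if u ∈ X then 1 else 0) + (R ∩ X).card + inner H X = 2 * X.card

/-- R1b. -/
def SSolP : Prop :=
  ∀ (V I : Type) [Fintype V] [DecidableEq V] [Fintype I] [DecidableEq I] (H : MixedGraph V I)
    (o : Orientation H) (u : V) (R : Finset V) (F : Finset I), Sol o u R F → SolP o u R F

/-- R1c: feasibility of the token `u` is reachability from `u`. -/
def SFea : Prop :=
  ∀ (V I : Type) [Fintype V] [DecidableEq V] [Fintype I] [DecidableEq I] (H : MixedGraph V I)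
    (o : Orientation H) (u : V) (R : Finset V), Tok o u R →
    (Fea H R ↔ ∀ x, Rch o univ u x)

/-- R2: last element of `A` before the first element of `A'`. -/
def SBet : Prop :=
  ∀ (V : Type) [Fintype V] (s : V → V → Prop) (A A' : V → Prop),
    (∀ x y, Relation.ReflTransGen s x y → Relation.ReflTransGen s y x → x = y) →
    ∀ x y, Relation.ReflTransGen s x y → A x → A' y →
    ∃ a b, A a ∧ A' b ∧ Relation.ReflTransGen s x a ∧ Relation.ReflTransGen s a b ∧
      Relation.ReflTransGen s b y ∧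
      ∀ z, Relation.ReflTransGen s a z → Relation.ReflTransGen s z b → z ≠ a → z ≠ b →
        ¬ A z ∧ ¬ A' z

/-- R3: Edmonds' theorem inside `S`, two root sets. -/
def SSplit : Prop :=
  ∀ (V I : Type) [Fintype V] [DecidableEq V] [Fintype I] [DecidableEq I] (H : MixedGraph V I)
    (o : Orientation H) (J : Finset I) (S RT RF : Finset V),
    (∀ e ∈ J, o.tail e ∈ S ∧ o.head e ∈ S) → RT ⊆ S → RF ⊆ S → RT.Nonempty → RF.Nonempty →
    (∀ Z : Finset V, Z.Nonempty → Z ⊆ S → (if Disjoint RT Z then 1 else 0) +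
      (if Disjoint RF Z then 1 else 0) ≤ din o.tail o.head J Z) →
    ∃ JT JF : Finset I, JT ⊆ J ∧ JF ⊆ J ∧ Disjoint JT JF ∧
      (∀ x ∈ S, ∃ r ∈ RT, Rch o JT r x) ∧ (∀ x ∈ S, ∃ r ∈ RF, Rch o JF r x)

/-- R4: solutions whose arborescence contains `P`; `Dsc` of `v` is as small as possible. -/
def SF2 : Prop :=
  ∀ (V I : Type) [Fintype V] [DecidableEq V] [Fintype I] [DecidableEq I] (H : MixedGraph V I)
    (o : Orientation H) (u : V) (R : Finset V) (v : V) (P : Finset I) (U : Finset V),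
    (∀ X : Finset V, X.Nonempty → inner H X + 2 ≤ 2 * X.card) →
    Tok o u R → Fea H R → v ∈ R → u ∈ U → v ∈ U → (∀ e ∈ P, o.head e ∈ U) →
    (∀ x ∈ U, Rch o P u x) → (∀ x, ∃ r ∈ R, Rch o (univ \ P) r x) →
    ∃ F, Sol o u R F ∧ Disjoint P F ∧
      ∀ x, Rch o F v x ↔
        ¬ ∃ r ∈ R.erase v, Rch o ((univ \ P).filter (fun e => o.tail e ≠ v)) r x

/-- R5a: moving the token `u`. -/
def SMvT : Prop :=
  ∀ (V I : Type) [Fintype V] [DecidableEq V] [Fintype I] [DecidableEq I] (H : MixedGraph V I)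
    (o : Orientation H) (u : V) (R : Finset V) (z : V) (B : Finset V), Tok o u R →
    ERch o B u z → ∃ o', Agr o o' B ∧ Tok o' z R

/-- R5b: moving the token `w ∈ R`. -/
def SMvF : Prop :=
  ∀ (V I : Type) [Fintype V] [DecidableEq V] [Fintype I] [DecidableEq I] (H : MixedGraph V I)
    (o : Orientation H) (u : V) (R : Finset V) (w z : V) (B : Finset V), Tok o u R →
    w ∈ R → z ∉ R.erase w → ERch o B w z → ∃ o', Agr o o' B ∧ Tok o' u (insert z (R.erase w))

/-- R6: two tokens one of which is feasible have disjoint undirected reach. -/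
def SNF1 : Prop :=
  ∀ (V I : Type) [Fintype V] [DecidableEq V] [Fintype I] [DecidableEq I] (H : MixedGraph V I)
    (s : ℕ) (o : Orientation H) (u : V) (R : Finset V) (w z : V), Cx H s → Tok o u R →
    Fea H R → w ∈ R → ERch o univ u z → ERch o univ w z → False

/-- R7a: `Y0` is the set of vertices without undirected path from a token. -/
def SY0 : Prop :=
  ∀ (V I : Type) [Fintype V] [DecidableEq V] [Fintype I] [DecidableEq I] (H : MixedGraph V I)
    (s : ℕ) (o : Orientation H) (u : V) (R : Finset V), Cx H s → Tok o u R →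
    ∀ x, x ∈ Y0 H ↔ ¬ ERch o univ u x ∧ ∀ w ∈ R, ¬ ERch o univ w x

/-- R7b. -/
def SY0c : Prop :=
  ∀ (V I : Type) [Fintype V] [DecidableEq V] [Fintype I] [DecidableEq I] (H : MixedGraph V I)
    (s : ℕ) (o : Orientation H) (u : V) (R : Finset V), Cx H s → Tok o u R →
    2 ≤ R.card ∧ (Y0 H).card + 1 ≤ s

/-- R8a: extraction, general form. -/
def SExt : Prop :=
  ∀ (V I : Type) [Fintype V] [DecidableEq V] [Fintype I] [DecidableEq I] (H : MixedGraph V I)
    (s : ℕ) (o : Orientation H) (j : V) (S : Finset V) (l a b : V) (Bj Bl U : Finset V)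
    (P : Finset I), Cx H s → Tok o j S → Fea H S → l ∈ S → b ∉ S.erase l →
    (∀ x ∈ Bj, ERch o univ j x) → (∀ x ∈ Bl, ERch o univ l x) →
    ERch o Bj j a → ERch o Bl l b → a ∈ U → b ∈ U →
    (∀ e ∈ P, o.tail e ∈ U ∧ o.head e ∈ U ∧ o.head e ≠ a ∧ o.tail e ≠ b) →
    (∀ x ∈ U, Rch o P a x) → (∀ x ∈ U, x = a ∨ x = b ∨ x ∈ Y0 H) →
    (∀ X : Finset V, X.Nonempty → Disjoint X (insert b (S.erase l)) →
      din o.tail o.head P X + (if a ∈ X then 1 else 0) + inner H X + 1 ≤ 2 * X.card) →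
    ∃ (o' : Orientation H) (F' : Finset I), Sol o' a (insert b (S.erase l)) F' ∧
      (∀ e, ¬ (o.tail e ∈ Bj ∧ o.head e ∈ Bj) → ¬ (o.tail e ∈ Bl ∧ o.head e ∈ Bl) →
        o'.tail e = o.tail e ∧ o'.head e = o.head e) ∧
      (∀ x, Rch o' (univ \ F') x b → x = a ∨ x = b ∨ x ∈ Y0 H) ∧
      ∀ x, Rch o' F' b x ↔
        ¬ ∃ r ∈ S.erase l, Rch o' ((univ \ P).filter (fun e => o'.tail e ≠ b)) r x

/-- R8b: extraction along a path of the arborescence. -/
def SExtT : Prop :=
  ∀ (V I : Type) [Fintype V] [DecidableEq V] [Fintype I] [DecidableEq I] (H : MixedGraph V I)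
    (s : ℕ) (o : Orientation H) (u : V) (R : Finset V) (F : Finset I) (l a b : V)
    (Bj Bl : Finset V), Cx H s → Sol o u R F → l ∈ R → b ∉ R.erase l →
    (∀ x ∈ Bj, ERch o univ u x) → (∀ x ∈ Bl, ERch o univ l x) →
    ERch o Bj u a → ERch o Bl l b → Rch o (univ \ F) a b →
    (∀ z, Rch o (univ \ F) a z → Rch o (univ \ F) z b → z = a ∨ z = b ∨ z ∈ Y0 H) →
    ∃ (o' : Orientation H) (F' : Finset I), Sol o' a (insert b (R.erase l)) F' ∧
      (∀ e, ¬ (o.tail e ∈ Bj ∧ o.head e ∈ Bj) → ¬ (o.tail e ∈ Bl ∧ o.head e ∈ Bl) →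
        o'.tail e = o.tail e ∧ o'.head e = o.head e) ∧
      (∀ x, Rch o' (univ \ F') x b → x = a ∨ x = b ∨ x ∈ Y0 H) ∧
      ∀ x, Rch o' F' b x ↔ ¬ ∃ r ∈ R.erase l,
        Rch o' ((univ \ Pth o (univ \ F) a b).filter (fun e => o'.tail e ≠ b)) r x

/-- R8c: extraction along a path of the branching, from the feasible root `w`. -/
def SExtF : Prop :=
  ∀ (V I : Type) [Fintype V] [DecidableEq V] [Fintype I] [DecidableEq I] (H : MixedGraph V I)
    (s : ℕ) (o : Orientation H) (u : V) (R : Finset V) (F : Finset I) (w l a b : V)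
    (Bj Bl : Finset V), Cx H s → Sol o u R F → w ∈ R → u ∉ R → Rch o F w u →
    l ∈ insert u (R.erase w) → b ∉ (insert u (R.erase w)).erase l →
    (∀ x ∈ Bj, ERch o univ w x) → (∀ x ∈ Bl, ERch o univ l x) →
    ERch o Bj w a → ERch o Bl l b → Rch o F a b →
    (∀ z, Rch o F a z → Rch o F z b → z = a ∨ z = b ∨ z ∈ Y0 H) →
    ∃ (o' : Orientation H) (F' : Finset I),
      Sol o' a (insert b ((insert u (R.erase w)).erase l)) F' ∧
      (∀ e, ¬ (o.tail e ∈ Bj ∧ o.head e ∈ Bj) → ¬ (o.tail e ∈ Bl ∧ o.head e ∈ Bl) →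
        o'.tail e = o.tail e ∧ o'.head e = o.head e) ∧
      (∀ x, Rch o' (univ \ F') x b → x = a ∨ x = b ∨ x ∈ Y0 H) ∧
      ∀ x, Rch o' F' b x ↔ ¬ ∃ r ∈ (insert u (R.erase w)).erase l,
        Rch o' ((univ \ Pth o F a b).filter (fun e => o'.tail e ≠ b)) r x

/-- R9a: tuples exist. -/
def SInit : Prop :=
  ∀ (V I : Type) [Fintype V] [DecidableEq V] [Fintype I] [DecidableEq I] (H : MixedGraph V I)
    (s : ℕ) (o : Orientation H) (u : V) (R : Finset V) (F : Finset I), Cx H s → Sol o u R F →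
    ∃ (o' : Orientation H) (u' : V) (R' : Finset V) (F' : Finset I) (v' : V),
      Tup o' u' R' F' v'

/-- R9b: below each tuple there is a minimal one. -/
def SMin : Prop :=
  ∀ (V I : Type) [Fintype V] [DecidableEq V] [Fintype I] [DecidableEq I] (H : MixedGraph V I)
    (o : Orientation H) (u : V) (R : Finset V) (F : Finset I) (v : V), Tup o u R F v →
    ∃ (o' : Orientation H) (u' : V) (R' : Finset V) (F' : Finset I) (v' : V),
      MinT o' u' R' F' v' ∧ Dsc o' F' v' ⊆ Dsc o F v

/-- R9c: every element that enters `Dsc` lies on the path from `u` to `v`. -/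
def SEntry : Prop :=
  ∀ (V I : Type) [Fintype V] [DecidableEq V] [Fintype I] [DecidableEq I] (H : MixedGraph V I)
    (s : ℕ) (o : Orientation H) (u : V) (R : Finset V) (F : Finset I) (v : V), Cx H s →
    MinT o u R F v → ∀ e, o.tail e ∉ Dsc o F v → o.head e ∈ Dsc o F v →
      e ∉ F ∧ Rch o (univ \ F) (o.head e) v

/-- R9d: undirected paths from tokens to `Dsc` stay in `Dsc`. -/
def SEsc : Prop :=
  ∀ (V I : Type) [Fintype V] [DecidableEq V] [Fintype I] [DecidableEq I] (H : MixedGraph V I)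
    (s : ℕ) (o : Orientation H) (u : V) (R : Finset V) (F : Finset I) (v : V)
    (o1 : Orientation H) (u1 : V) (R1 : Finset V) (x y : V), Cx H s →
    MinT o u R F v → Agr o o1 (Dsc o F v) → Tok o1 u1 R1 → (x = u1 ∨ x ∈ R1) →
    ERch o1 univ x y → y ∈ Dsc o F v → x ∈ Dsc o F v ∧ ERch o1 (Dsc o F v) x y

/-- R10: the main reduction. -/
def SRed : Prop :=
  ∀ (V I : Type) [Fintype V] [DecidableEq V] [Fintype I] [DecidableEq I] (H : MixedGraph V I)
    (s : ℕ) (o : Orientation H) (u : V) (R : Finset V) (F : Finset I) (v : V)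
    (o1 : Orientation H) (u1 : V) (R1 : Finset V) (F1 : Finset I) (v1 : V) (e0 : I), Cx H s →
    MinT o u R F v → Sol o1 u1 R1 F1 → v1 ∈ R1 → v1 ∈ Dsc o F v →
    R1.erase v1 = R.erase v → (u1 = u ∨ (u1 ∈ Dsc o F v ∧ u ∈ Dsc o F v)) →
    Agr o o1 (Dsc o F v) → (∀ e, o.head e ∉ Dsc o F v → (e ∈ F1 ↔ e ∈ F)) →
    e0 ∈ F1 → o.tail e0 ∉ Dsc o F v → o.head e0 ∈ Dsc o F v → False

/-- R11. -/
def SL3 : Prop :=
  ∀ (V I : Type) [Fintype V] [DecidableEq V] [Fintype I] [DecidableEq I] (H : MixedGraph V I)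
    (s : ℕ) (o : Orientation H) (u : V) (R : Finset V) (F : Finset I) (v : V), Cx H s →
    MinT o u R F v → u ∉ Dsc o F v

/-- R12. -/
def SL1 : Prop :=
  ∀ (V I : Type) [Fintype V] [DecidableEq V] [Fintype I] [DecidableEq I] (H : MixedGraph V I)
    (s : ℕ) (o : Orientation H) (u : V) (R : Finset V) (F : Finset I) (v : V) (X : Finset V)
    (t : V), Cx H s → MinT o u R F v → X ⊆ Dsc o F v → v ∈ X →
    (∀ e, o.head e ∈ X → o.tail e ∈ Dsc o F v → o.tail e ∈ X) →
    t ∈ X → Rch o (univ \ F) t v → (∀ z ∈ X, Rch o (univ \ F) z t → z = t) →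
    ∀ e, o.tail e ∉ Dsc o F v → Rch o (ins o X) t (o.head e) → o.head e = t

/-- R13. -/
def SCore : Prop :=
  ∀ (V I : Type) [Fintype V] [DecidableEq V] [Fintype I] [DecidableEq I] (H : MixedGraph V I)
    (s : ℕ) (o : Orientation H) (u : V) (R : Finset V) (F : Finset I) (v : V), Cx H s →
    MinT o u R F v → ∃ (B : Finset V) (g : I), Core o R F v B g

/-- R14a. -/
def SL2 : Prop :=
  ∀ (V I : Type) [Fintype V] [DecidableEq V] [Fintype I] [DecidableEq I] (H : MixedGraph V I)
    (s : ℕ) (o : Orientation H) (u : V) (R : Finset V) (F : Finset I) (v : V) (B : Finset V)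
    (g : I), Cx H s → MinT o u R F v → Core o R F v B g →
    ∀ e, H.isEdge e = true → o.tail e ∈ B → ERch o univ v (o.tail e) →
      o.head e ∈ Dsc o F v → o.head e ∈ B

/-- R14b. -/
def STerm : Prop :=
  ∀ (V I : Type) [Fintype V] [DecidableEq V] [Fintype I] [DecidableEq I] (H : MixedGraph V I)
    (s : ℕ) (o : Orientation H) (u : V) (R : Finset V) (F : Finset I) (v : V) (B : Finset V)
    (g : I), Cx H s → MinT o u R F v → Core o R F v B g → Dsc o F v \ B ⊆ Y0 H

/-- R15a: a second tuple, disjoint from the first. -/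
def SDisj : Prop :=
  ∀ (V I : Type) [Fintype V] [DecidableEq V] [Fintype I] [DecidableEq I] (H : MixedGraph V I)
    (s : ℕ) (o : Orientation H) (u : V) (R : Finset V) (F : Finset I) (v : V) (B : Finset V)
    (g : I), Cx H s → MinT o u R F v → Core o R F v B g →
    ∃ (o' : Orientation H) (u' : V) (R' : Finset V) (F' : Finset I) (v' : V),
      Tup o' u' R' F' v' ∧ Disjoint (Dsc o' F' v') (Dsc o F v)

/-- R15b: no such `H` has a solution. -/
def SEnd : Prop :=
  ∀ (V I : Type) [Fintype V] [DecidableEq V] [Fintype I] [DecidableEq I] (H : MixedGraph V I)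
    (s : ℕ) (o : Orientation H) (u : V) (R : Finset V) (F : Finset I), Cx H s →
    Sol o u R F → False

/-- R16: the top. -/
def STop : Prop :=
  ∀ (V I : Type) [Fintype V] [DecidableEq V] [Fintype I] [DecidableEq I] (H : MixedGraph V I)
    (d : ℕ), 1 ≤ d → 2 ≤ Fintype.card V → StrictCond H 1 d →
    Fintype.card I + (Fintype.card V - 2) / d ≤ 2 * (Fintype.card V - 1) → HasPacking H 1 d

end ARB.KS
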