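import Pool.Agent.H46.ARB1.Cnt
import Pool.Agent.H22.ARB.Fin
import Pool.Agent.H22.ARB.Exact

/-!
# ARB1, row R16: the top
-/

set_option autoImplicit false
set_option linter.unusedSectionVars false

namespace ARB.KS

open Finset Relation ARB.ExactRow

section

variable {V I : Type} [Fintype V] [DecidableEq V] [Fintype I] [DecidableEq I]
  {H : MixedGraph V I}

/-- weight of a subpartition that covers all vertices. -/
theorem wt_cover (H : MixedGraph V I) (P : Finset (Finset V)) (hP : IsSubpartition P)
    (hc : ∀ x, ∃ X ∈ P, x ∈ X) : wt H P + ∑ X ∈ P, inner H X = Fintype.card I := by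
  have h1 : ∑ X ∈ P, inner H X =
      (P.biUnion (fun X => univ.filter (fun e => H.fst e ∈ X ∧ H.snd e ∈ X))).card := by
    rw [card_biUnion]
    · rfl
    · intro X hX Y hY hXY
      refine disjoint_left.2 ?_
      intro e he he'
      rw [mem_in] at he he'
      exact (disjoint_left.1 (hP.2 X hX Y hY hXY)) he.1 he'.1
  rw [h1, wt_eq H P hP, ← card_union_of_disjoint]
  · rw [← card_univ]
    congr 1
    ext e
    rw [mem_union, mem_cset, mem_biUnion]
    simp only [mem_univ, iff_true]
    by_cases hin : ∃ X ∈ P, H.fst e ∈ X ∧ H.snd e ∈ X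
    · right
      obtain ⟨X, hX, h⟩ := hin
      exact ⟨X, hX, (mem_in H X e).2 h⟩
    · left
      by_cases hE : H.isEdge e = true
      · left
        refine ⟨hE, ?_⟩
        rintro ⟨X, hX, h2, h3⟩
        rw [mem_insert] at hX
        rcases hX with rfl | hX
        · obtain ⟨Z, hZ, hz⟩ := hc (H.fst e)
          rw [mem_sdiff] at h2
          exact h2.2 (mem_sup.2 ⟨Z, hZ, hz⟩)
        · exact hin ⟨X, hX, h2, h3⟩
      · right
        obtain ⟨X, hX, h2⟩ := hc (H.snd e)
        exact ⟨by simpa using hE, X, hX, fun h => hin ⟨X, hX, h, h2⟩, h2⟩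
  · refine disjoint_left.2 ?_
    intro e he he'
    rw [mem_cset] at he
    rw [mem_biUnion] at he'
    obtain ⟨X, hX, h⟩ := he'
    rw [mem_in] at h
    rcases he with h2 | ⟨_, Z, hZ, h3, h4⟩
    · exact h2.2 ⟨X, mem_insert_of_mem hX, h⟩
    · by_cases hXZ : X = Z
      · subst hXZ
        exact h3 h.1
      · exact (disjoint_left.1 (hP.2 X hX Z hZ hXZ)) h.2 h4

theorem inner_single (H : MixedGraph V I) (x : V) : inner H {x} = 0 := by
  unfold inner
  rw [card_eq_zero, filter_eq_empty_iff]
  intro e _ h
  rw [mem_singleton, mem_singleton] at h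
  exact H.noLoop e (h.1.trans h.2.symm)

/-- the family `X`, `Y`, singletons of the other vertices. -/
theorem wt_two (H : MixedGraph V I) (X Y : Finset V) (hX : X.Nonempty) (hY : Y.Nonempty)
    (hXY : Disjoint X Y) : ∃ P : Finset (Finset V), IsSubpartition P ∧
      P.card + X.card + Y.card = Fintype.card V + 2 ∧ 2 ≤ P.card ∧
      wt H P + inner H X + inner H Y = Fintype.card I := by
  have hne : X ≠ Y := by
    rintro rfl
    obtain ⟨x, hx⟩ := hX
    exact disjoint_left.1 hXY hx hx
  have hnY : Y ∉ sgl (univ \ (X ∪ Y)) := by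
    intro h
    obtain ⟨w, hw, h2⟩ := mem_sgl.1 h
    rw [mem_sdiff] at hw
    apply hw.2
    rw [mem_union]
    right
    rw [h2]
    exact mem_singleton_self w
  have hnX : X ∉ insert Y (sgl (univ \ (X ∪ Y))) := by
    intro h
    rw [mem_insert] at h
    rcases h with h | h
    · exact hne h
    · obtain ⟨w, hw, h2⟩ := mem_sgl.1 h
      rw [mem_sdiff] at hw
      apply hw.2
      rw [mem_union]
      left
      rw [h2]
      exact mem_singleton_self w
  have hcover : ∀ x, ∃ Z ∈ insert X (insert Y (sgl (univ \ (X ∪ Y)))), x ∈ Z := by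
    intro x
    by_cases h1 : x ∈ X
    · exact ⟨X, mem_insert_self _ _, h1⟩
    by_cases h2 : x ∈ Y
    · exact ⟨Y, mem_insert_of_mem (mem_insert_self _ _), h2⟩
    · refine ⟨{x}, mem_insert_of_mem (mem_insert_of_mem (mem_sgl.2 ⟨x, ?_, rfl⟩)),
        mem_singleton_self x⟩
      rw [mem_sdiff, mem_union]
      exact ⟨mem_univ _, fun h => h.elim h1 h2⟩
  have hsub : IsSubpartition (insert X (insert Y (sgl (univ \ (X ∪ Y))))) := by
    have hdX : ∀ Z ∈ sgl (univ \ (X ∪ Y)), Disjoint X Z := by
      intro Z hZ
      obtain ⟨w, hw, rfl⟩ := mem_sgl.1 hZ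
      rw [mem_sdiff, mem_union] at hw
      rw [disjoint_singleton_right]
      exact fun h => hw.2 (Or.inl h)
    have hdY : ∀ Z ∈ sgl (univ \ (X ∪ Y)), Disjoint Y Z := by
      intro Z hZ
      obtain ⟨w, hw, rfl⟩ := mem_sgl.1 hZ
      rw [mem_sdiff, mem_union] at hw
      rw [disjoint_singleton_right]
      exact fun h => hw.2 (Or.inr h)
    refine ⟨?_, ?_⟩
    · intro Z hZ
      rw [mem_insert, mem_insert] at hZ
      rcases hZ with rfl | rfl | hZ
      · exact hX
      · exact hY
      · exact (sub_sgl _).1 Z hZ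
    · intro A hA B hB hAB
      rw [mem_insert, mem_insert] at hA hB
      rcases hA with rfl | rfl | hA
      · rcases hB with rfl | rfl | hB
        · exact absurd rfl hAB
        · exact hXY
        · exact hdX B hB
      · rcases hB with rfl | rfl | hB
        · exact hXY.symm
        · exact absurd rfl hAB
        · exact hdY B hB
      · rcases hB with rfl | rfl | hB
        · exact (hdX A hA).symm
        · exact (hdY A hA).symm
        · exact (sub_sgl _).2 A hA B hB hAB
  have hcard : (insert X (insert Y (sgl (univ \ (X ∪ Y))))).card + X.card + Y.card =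
      Fintype.card V + 2 := by
    rw [card_insert_of_notMem hnX, card_insert_of_notMem hnY, card_sgl,
      card_sdiff_of_subset (subset_univ _), card_union_of_disjoint hXY]
    have h := card_le_card (subset_univ (X ∪ Y))
    rw [card_union_of_disjoint hXY] at h
    rw [card_univ] at h ⊢
    omega
  refine ⟨insert X (insert Y (sgl (univ \ (X ∪ Y)))), hsub, hcard, ?_, ?_⟩
  · rw [card_insert_of_notMem hnX, card_insert_of_notMem hnY]
    omega
  · have h := wt_cover H _ hsub hcover
    rw [sum_insert hnX, sum_insert hnY] at h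
    have h0 : ∑ Z ∈ sgl (univ \ (X ∪ Y)), inner H Z = 0 := by
      apply sum_eq_zero
      intro Z hZ
      obtain ⟨w, _, rfl⟩ := mem_sgl.1 hZ
      exact inner_single H w
    rw [h0] at h
    omega

/-- tight families have many members. -/
theorem strict_m {d q : ℕ} (hd : 1 ≤ d) (hS : StrictCond H 1 d) {P : Finset (Finset V)}
    (hP : IsSubpartition P) (h2 : 2 ≤ P.card) (hw : wt H P + q + 2 = 2 * P.card) :
    q * d + 2 ≤ P.card := by
  have h := strict_int H 1 d hd hS P hP h2
  have hw' : (wt H P : ℤ) = 2 * (P.card : ℤ) - 2 - q := by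
    have : ((wt H P + q + 2 : ℕ) : ℤ) = ((2 * P.card : ℕ) : ℤ) := by rw [hw]
    push_cast at this
    linarith
  rw [hw'] at h
  push_cast at h
  have h3 : (q : ℤ) * d + 2 ≤ (P.card : ℤ) := by nlinarith
  exact_mod_cast h3

theorem joined_of_rch {o : Orientation H} {F : Finset I} {x y : V} (h : Rch o F x y) :
    Joined H.fst H.snd F x y := by
  unfold Joined
  induction h with
  | refl => exact EqvGen.refl _
  | @tail b c _ h2 ih =>
    refine EqvGen.trans _ _ _ ih ?_
    obtain ⟨e, he, h3, h4⟩ := h2
    rcases o.ok e with ⟨h5, h6⟩ | ⟨_, h5, h6⟩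
    · exact EqvGen.rel _ _ ⟨e, he, by rw [← h5, h3], by rw [← h6, h4]⟩
    · exact EqvGen.symm _ _ (EqvGen.rel _ _ ⟨e, he, by rw [← h6, h4], by rw [← h5, h3]⟩)

/-- a solution of the vertex level is a solution. -/
theorem isSol_of_sol {o : Orientation H} {u : V} {R : Finset V} {F : Finset I}
    (h : Sol o u R F) : IsSol H 1 o (fun x => if x = u then 1 else 0) F R := by
  have hp := sSolP' h
  refine ⟨⟨subset_univ _, fun e he => ⟨mem_univ _, mem_univ _, hp.fR e he⟩, hp.fU,
    fun v _ => h.2.1 v⟩, ?_, ?_⟩
  · rw [sum_ite_eq' univ u (fun _ => 1), if_pos (mem_univ u)]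
  · intro X hX
    change 1 ≤ din o.tail o.head (univ \ F) X + ∑ v ∈ X, (if v = u then 1 else 0)
    by_cases hu : u ∈ X
    · have h1 : ∑ v ∈ X, (if v = u then 1 else 0) = 1 := by
        rw [sum_ite_eq' X u (fun _ => 1), if_pos hu]
      omega
    · obtain ⟨x, hx⟩ := hX
      obtain ⟨e, he, h3, h4, -, -⟩ := rch_last (h.2.2 x) hu hx
      have := din_pos he h3 h4
      omega

theorem sol_card {o : Orientation H} {u : V} {R : Finset V} (h : Tok o u R) :
    1 + R.card + Fintype.card I = 2 * Fintype.card V := by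
  have h1 := sCnt' h univ
  have h2 : din o.tail o.head univ univ = 0 := k1_dn_univ o
  rw [h2, if_pos (mem_univ u), inter_univ, k1_inner_univ, card_univ] at h1
  omega

/-- from a solution in the sense of `IsSol` with the least number of elements. -/
theorem sol_of_isSol {o : Orientation H} {r : V → ℕ} {F : Finset I} {R : Finset V}
    (h : IsSol H 1 o r F R) (hF : F.card + R.card = Fintype.card V)
    (hI : Fintype.card I + 1 + R.card ≤ 2 * Fintype.card V) : ∃ u, Sol o u R F := by
  classical
  obtain ⟨⟨-, hb1, hb2, hb3⟩, hr, hcut⟩ := h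
  -- the root
  have hex : ∃ u, r u ≠ 0 := by
    by_contra hno
    push Not at hno
    rw [sum_eq_zero (fun v _ => hno v)] at hr
    omega
  obtain ⟨u, hu⟩ := hex
  have hur : r u = 1 ∧ ∀ x, x ≠ u → r x = 0 := by
    have h1 : ∑ v ∈ univ.erase u, r v + r u = 1 := by
      rw [sum_erase_add _ _ (mem_univ u)]
      exact hr
    have h2 : ∑ v ∈ univ.erase u, r v = 0 := by omega
    refine ⟨by omega, ?_⟩
    intro x hx
    exact (sum_eq_zero_iff.1 h2) x (mem_erase.2 ⟨hx, mem_univ x⟩)
  have hrsum : ∀ X : Finset V, u ∉ X → ∑ v ∈ X, r v = 0 := by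
    intro X hX
    apply sum_eq_zero
    intro v hv
    apply hur.2
    rintro rfl
    exact hX hv
  -- reachability
  have hreach : ∀ x, Rch o (univ \ F) u x := by
    intro x
    by_contra hx
    set X : Finset V := univ.filter (fun x => ¬ Rch o (univ \ F) u x) with hX
    have hmem : ∀ x, x ∈ X ↔ ¬ Rch o (univ \ F) u x := by intro x; simp [hX]
    have h1 : din o.tail o.head (univ \ F) X = 0 := by
      apply din_unreached {u}
      intro x
      simp [hmem]
    have h3 : u ∉ X := by
      rw [hmem]
      exact fun hh => hh ReflTransGen.refl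
    have h4 := hcut X ⟨x, (hmem x).2 hx⟩
    rw [h1, hrsum X h3] at h4
    omega
  -- counting
  have hFle : ∀ x, ind o F x + (if x ∈ R then 1 else 0) ≤ 1 := by
    intro x
    by_cases hx : x ∈ R
    · rw [if_pos hx]
      have : ind o F x = 0 := by
        unfold ind
        rw [card_eq_zero, filter_eq_empty_iff]
        intro e he h2
        exact (hb1 e he).2.2 (by rw [h2]; exact hx)
      omega
    · rw [if_neg hx]
      have : ind o F x ≤ 1 := by
        unfold ind
        rw [card_le_one]
        intro e he e' he'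
        rw [mem_filter] at he he'
        exact hb2 e he.1 e' he'.1 (he.2.trans he'.2.symm)
      omega
  have hTge : ∀ x, 1 ≤ ind o (univ \ F) x + (if x = u then 1 else 0) := by
    intro x
    by_cases hx : x = u
    · simp [hx]
    · rcases ReflTransGen.cases_tail (hreach x) with h3 | ⟨y, _, e, he, _, h5⟩
      · exact absurd h3 hx
      · have : 1 ≤ ind o (univ \ F) x := card_pos.2 ⟨e, mem_filter.2 ⟨he, h5⟩⟩
        omega
  have hindsum : ∀ J : Finset I, ∑ x, ind o J x = J.card := by
    intro J
    unfold ind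
    rw [card_eq_sum_card_fiberwise (s := J) (f := o.head) (t := univ)
      (fun e _ => mem_univ _)]
  have hsumF : ∑ x, (ind o F x + (if x ∈ R then 1 else 0)) = Fintype.card V := by
    rw [sum_add_distrib, hindsum, sum_if_mem, inter_univ]
    exact hF
  have hFeq : ∀ x, ind o F x + (if x ∈ R then 1 else 0) = 1 := by
    by_contra hno
    push Not at hno
    obtain ⟨x, hx⟩ := hno
    have h1 : ∑ x, (ind o F x + (if x ∈ R then 1 else 0)) < ∑ _x : V, 1 := by
      apply sum_lt_sum (fun y _ => hFle y)
      exact ⟨x, mem_univ x, lt_of_le_of_ne (hFle x) hx⟩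
    rw [hsumF, sum_const, card_univ, smul_eq_mul, mul_one] at h1
    omega
  have hTcard : (univ \ F).card + F.card = Fintype.card I := by
    rw [card_sdiff_of_subset (subset_univ F), card_univ]
    have := card_le_univ F
    omega
  have hsumT : ∑ x, (ind o (univ \ F) x + (if x = u then 1 else 0)) ≤ Fintype.card V := by
    rw [sum_add_distrib, hindsum, sum_if_eq, if_pos (mem_univ u)]
    omega
  have hTeq : ∀ x, ind o (univ \ F) x + (if x = u then 1 else 0) = 1 := by
    by_contra hno
    push Not at hno
    obtain ⟨x, hx⟩ := hno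
    have h1 : ∑ _x : V, 1 < ∑ x, (ind o (univ \ F) x + (if x = u then 1 else 0)) := by
      apply sum_lt_sum (fun y _ => hTge y)
      exact ⟨x, mem_univ x, lt_of_le_of_ne (hTge x) (Ne.symm hx)⟩
    rw [sum_const, card_univ, smul_eq_mul, mul_one] at h1
    omega
  refine ⟨u, ?_, fun x => hb3 x (mem_univ x), hreach⟩
  intro x
  have h3 : ind o F x + ind o (univ \ F) x = indeg o x := by
    unfold ind indeg
    rw [← card_union_of_disjoint]
    · congr 1
      ext e
      simp only [mem_union, mem_filter, mem_univ, mem_sdiff, true_and]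
      tauto
    · rw [disjoint_left]
      intro e he he'
      rw [mem_filter] at he he'
      exact (mem_sdiff.1 he'.1).2 he.1
  have h4 := hFeq x
  have h5 := hTeq x
  omega

/-- the standing hypotheses hold if there is no solution with a small component. -/
theorem cx_of {d q s : ℕ} (hd : 1 ≤ d) (hq : 1 ≤ q) (hn : Fintype.card V = q * d + s + 1)
    (hS : StrictCond H 1 d) {o : Orientation H} {u : V} {R : Finset V} {F : Finset I}
    (h : Sol o u R F) (hR : R.card = q + 1)
    (hng : ∀ (o : Orientation H) (u : V) (R : Finset V) (F : Finset I) (v : V), Sol o u R F →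
      v ∈ R → s < (Dsc o F v).card) : Cx H s := by
  have hI := sol_card h.1
  have hI' : Fintype.card I + q + 2 = 2 * Fintype.card V := by omega
  refine ⟨?_, ?_, ?_, ?_, ?_, hng⟩
  · -- be
    intro X hX
    obtain ⟨x, hx⟩ := hX
    have h1 := sCnt' h.1 X
    have h2 : din o.tail o.head F X + din o.tail o.head (univ \ F) X =
        din o.tail o.head univ X := by
      unfold din
      rw [← card_union_of_disjoint]
      · congr 1
        ext e
        simp only [mem_union, mem_filter, mem_univ, mem_sdiff, true_and]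
        tauto
      · rw [disjoint_left]
        intro e he he'
        rw [mem_filter] at he he'
        exact (mem_sdiff.1 he'.1).2 he.1
    have h3 : 1 ≤ din o.tail o.head (univ \ F) X + (if u ∈ X then 1 else 0) := by
      by_cases hu : u ∈ X
      · simp [hu]
      · obtain ⟨e, he, h3, h4, -, -⟩ := rch_last (h.2.2 x) hu hx
        have := din_pos he h3 h4
        omega
    have h4 : 1 ≤ din o.tail o.head F X + (R ∩ X).card := by
      obtain ⟨r, hr, hrx⟩ := h.2.1 x
      by_cases hrX : r ∈ X
      · have : 1 ≤ (R ∩ X).card := card_pos.2 ⟨r, mem_inter.2 ⟨hr, hrX⟩⟩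
        omega
      · obtain ⟨e, he, h3, h4, -, -⟩ := rch_last hrx hrX hx
        have := din_pos he h3 h4
        omega
    omega
  · -- beV
    rw [k1_inner_univ]
    omega
  · -- sg
    intro Y
    have h1 : caught H Y ≤ (univ.filter (fun e => o.head e ∈ Y)).card := by
      unfold caught
      apply card_le_card
      intro e he
      rw [mem_filter] at he ⊢
      refine ⟨mem_univ _, ?_⟩
      rcases o.ok e with ⟨_, h6⟩ | ⟨h7, _, h6⟩
      · rw [h6]
        exact he.2.1
      · rw [h6]
        exact he.2.2 h7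
    have h2 : (univ.filter (fun e => o.head e ∈ Y)).card = ∑ y ∈ Y, indeg o y := by
      have h3 := k1_sum o Y
      rw [← h3]
      unfold k1dn din inner
      rw [← card_union_of_disjoint]
      · congr 1
        ext e
        simp only [mem_filter, mem_univ, true_and, mem_union]
        rw [← k1_ends o e Y]
        tauto
      · rw [disjoint_left]
        intro e he he'
        rw [mem_filter] at he he'
        exact he.2.1 ((k1_ends o e Y).2 he'.2).1
    have h3 : ∑ y ∈ Y, indeg o y ≤ ∑ _y ∈ Y, 2 := by
      apply sum_le_sum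
      intro y _
      have := h.1 y
      omega
    rw [sum_const, smul_eq_mul] at h3
    omega
  · -- z2
    intro X Y hX hY hXY h1 h2
    obtain ⟨P, hP, hc, hc2, hw⟩ := wt_two H X Y hX hY hXY
    have := strict_m (q := q) hd hS hP hc2 (by omega)
    omega
  · -- z0
    intro Y hY h1
    have hw := wt_sgl H Y
    have hc : (sgl (univ \ Y)).card + Y.card = Fintype.card V := by
      rw [card_sgl, ← card_univ, card_sdiff_of_subset (subset_univ Y)]
      have := card_le_univ Y
      rw [← card_univ] at this
      omega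
    have := strict_m (q := q) hd hS (sub_sgl (univ \ Y)) (by omega) (by omega)
    omega

end

/-- R16. -/
theorem sTop (hEnd : SEnd) (hs : ARB.SSize) (hc : ARB.SComp) (ht : ARB.SPackT) : STop := by
  intro V I _ _ _ _ H d hd hV hH hI
  classical
  obtain ⟨o, r, F, R, hsol, hR⟩ := sol_of_strict hs hd hV hH
  have hpos : 0 < R.card := by
    rw [card_pos]
    have hne : Nonempty V := Fintype.card_pos_iff.mp (by omega)
    obtain ⟨v⟩ := hne
    obtain ⟨s, hs', _⟩ := hsol.1.2.2.2 v (mem_univ v)
    exact ⟨s, hs'⟩
  by_cases hfew : R.card * d < Fintype.card V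
  · obtain ⟨⟨T, hT⟩, hsz⟩ := pack_of_sol hc ht hd (by omega) hsol hR
    exact ⟨T, F, hT, hsz, comp_of_few hc hsol hfew⟩
  by_cases hR1 : R.card = 1
  · obtain ⟨⟨T, hT⟩, hsz⟩ := pack_of_sol hc ht hd (by omega) hsol hR
    refine ⟨T, F, hT, hsz, ?_⟩
    intro hns
    exact absurd ((hc V I H o F R hsol.1).2.2.2.2 hR1) hns
  -- `|V| = q d + s + 1`
  obtain ⟨q, s, hq, hn, hs1, hsd⟩ : ∃ q s, (Fintype.card V - 2) / d = q ∧
      Fintype.card V = q * d + s + 1 ∧ 1 ≤ s ∧ s ≤ d := by
    refine ⟨(Fintype.card V - 2) / d, (Fintype.card V - 2) % d + 1, rfl, ?_, by omega, ?_⟩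
    · have h1 := Nat.div_add_mod (Fintype.card V - 2) d
      have h2 : d * ((Fintype.card V - 2) / d) = (Fintype.card V - 2) / d * d := by ring
      omega
    · have := Nat.mod_lt (Fintype.card V - 2) (show 0 < d by omega)
      omega
  rw [hq] at hI
  have hRq : R.card = q + 1 := by
    have h1 : R.card ≤ q + 1 := by
      by_contra hcon
      push Not at hcon
      have h2 : (q + 2) * d ≤ R.card * d := Nat.mul_le_mul_right d hcon
      have e : (q + 2) * d = q * d + 2 * d := by ring
      omega
    have h2 : q + 1 ≤ R.card := by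
      by_contra hcon
      push Not at hcon
      have h3 : R.card * d ≤ q * d := Nat.mul_le_mul_right d (by omega)
      omega
    omega
  have hq1 : 1 ≤ q := by omega
  have hFc := (hc V I H o F R hsol.1).2.1
  obtain ⟨u, hS⟩ := sol_of_isSol hsol hFc (by omega)
  have hcI := sol_card hS.1
  by_cases hgood : ∃ (o' : Orientation H) (u' : V) (R' : Finset V) (F' : Finset I) (v : V),
      Sol o' u' R' F' ∧ v ∈ R' ∧ (Dsc o' F' v).card ≤ s
  · obtain ⟨o', u', R', F', v, hS', hv, hD⟩ := hgood
    have hsol' := isSol_of_sol hS'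
    have hcR' := sol_card hS'.1
    have hRc : R'.card = q + 1 := by omega
    have hsz' : R'.card * d < Fintype.card V - 1 + d := by
      rw [hRc, hn]
      have e : (q + 1) * d = q * d + d := by ring
      omega
    obtain ⟨⟨T, hT⟩, hsz⟩ := pack_of_sol hc ht hd (by omega) hsol' hsz'
    refine ⟨T, F', hT, hsz, ?_⟩
    intro _
    refine exists_big_comp hc hsol'.1 (R'.erase v) (univ \ Dsc o' F' v) d ?_ ?_
    · intro x hx
      obtain ⟨r', hr', hrx⟩ := hS'.2.1 x
      refine ⟨r', mem_erase.mpr ⟨?_, hr'⟩, ?_⟩
      · rintro rfl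
        exact (mem_sdiff.1 hx).2 (mem_Dsc.2 hrx)
      · unfold compVerts
        rw [mem_filter]
        exact ⟨mem_univ _, joined_of_rch hrx⟩
    · rw [card_erase_of_mem hv, card_sdiff_of_subset (subset_univ _), card_univ, hRc, hn]
      have e : (q + 1 - 1) * d = q * d := by rw [Nat.add_sub_cancel]
      omega
  · exfalso
    push Not at hgood
    exact hEnd V I H s o u R F
      (cx_of hd hq1 hn hH hS hRq (fun o u R F v h1 h2 => hgood o u R F v h1 h2)) hS

end ARB.KS
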